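import Pool.Agent.H670LG.Stm3

/-!
# Task ALS: the list of all bit strings
-/

set_option autoImplicit false

namespace Pool.Agent.H670LG

open Pool.Agent.H547R7 Pool.Agent.H547R6 Pool.Agent.NPC Pool.Agent.H424R2.PPAD

theorem ALS_len (d : ℕ) : (allS d).length = 2 ^ d := by
  induction d with
  | zero => rfl
  | succ d ih => simp [allS, ih, pow_succ]; ring

theorem ALS_mem (d : ℕ) : ∀ s ∈ allS d, s.length = d := by
  induction d with
  | zero => intro s hs; simp [allS] at hs; simp [hs]
  | succ d ih =>
    intro s hs
    simp only [allS, List.mem_append, List.mem_map] at hs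
    rcases hs with ⟨a, ha, rfl⟩ | ⟨a, ha, rfl⟩ <;> simp [ih a ha]

theorem ALS_count (d : ℕ) : ∀ p : List Bool → Bool, (allS d).countP p =
    (Finset.univ.filter fun s : Fin d → Bool => p (List.ofFn s) = true).card := by
  induction d with
  | zero =>
    intro p
    cases h : p [] <;> simp [allS, h]
  | succ d ih =>
    intro p
    rw [Finset.card_filter,
      ← Fintype.sum_equiv (Fin.consEquiv (fun _ : Fin (d + 1) => Bool))
        (fun w : Bool × (Fin d → Bool) => if p (w.1 :: List.ofFn w.2) = true then 1 else 0) _
        (fun w => by simp [Fin.consEquiv, List.ofFn_succ]),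
      Fintype.sum_prod_type, Fintype.sum_bool]
    simp only [allS, List.countP_append, List.countP_map]
    rw [ih, ih, Finset.card_filter, Finset.card_filter, add_comm]
    rfl

theorem t_ALS : S_ALS := by
  refine ⟨ALS_len, ALS_mem, fun d p => ?_⟩
  unfold H547R7.cp pr
  rw [ALS_count, ALS_len]
  simp

end Pool.Agent.H670LG
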