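import Pool.Agent.H670LG.Stm3

/-!
# Assembly
-/

set_option autoImplicit false

namespace Pool.Agent.H547R7

open Pool.Agent.H547R6 Pool.Agent.NPC Pool.Agent.H424R2.PPAD

theorem LogGen.mono {T : ∀ m : ℕ, Set (BF m)} {ε ε' : ℝ} (h : ε ≤ ε')
    (hG : LogGen T (fun _ => ε)) : LogGen T (fun _ => ε') := by
  obtain ⟨d, G, hd, hG, c, m₀, hm⟩ := hG
  refine ⟨d, G, hd, hG, c, m₀, fun m hm' => ?_⟩
  obtain ⟨h1, h2, h3, h4⟩ := hm m hm'
  exact ⟨h1, h2, h3, fun C hC => (h4 C hC).trans h⟩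

/-- the advantage can be made as small as we like -/
theorem amplify (hL2 : S_L2) {κ ε : ℝ} (hκ : κ < 1 / 2) (hε : 0 < ε)
    (h : LogGen (T0 1) (fun _ => κ)) : LogGen (T0 1) (fun _ => ε) := by
  set κ0 : ℝ := max κ (min ε (1 / 4)) with hκ0
  have hmin : 0 < min ε (1 / 4) := lt_min hε (by norm_num)
  have h0 : κ0 < 1 / 2 := max_lt hκ ((min_le_right _ _).trans_lt (by norm_num))
  set μ : ℝ := min ε (1 / 4) with hμ
  have hμκ : μ ≤ κ0 := le_max_right _ _
  set η : ℝ := μ * (1 - 2 * κ0) / 2 with hη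
  have hη0 : 0 < η := by
    rw [hη]
    have : 0 < 1 - 2 * κ0 := by linarith
    positivity
  have key : ∀ n : ℕ, LogGen (T0 1) (fun _ => max (κ0 - n * η) μ) := by
    intro n
    induction n with
    | zero =>
      have : κ ≤ max (κ0 - ((0 : ℕ) : ℝ) * η) μ := by
        simp only [Nat.cast_zero, zero_mul, sub_zero]
        exact (le_max_left _ _).trans (le_max_left _ _)
      exact h.mono this
    | succ n ih =>
      set x : ℝ := max (κ0 - n * η) μ with hx
      have hxμ : μ ≤ x := le_max_right _ _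
      have hx0 : 0 < x := hmin.trans_le hxμ
      have hxκ : x ≤ κ0 := max_le (by
        have : (0 : ℝ) ≤ n * η := by positivity
        linarith) hμκ
      have hstep : LogGen (T0 1) (fun _ => 2 * x ^ 2 + 4 * (η / 4)) := by
        refine hL2 x (η / 4) hx0.le (by linarith) (by linarith) ?_ ih
        have : η ≤ 1 := by
          rw [hη]
          have h4 : μ ≤ 1 / 4 := min_le_right _ _
          have h5 : 0 < κ0 := hmin.trans_le hμκ
          nlinarith
        linarith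
      refine hstep.mono ?_
      have h1 : 2 * η ≤ x * (1 - 2 * x) := by
        rw [hη]
        have : 1 - 2 * κ0 ≤ 1 - 2 * x := by linarith
        have h3 : 0 ≤ 1 - 2 * κ0 := by linarith
        nlinarith
      have h2 : 2 * x ^ 2 + 4 * (η / 4) ≤ x - η := by nlinarith
      refine h2.trans ?_
      push_cast
      rcases le_total (κ0 - n * η) μ with h3 | h3
      · have : x = μ := by rw [hx]; exact max_eq_right h3
        exact (by linarith : x - η ≤ μ).trans (le_max_right _ _)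
      · have : x = κ0 - n * η := by rw [hx]; exact max_eq_left h3
        exact (by linarith : x - η ≤ κ0 - (n + 1) * η).trans (le_max_left _ _)
  obtain ⟨n, hn⟩ := exists_nat_gt ((κ0 - μ) / η)
  have : max (κ0 - n * η) μ = μ := by
    refine max_eq_right ?_
    rw [div_lt_iff₀ hη0] at hn
    linarith
  have h1 := key n
  rw [this] at h1
  exact h1.mono (min_le_left _ _)

theorem dual_op3 {B : Set BFun} (h : Op3 B (fun a b c => a || (b && c))) :
    Op3 (dualB B) (fun a b c => a && (b || c)) := by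
  have := Gen.dual h
  refine Gen.congr this fun x => ?_
  simp

theorem main_of (hEAS : S_EAS) (hL1A : S_L1A) (hL2 : S_L2) (hL3 : S_L3) (hDUA : S_DUA) : Main := by
  refine ⟨hEAS, fun B hB hne ε hε hε6 => ⟨fun h => ?_, fun h => ?_⟩⟩
  · simp only [Easy, not_or] at hne
    rcases t_CLO B hne.1 hne.2.1 hne.2.2.1 hne.2.2.2 with h1 | h1
    · obtain ⟨κ, hκ, hG⟩ := hL1A B h1 ε hε.le hε6 h
      exact amplify hL2 hκ (by norm_num) hG
    · obtain ⟨κ, hκ, hG⟩ := hL1A (dualB B) (dual_op3 h1) ε hε.le hε6 (hDUA B ε h)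
      exact amplify hL2 hκ (by norm_num) hG
  · exact hL3 B ε hB (amplify hL2 (by norm_num) hε h)

theorem cor_of (h1 : S_CO1) (h2 : S_CO2) : S_COR := by
  intro e n ys ε C he hn hys hlen hε hlow hhi0 hhi
  obtain ⟨a1, a2, a3⟩ := h1 e n C he hn
  have he' : (8 : ℝ) ≤ e := by exact_mod_cast he
  obtain ⟨θ, hθ1, hθ2⟩ : ∃ θ : ℕ, (e : ℝ) ^ 3 * (n + 1) * n + 2 * e ^ 3 * (n + 1) * pr C +
      2 * e ^ 2 * (n + 1) ≤ θ ∧ (θ : ℝ) ≤ (e : ℝ) ^ 3 * (n + 1) * n + 2 * e ^ 3 * (n + 1) * pr C +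
      2 * e ^ 2 * (n + 1) + 1 := by
    refine ⟨⌈(e : ℝ) ^ 3 * (n + 1) * n + 2 * e ^ 3 * (n + 1) * pr C + 2 * e ^ 2 * (n + 1)⌉₊,
      Nat.le_ceil _, (Nat.ceil_lt_add_one ?_).le⟩
    have : 0 ≤ pr C := by unfold pr; positivity
    positivity
  have b3 := a3 θ hθ1
  have g1 := abs_le.1 hlow
  have g2 := abs_le.1 hhi0
  have g3 := abs_le.1 (hhi θ)
  have k1 : 1 / (4 * (e : ℝ)) = 2 * (1 / (8 * e)) := by field_simp; norm_num
  have k2 : (0 : ℝ) < 1 / (8 * e) := by positivity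
  refine ⟨?_, ?_⟩
  · exact (h2 e n ys C (ε + 1 / (8 * e)) (1 / 2 - ε - 1 / (8 * e)) θ he hn hys hlen hθ2
      (by linarith) (by linarith) (by linarith) (by linarith)).1
  · exact (h2 e n ys C (ε + 1 / (8 * e)) (1 / 2 - ε - 1 / (8 * e)) θ he hn hys hlen hθ2
      (by linarith) (by linarith) (by linarith) (by linarith)).2

end Pool.Agent.H547R7
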