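import Pool.Agent.H547R7.Stm2

/-!
# Statements of the tasks, third part (finer pieces of tasks of `Pool.Agent.H547R7`)
-/

set_option autoImplicit false

namespace Pool.Agent.H547R7

open Pool.Agent.H547R6 Pool.Agent.NPC Pool.Agent.H424R2.PPAD

/-- circuits over an easy gate set compute functions with the same closure property -/
def S_FO1 : Prop := ∀ (B : Set BFun) (n s : ℕ) (C : BF n), Computes B n s C →
  (B ⊆ Aff → ∀ x y z, C (fun i => xor (x i) (xor (y i) (z i))) = xor (C x) (xor (C y) (C z))) ∧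
  (B ⊆ Conj → ∀ x y, C (fun i => x i && y i) = (C x && C y)) ∧
  (B ⊆ Disj → ∀ x y, C (fun i => x i || y i) = (C x || C y)) ∧
  (B ⊆ SelfDual → ∀ x, C (fun i => !x i) = !C x)

/-- affine functions are parities, functions that commute with conjunction are conjunctions or the
constant zero, functions that commute with disjunction are disjunctions or the constant one -/
def S_FO2 : Prop := ∀ (n : ℕ) (C : BF n),
  ((∀ x y z, C (fun i => xor (x i) (xor (y i) (z i))) = xor (C x) (xor (C y) (C z))) →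
    ∃ (T : Finset (Fin n)) (b : Bool), ∀ x, C x =
      xor b (decide ((T.filter fun i => x i = true).card % 2 = 1))) ∧
  ((∀ x y, C (fun i => x i && y i) = (C x && C y)) → (∀ x, C x = false) ∨
    ∃ T : Finset (Fin n), ∀ x, C x = decide (∀ i ∈ T, x i = true)) ∧
  ((∀ x y, C (fun i => x i || y i) = (C x || C y)) → (∀ x, C x = true) ∨
    ∃ T : Finset (Fin n), ∀ x, C x = decide (∃ i ∈ T, x i = true))

/-- a finite field of characteristic two which is generated additively by the powers of a root of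
unity of order dividing `3^(l+1)` -/
def S_AL1 : Prop := ∀ l : ℕ, ∃ (L : Type) (_ : Field L) (_ : Fintype L) (_ : CharP L 2) (z : L),
  z ^ (3 ^ (l + 1)) = 1 ∧ 2 ^ (2 * 3 ^ l) ≤ Fintype.card L ∧
  ∀ y : L, ∃ a : ℕ → Bool, y = ∑ j ∈ Finset.range (3 ^ (l + 1)), if a j = true then z ^ j else 0

/-- the bits of the explicit generator are computed in polynomial time -/
def S_SBP : Prop :=
  PTime (fun p : List Bool × List Bool × List Bool => sbit p.1.length p.2.1 p.2.2.length)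

/-- shifts of a function -/
def S_SHI : Prop := ∀ (n q : ℕ) (C : BF n) (y : Fin n → Bool), Comp0 n q C →
  Comp0 n q (fun x => C (vx x y)) ∧ Comp0 n q (fun x => C (vx y x))

/-- thresholds of the number of shifts of `C` -/
def S_THC : Prop := ∀ (n q T θ : ℕ) (C : BF n) (ys : Fin T → Fin n → Bool), 1 ≤ n →
  Comp0 n q C → Comp0 n (T * q + 2 * T * (T + 1) + 1) (fun y =>
    decide (θ ≤ (Finset.univ.filter fun i => C (vx (ys i) y) = true).card))

/-- the probabilities of the tests for uniform points -/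
def S_CO1 : Prop := ∀ (e n : ℕ) (C : BF n), 8 ≤ e → 1 ≤ n →
  1 - 1 / (4 * (e : ℝ)) ≤ pr (tLow e n) ∧ pr (tHi0 e n) ≤ 1 / (8 * (e : ℝ)) ∧
  ∀ θ : ℕ, (e : ℝ) ^ 3 * (n + 1) * n + 2 * e ^ 3 * (n + 1) * pr C + 2 * e ^ 2 * (n + 1) ≤ θ →
    pr (tHi e n C θ) ≤ 1 / (4 * (e : ℝ))

/-- the counting part of the core of the argument -/
def S_CO2 : Prop := ∀ (e n : ℕ) (ys : List (List Bool)) (C : BF n) (β γ : ℝ) (θ : ℕ), 8 ≤ e →
  1 ≤ n → ys ≠ [] → (∀ y ∈ ys, 1 + rr e n * n ≤ y.length) →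
  (θ : ℝ) ≤ (e : ℝ) ^ 3 * (n + 1) * n + 2 * e ^ 3 * (n + 1) * pr C + 2 * e ^ 2 * (n + 1) + 1 →
  cp ys (fun y => y.getD 0 false && tHi e n C θ (vecD e n y)) ≤ β →
  γ ≤ cp ys (fun y => y.getD 0 false && tLow e n (vecD e n y)) →
  cp ys (fun y => y.getD 0 false && tHi0 e n (vecD e n y)) < γ → β ≤ γ →
  dL e n ys ≠ [] ∧ cp (dL e n ys) (fun x => C (vec n x)) ≤ pr C + 5 / ((e : ℝ) - 2) + β / γ

/-! ### the planned theorem -/

/-- the four easy classes of gate sets -/
def Easy (B : Set BFun) : Prop := B ⊆ Aff ∨ B ⊆ Conj ∨ B ⊆ Disj ∨ B ⊆ SelfDual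

/-- **Gate sets and logarithmic-seed generators.** -/
def Main : Prop :=
  LogGen (fun m => {C | ∃ (B : Set BFun) (s : ℕ), Easy B ∧ Computes B m s C}) (fun m => 1 / m) ∧
  ∀ B : Set BFun, B.Finite → ¬ Easy B → ∀ ε : ℝ, 0 < ε → ε < 1 / 6 →
    (LogGen (TB B) (fun _ => ε) ↔ LogGen (T0 1) (fun _ => 1 / 8))

end Pool.Agent.H547R7
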