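import Pool.Agent.H670LG.Stm3

/-!
# Task AL1 (helper455): a finite field of characteristic two generated additively by the powers
of a root of unity of order `3 ^ (l + 1)`.
-/

set_option autoImplicit false

namespace Pool.Agent.H547R7

theorem AL1_nt (l d : ℕ) (hd : 0 < d) (h : 3 ^ (l + 1) ∣ 2 ^ d - 1) : 2 * 3 ^ l ≤ d := by
  have : Fact (Nat.Prime 3) := ⟨Nat.prime_three⟩
  have h3 : 3 ∣ 2 ^ d - 1 := dvd_trans (dvd_pow_self 3 (Nat.succ_ne_zero l)) h
  have hev : Even d := by
    by_contra hodd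
    rw [Nat.not_even_iff_odd] at hodd
    obtain ⟨k, rfl⟩ := hodd
    have h4 : 2 ^ (2 * k + 1) % 3 = 2 := by
      rw [pow_succ, pow_mul, Nat.mul_mod, Nat.pow_mod]
      norm_num
    have h5 : 1 ≤ 2 ^ (2 * k + 1) := Nat.one_le_two_pow
    clear h
    generalize 2 ^ (2 * k + 1) = N at *
    omega
  obtain ⟨e, rfl⟩ := hev
  have he : e ≠ 0 := by omega
  have h4 : 2 ^ (e + e) = 4 ^ e := by
    rw [← two_mul, pow_mul]; norm_num
  rw [h4] at h
  have hv := padicValNat.pow_sub_pow (p := 3) (x := 4) (y := 1) (by norm_num) (by norm_num)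
    (by norm_num) (by norm_num) he
  rw [one_pow] at hv
  have hne : 4 ^ e - 1 ≠ 0 := by
    have : 4 ^ 1 ≤ 4 ^ e := Nat.pow_le_pow_right (by norm_num) (by omega)
    omega
  have hle : l + 1 ≤ padicValNat 3 (4 ^ e - 1) := (padicValNat_dvd_iff_le hne).1 h
  have h31 : padicValNat 3 (4 - 1) = 1 := by norm_num
  rw [hv, h31] at hle
  have hl : l ≤ padicValNat 3 e := by omega
  have hdv : 3 ^ l ∣ e := (padicValNat_dvd_iff_le he).2 hl
  have := Nat.le_of_dvd (by omega) hdv
  omega

theorem AL1_z2 : ∀ c : ZMod 2, c = 0 ∨ c = 1 := by decide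

theorem AL1_core (l : ℕ) : ∃ (L : Type) (_ : Field L) (_ : Fintype L) (_ : CharP L 2) (z : L),
  z ^ (3 ^ (l + 1)) = 1 ∧ 2 ^ (2 * 3 ^ l) ≤ Fintype.card L ∧
  ∀ y : L, ∃ a : ℕ → Bool, y = ∑ j ∈ Finset.range (3 ^ (l + 1)), if a j = true then z ^ j else 0 := by
  classical
  set n : ℕ := 3 ^ (l + 1) with hn
  have hn0 : 0 < n := by positivity
  have : Fact (Nat.Prime 2) := ⟨Nat.prime_two⟩
  have : NeZero n := ⟨hn0.ne'⟩
  have : NeZero ((n : ℕ) : ZMod 2) := by
    refine ⟨?_⟩
    rw [Ne, ZMod.natCast_eq_zero_iff]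
    intro h2
    have := Nat.Prime.dvd_of_dvd_pow Nat.prime_two h2
    omega
  let L := CyclotomicField n (ZMod 2)
  have : IsCyclotomicExtension {n} (ZMod 2) L := CyclotomicField.isCyclotomicExtension n (ZMod 2)
  have : FiniteDimensional (ZMod 2) L := IsCyclotomicExtension.finiteDimensional {n} (ZMod 2) L
  have : Finite L := Module.finite_of_finite (ZMod 2)
  let : Fintype L := Fintype.ofFinite L
  have : CharP L 2 := charP_of_injective_algebraMap (algebraMap (ZMod 2) L).injective 2
  let z : L := IsCyclotomicExtension.zeta n (ZMod 2) L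
  have hz : IsPrimitiveRoot z n := IsCyclotomicExtension.zeta_spec n (ZMod 2) L
  refine ⟨L, inferInstance, inferInstance, inferInstance, z, hz.pow_eq_one, ?_, ?_⟩
  · obtain ⟨d, hp, hc⟩ := FiniteField.card L 2
    have hz0 : z ≠ 0 := hz.ne_zero hn0.ne'
    have hdv : n ∣ Fintype.card L - 1 := by
      have h1 : z ^ (Fintype.card L - 1) = 1 := FiniteField.pow_card_sub_one_eq_one z hz0
      exact hz.dvd_of_pow_eq_one _ h1
    rw [hc] at hdv
    have := AL1_nt l d d.pos hdv
    rw [hc]
    exact Nat.pow_le_pow_right (by norm_num) this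
  · intro y
    have htop : Algebra.adjoin (ZMod 2) {z} = ⊤ :=
      IsCyclotomicExtension.adjoin_primitive_root_eq_top hz
    have hy : y ∈ Algebra.adjoin (ZMod 2) {z} := by rw [htop]; trivial
    rw [Algebra.adjoin_singleton_eq_range_aeval] at hy
    obtain ⟨p, rfl⟩ := hy
    set M : Polynomial (ZMod 2) := Polynomial.X ^ n - 1 with hM
    have hMm : M.Monic := Polynomial.monic_X_pow_sub_C 1 hn0.ne'
    set q := p %ₘ M with hq
    have hMz : Polynomial.aeval z M = 0 := by simp [hM, hz.pow_eq_one]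
    have hpq : Polynomial.aeval z p = Polynomial.aeval z q := by
      conv_lhs => rw [← Polynomial.modByMonic_add_div p M]
      simp [hMz, hq]
    have hdeg : q.natDegree < n := by
      have h1 := Polynomial.natDegree_modByMonic_lt p hMm (by
        intro h1
        have : M.natDegree = n := Polynomial.natDegree_X_pow_sub_C
        rw [h1] at this
        simp at this
        omega)
      have h2 : M.natDegree = n := Polynomial.natDegree_X_pow_sub_C
      rw [h2] at h1
      exact h1
    refine ⟨fun j => decide (q.coeff j ≠ 0), ?_⟩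
    change Polynomial.aeval z p = _
    rw [hpq, Polynomial.aeval_eq_sum_range' hdeg]
    refine Finset.sum_congr rfl fun j _ => ?_
    rcases AL1_z2 (q.coeff j) with h0 | h0
    · simp [h0]
    · simp [h0]

theorem t_AL1 : S_AL1 := fun l => AL1_core l

end Pool.Agent.H547R7
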