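import Pool.Agent.H670LG.Stm3

/-!
# Task ALG: the small-bias generator from the group ring of the cyclic group of order `3^(l+1)`
(helper871)
-/

set_option autoImplicit false

namespace Pool.Agent.H547R7

namespace ALG

open Finset Polynomial

/-- indicator of a Boolean in a ring -/
def io (R : Type) [CommRing R] (b : Bool) : R := if b = true then 1 else 0

variable {R : Type} [CommRing R]

theorem io_true : io R true = 1 := rfl
theorem io_false : io R false = 0 := rfl

theorem io_and (a b : Bool) : io R (a && b) = io R a * io R b := by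
  cases a <;> cases b <;> simp [io]

theorem io_xor [CharP R 2] (a b : Bool) : io R (xor a b) = io R a + io R b := by
  cases a <;> cases b <;> simp [io, CharTwo.add_self_eq_zero]

theorem par_succ (n : ℕ) (f : ℕ → Bool) : par (n + 1) f = xor (par n f) (f n) := by
  unfold par
  rw [List.range_succ, List.countP_append, List.countP_singleton]
  cases h : f n
  · simp
  · simp only [if_true, Bool.xor_true]
    by_cases h2 : List.countP f (List.range n) % 2 = 1
    · have h3 : ¬ ((List.countP f (List.range n) + 1) % 2 = 1) := by omega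
      rw [decide_eq_false h3, decide_eq_true h2]; rfl
    · have h3 : ((List.countP f (List.range n) + 1) % 2 = 1) := by omega
      rw [decide_eq_true h3, decide_eq_false h2]; rfl

theorem par_zero (f : ℕ → Bool) : par 0 f = false := by
  unfold par; simp

theorem io_par [CharP R 2] (n : ℕ) (f : ℕ → Bool) :
    io R (par n f) = ∑ i ∈ range n, io R (f i) := by
  induction n with
  | zero => rw [par_zero, io_false, sum_range_zero]
  | succ n ih => rw [par_succ, io_xor, ih, sum_range_succ]

theorem io_card [CharP R 2] (T : Finset ℕ) (p : ℕ → Bool) :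
    io R (decide ((T.filter fun i => p i = true).card % 2 = 1)) = ∑ i ∈ T, io R (p i) := by
  classical
  induction T using Finset.induction_on with
  | empty => simp [io]
  | insert a s ha ih =>
    rw [sum_insert ha, ← ih, filter_insert]
    by_cases h : p a = true
    · rw [if_pos h, card_insert_of_notMem (by simp [ha]), h, ← io_xor]
      congr 1
      by_cases h2 : (s.filter fun i => p i = true).card % 2 = 1
      · have h3 : ¬ (((s.filter fun i => p i = true).card + 1) % 2 = 1) := by omega
        rw [decide_eq_false h3, decide_eq_true h2]; rfl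
      · have h3 : (((s.filter fun i => p i = true).card + 1) % 2 = 1) := by omega
        rw [decide_eq_true h3, decide_eq_false h2]; rfl
    · have h' : p a = false := by simpa using h
      rw [if_neg h, h', io_false, zero_add]

theorem conv_getD (n : ℕ) (a b : List Bool) {k : ℕ} (hk : k < n) :
    (conv n a b).getD k false =
      par n fun i => a.getD i false && b.getD ((k + n - i) % n) false := by
  unfold conv
  rw [List.getD_eq_getElem?_getD, List.getElem?_map, List.getElem?_range hk]
  rfl

theorem par_congr {n : ℕ} {f g : ℕ → Bool} (h : ∀ i < n, f i = g i) : par n f = par n g := by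
  induction n with
  | zero => rw [par_zero, par_zero]
  | succ n ih => rw [par_succ, par_succ, ih fun i hi => h i (by omega), h n (by omega)]

theorem conv_congr {n : ℕ} {a a' b : List Bool} (h : ∀ i < n, a.getD i false = a'.getD i false) :
    conv n a b = conv n a' b := by
  unfold conv
  refine List.map_congr_left fun k _ => ?_
  exact par_congr fun i hi => by rw [h i hi]

theorem pw_congr {n : ℕ} {a a' : List Bool} (h : ∀ i < n, a.getD i false = a'.getD i false)
    (i : ℕ) : pw n a i = pw n a' i := by
  induction i with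
  | zero => rfl
  | succ i ih =>
    show conv n a (pw n a i) = conv n a' (pw n a' i)
    rw [ih, conv_congr h]

theorem pow_mod_aux {n : ℕ} {z : R} (hz : z ^ n = 1) (m : ℕ) : z ^ (m % n) = z ^ m := by
  conv_rhs => rw [← Nat.div_add_mod m n]
  rw [pow_add, pow_mul, hz, one_pow, one_mul]

/-- evaluation of a bit list at `z` -/
def phi (n : ℕ) (z : R) (a : List Bool) : R := ∑ j ∈ range n, io R (a.getD j false) * z ^ j

theorem phi_conv [CharP R 2] {n : ℕ} (hn : 0 < n) {z : R} (hz : z ^ n = 1) (a b : List Bool) :
    phi n z (conv n a b) = phi n z a * phi n z b := by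
  unfold phi
  rw [sum_mul_sum]
  have h1 : ∀ k ∈ range n, io R ((conv n a b).getD k false) * z ^ k =
      ∑ i ∈ range n, io R (a.getD i false) * (io R (b.getD ((k + n - i) % n) false) * z ^ k) := by
    intro k hk
    rw [conv_getD n a b (mem_range.1 hk), io_par, sum_mul]
    refine sum_congr rfl fun i _ => ?_
    rw [io_and]; ring
  rw [sum_congr rfl h1, sum_comm]
  refine sum_congr rfl fun i hi => ?_
  have hi' := mem_range.1 hi
  have h2 : ∑ k ∈ range n, io R (a.getD i false) * (io R (b.getD ((k + n - i) % n) false) * z ^ k) =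
      ∑ j ∈ range n, io R (a.getD i false) * (io R (b.getD j false) * z ^ (i + j)) := by
    refine sum_nbij' (fun k => (k + n - i) % n) (fun j => (i + j) % n) ?_ ?_ ?_ ?_ ?_
    · intro k _
      exact mem_range.2 (Nat.mod_lt _ hn)
    · intro j _
      exact mem_range.2 (Nat.mod_lt _ hn)
    · intro k hk
      have hk' := mem_range.1 hk
      show (i + (k + n - i) % n) % n = k
      rw [Nat.add_mod_mod]
      have : i + (k + n - i) = k + n := by omega
      rw [this, Nat.add_mod_right, Nat.mod_eq_of_lt hk']
    · intro j hj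
      have hj' := mem_range.1 hj
      show ((i + j) % n + n - i) % n = j
      by_cases h : i + j < n
      · rw [Nat.mod_eq_of_lt h]
        have : i + j + n - i = j + n := by omega
        rw [this, Nat.add_mod_right, Nat.mod_eq_of_lt hj']
      · have h3 : (i + j) % n = i + j - n := by
          rw [Nat.mod_eq_sub_mod (by omega), Nat.mod_eq_of_lt (by omega)]
        rw [h3]
        have : i + j - n + n - i = j := by omega
        rw [this, Nat.mod_eq_of_lt hj']
    · intro k hk
      have hk' := mem_range.1 hk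
      show _ = io R (a.getD i false) * (io R (b.getD ((k + n - i) % n) false) *
        z ^ (i + (k + n - i) % n))
      congr 2
      have e1 : (i + (k + n - i) % n) % n = k := by
        rw [Nat.add_mod_mod]
        have : i + (k + n - i) = k + n := by omega
        rw [this, Nat.add_mod_right, Nat.mod_eq_of_lt hk']
      conv_lhs => rw [← e1]
      exact pow_mod_aux hz _
  rw [h2]
  refine sum_congr rfl fun j _ => ?_
  rw [pow_add]; ring

theorem phi_one [CharP R 2] {n : ℕ} (hn : 0 < n) (z : R) :
    phi n z ((List.range n).map fun k => decide (k = 0)) = 1 := by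
  unfold phi
  have h : ∀ j ∈ range n, io R (((List.range n).map fun k => decide (k = 0)).getD j false) * z ^ j =
      if j = 0 then 1 else 0 := by
    intro j hj
    rw [List.getD_eq_getElem?_getD, List.getElem?_map, List.getElem?_range (mem_range.1 hj)]
    by_cases h : j = 0
    · subst h; simp [io]
    · simp [io, h]
  rw [sum_congr rfl h, sum_ite_eq' (range n) 0]
  simp [hn]

theorem phi_pw [CharP R 2] {n : ℕ} (hn : 0 < n) {z : R} (hz : z ^ n = 1) (a : List Bool) (i : ℕ) :
    phi n z (pw n a i) = phi n z a ^ i := by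
  induction i with
  | zero => rw [pow_zero]; exact phi_one hn z
  | succ i ih =>
    show phi n z (conv n a (pw n a i)) = _
    rw [phi_conv hn hz, ih, pow_succ]; ring

/-- the vectors of length `2n` as lists -/
theorem getD_ofFn {N : ℕ} (w : Fin N → Bool) (k : ℕ) :
    (List.ofFn w).getD k false = if h : k < N then w ⟨k, h⟩ else false := by
  rw [List.getD_eq_getElem?_getD, List.getElem?_ofFn]
  split_ifs with h
  · simp
  · simp

/-- the sum of the chosen powers, coordinate `j` -/
def UU (n : ℕ) (T : Finset ℕ) (w : Fin (2 * n) → Bool) (j : ℕ) : ZMod 2 :=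
  ∑ i ∈ T, io (ZMod 2) ((pw n (List.ofFn w) i).getD j false)

theorem UU_congr {n : ℕ} (T : Finset ℕ) {w w' : Fin (2 * n) → Bool}
    (h : ∀ (k : ℕ) (hk : k < 2 * n), k < n → w ⟨k, hk⟩ = w' ⟨k, hk⟩) (j : ℕ) :
    UU n T w j = UU n T w' j := by
  unfold UU
  refine sum_congr rfl fun i _ => ?_
  rw [pw_congr (a := List.ofFn w) (a' := List.ofFn w') (fun k hk => ?_) i]
  rw [getD_ofFn, getD_ofFn, dif_pos (by omega), dif_pos (by omega)]
  exact h k _ hk

theorem odd_eq (n : ℕ) (T : Finset ℕ) (w : Fin (2 * n) → Bool) :
    io (ZMod 2) (decide ((T.filter fun i => sbit n (List.ofFn w) i = true).card % 2 = 1)) =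
      ∑ j ∈ range n, io (ZMod 2) ((List.ofFn w).getD (n + j) false) * UU n T w j := by
  rw [io_card]
  have h : ∀ i ∈ T, io (ZMod 2) (sbit n (List.ofFn w) i) =
      ∑ j ∈ range n, io (ZMod 2) ((List.ofFn w).getD (n + j) false) *
        io (ZMod 2) ((pw n (List.ofFn w) i).getD j false) := by
    intro i _
    unfold sbit
    rw [io_par]
    exact sum_congr rfl fun j _ => io_and _ _
  rw [sum_congr rfl h, sum_comm]
  refine sum_congr rfl fun j _ => ?_
  unfold UU
  rw [mul_sum]

theorem io_inj {b : Bool} : io (ZMod 2) b = 1 ↔ b = true := by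
  cases b
  · simp [io]
  · simp [io]

theorem zmod2_cases (x : ZMod 2) : x = 0 ∨ x = 1 := by
  revert x; decide

/-- flipping one bit of the second half -/
def flip1 {n : ℕ} (w : Fin (2 * n) → Bool) (j : ℕ) (hj : j < n) : Fin (2 * n) → Bool :=
  Function.update w ⟨n + j, by omega⟩ (!w ⟨n + j, by omega⟩)

theorem flip1_low {n : ℕ} (w : Fin (2 * n) → Bool) (j : ℕ) (hj : j < n) (k : ℕ) (hk : k < 2 * n)
    (hkn : k < n) : flip1 w j hj ⟨k, hk⟩ = w ⟨k, hk⟩ := by
  unfold flip1
  rw [Function.update_of_ne]
  intro h
  have := Fin.mk.inj h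
  omega

theorem flip1_flip1 {n : ℕ} (w : Fin (2 * n) → Bool) (j : ℕ) (hj : j < n) :
    flip1 (flip1 w j hj) j hj = w := by
  unfold flip1
  funext i
  by_cases h : i = ⟨n + j, by omega⟩
  · subst h; simp
  · rw [Function.update_of_ne h, Function.update_of_ne h]

theorem flip1_sum {n : ℕ} (T : Finset ℕ) (w : Fin (2 * n) → Bool) (j : ℕ) (hj : j < n)
    (hU : UU n T w j ≠ 0) :
    ∑ k ∈ range n, io (ZMod 2) ((List.ofFn (flip1 w j hj)).getD (n + k) false) *
        UU n T (flip1 w j hj) k =
      ∑ k ∈ range n, io (ZMod 2) ((List.ofFn w).getD (n + k) false) * UU n T w k + 1 := by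
  have hUU : ∀ k, UU n T (flip1 w j hj) k = UU n T w k :=
    fun k => UU_congr T (fun k' hk' hk'n => flip1_low w j hj k' hk' hk'n) k
  have hj1 : UU n T w j = 1 := (zmod2_cases _).resolve_left hU
  rw [← add_sum_erase _ _ (mem_range.2 hj), ← add_sum_erase (range n) (fun k =>
    io (ZMod 2) ((List.ofFn w).getD (n + k) false) * UU n T w k) (mem_range.2 hj)]
  have h1 : ∑ k ∈ (range n).erase j, io (ZMod 2) ((List.ofFn (flip1 w j hj)).getD (n + k) false) *
        UU n T (flip1 w j hj) k =
      ∑ k ∈ (range n).erase j, io (ZMod 2) ((List.ofFn w).getD (n + k) false) * UU n T w k := by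
    refine sum_congr rfl fun k hk => ?_
    rw [mem_erase, mem_range] at hk
    rw [hUU, getD_ofFn, getD_ofFn, dif_pos (by omega), dif_pos (by omega)]
    congr 2
    unfold flip1
    rw [Function.update_of_ne]
    intro h
    have := Fin.mk.inj h
    exact hk.1 (by omega)
  rw [h1, hUU, hj1, getD_ofFn, getD_ofFn, dif_pos (by omega), dif_pos (by omega)]
  have h2 : io (ZMod 2) (flip1 w j hj ⟨n + j, by omega⟩) = io (ZMod 2) (w ⟨n + j, by omega⟩) + 1 := by
    unfold flip1
    rw [Function.update_self]
    cases w ⟨n + j, _⟩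
    · simp [io]
    · simp [io]; decide
  rw [h2]; ring

/-- the total parity -/
def QQ (n : ℕ) (T : Finset ℕ) (w : Fin (2 * n) → Bool) : ZMod 2 :=
  ∑ k ∈ range n, io (ZMod 2) ((List.ofFn w).getD (n + k) false) * UU n T w k

open Classical in
theorem half (n : ℕ) (T : Finset ℕ) :
    2 * (univ.filter fun w : Fin (2 * n) → Bool => QQ n T w = 1).card +
      (univ.filter fun w : Fin (2 * n) → Bool => ∀ j < n, UU n T w j = 0).card = 2 ^ (2 * n) := by
  set S := univ.filter fun w : Fin (2 * n) → Bool => ∃ j, j < n ∧ UU n T w j ≠ 0 with hS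
  have hcard : (univ : Finset (Fin (2 * n) → Bool)).card = 2 ^ (2 * n) := by
    rw [card_univ, Fintype.card_fun, Fintype.card_bool, Fintype.card_fin]
  have h1 : (univ.filter fun w : Fin (2 * n) → Bool => ∀ j < n, UU n T w j = 0).card + S.card =
      2 ^ (2 * n) := by
    rw [← hcard, ← card_filter_add_card_filter_not (s := (univ : Finset (Fin (2 * n) → Bool)))
      (fun w => ∀ j < n, UU n T w j = 0)]
    congr 2
    ext w
    simp [hS]
  -- the involution
  let F : (Fin (2 * n) → Bool) → (Fin (2 * n) → Bool) := fun w =>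
    if h : ∃ j, j < n ∧ UU n T w j ≠ 0 then flip1 w (Nat.find h) (Nat.find_spec h).1 else w
  have hF : ∀ (w : Fin (2 * n) → Bool) (h : ∃ j, j < n ∧ UU n T w j ≠ 0),
      F w = flip1 w (Nat.find h) (Nat.find_spec h).1 := fun w h => dif_pos h
  have hUF : ∀ (w : Fin (2 * n) → Bool), (∃ j, j < n ∧ UU n T w j ≠ 0) → ∀ k,
      UU n T (F w) k = UU n T w k := by
    intro w h k
    rw [hF w h]
    exact UU_congr T (fun k' hk' hk'n => flip1_low w _ _ k' hk' hk'n) k
  have hFS : ∀ w, (∃ j, j < n ∧ UU n T w j ≠ 0) → ∃ j, j < n ∧ UU n T (F w) j ≠ 0 := by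
    intro w h
    obtain ⟨j, hj, hj'⟩ := h
    exact ⟨j, hj, by rw [hUF w ⟨j, hj, hj'⟩]; exact hj'⟩
  have hFF : ∀ w, (∃ j, j < n ∧ UU n T w j ≠ 0) → F (F w) = w := by
    intro w h
    have h' := hFS w h
    have he : Nat.find h' = Nat.find h := by
      apply le_antisymm
      · apply Nat.find_min' h'
        refine ⟨(Nat.find_spec h).1, ?_⟩
        rw [hUF w h]
        exact (Nat.find_spec h).2
      · apply Nat.find_min' h
        refine ⟨(Nat.find_spec h').1, ?_⟩
        rw [← hUF w h]
        exact (Nat.find_spec h').2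
    rw [hF (F w) h']
    have : ∀ (j : ℕ) (hj : j < n), j = Nat.find h → flip1 (F w) j hj = w := by
      rintro j hj rfl
      rw [hF w h]
      exact flip1_flip1 w _ _
    exact this _ _ he
  have hQF : ∀ w, (∃ j, j < n ∧ UU n T w j ≠ 0) → QQ n T (F w) = QQ n T w + 1 := by
    intro w h
    rw [hF w h]
    exact flip1_sum T w _ _ (Nat.find_spec h).2
  have h2 : (S.filter fun w => QQ n T w = 1).card = (S.filter fun w => ¬ QQ n T w = 1).card := by
    refine card_nbij' F F ?_ ?_ ?_ ?_
    · intro w hw
      rw [mem_coe, mem_filter, hS, mem_filter] at hw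
      rw [mem_coe, mem_filter, hS, mem_filter]
      refine ⟨⟨mem_univ _, hFS w hw.1.2⟩, ?_⟩
      rw [hQF w hw.1.2, hw.2]; decide
    · intro w hw
      rw [mem_coe, mem_filter, hS, mem_filter] at hw
      rw [mem_coe, mem_filter, hS, mem_filter]
      refine ⟨⟨mem_univ _, hFS w hw.1.2⟩, ?_⟩
      rw [hQF w hw.1.2, (zmod2_cases (QQ n T w)).resolve_right hw.2, zero_add]
    · intro w hw
      rw [mem_coe, mem_filter, hS, mem_filter] at hw
      exact hFF w hw.1.2
    · intro w hw
      rw [mem_coe, mem_filter, hS, mem_filter] at hw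
      exact hFF w hw.1.2
  have h3 := card_filter_add_card_filter_not (s := S) (fun w => QQ n T w = 1)
  have h4 : (S.filter fun w => QQ n T w = 1) =
      univ.filter fun w : Fin (2 * n) → Bool => QQ n T w = 1 := by
    ext w
    rw [mem_filter, hS, mem_filter, mem_filter]
    constructor
    · rintro ⟨_, h⟩
      exact ⟨mem_univ _, h⟩
    · rintro ⟨_, h⟩
      refine ⟨⟨mem_univ _, ?_⟩, h⟩
      by_contra hcon
      push Not at hcon
      have : QQ n T w = 0 := by
        unfold QQ
        refine sum_eq_zero fun k hk => ?_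
        rw [hcon k (mem_range.1 hk), mul_zero]
      rw [this] at h
      exact absurd h (by decide)
  rw [h4] at h2 h3
  omega

section field

variable {L : Type} [Field L] [Fintype L] [CharP L 2]

/-- evaluation of the first half -/
def ph (n : ℕ) (z : L) (w : Fin (2 * n) → Bool) : L := phi n z (List.ofFn w)

theorem ph_xor (n : ℕ) (z : L) (w w' : Fin (2 * n) → Bool) :
    ph n z (fun i => xor (w i) (w' i)) = ph n z w + ph n z w' := by
  unfold ph phi
  rw [← sum_add_distrib]
  refine sum_congr rfl fun j hj => ?_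
  have hj' := mem_range.1 hj
  rw [getD_ofFn, getD_ofFn, getD_ofFn, dif_pos (by omega), dif_pos (by omega), dif_pos (by omega),
    io_xor]
  ring

theorem ph_surj {n : ℕ} {z : L}
    (hs : ∀ y : L, ∃ a : ℕ → Bool, y = ∑ j ∈ Finset.range n, if a j = true then z ^ j else 0)
    (y : L) : ∃ w, ph n z w = y := by
  obtain ⟨a, ha⟩ := hs y
  refine ⟨fun i => a i, ?_⟩
  unfold ph phi
  rw [ha]
  refine sum_congr rfl fun j hj => ?_
  have hj' := mem_range.1 hj
  rw [getD_ofFn, dif_pos (by omega)]
  unfold io
  show (if a j = true then 1 else 0) * z ^ j = _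
  split_ifs <;> simp

open Classical in
theorem fib {n : ℕ} {z : L}
    (hs : ∀ y : L, ∃ a : ℕ → Bool, y = ∑ j ∈ Finset.range n, if a j = true then z ^ j else 0)
    (y y' : L) : (univ.filter fun w : Fin (2 * n) → Bool => ph n z w = y).card ≤
      (univ.filter fun w : Fin (2 * n) → Bool => ph n z w = y').card := by
  obtain ⟨w0, hw0⟩ := ph_surj hs (y + y')
  refine card_le_card_of_injOn (fun w i => xor (w i) (w0 i)) ?_ ?_
  · intro w hw
    rw [mem_coe, mem_filter] at hw
    rw [mem_coe, mem_filter]
    refine ⟨mem_univ _, ?_⟩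
    rw [ph_xor, hw.2, hw0, ← add_assoc, CharTwo.add_self_eq_zero, zero_add]
  · intro w _ w' _ h
    funext i
    have := congrFun h i
    simp only at this
    revert this
    cases w i <;> cases w' i <;> cases w0 i <;> simp

open Classical in
theorem zeros {n m : ℕ} (hn : 0 < n) {z : L} (hz : z ^ n = 1)
    (hs : ∀ y : L, ∃ a : ℕ → Bool, y = ∑ j ∈ Finset.range n, if a j = true then z ^ j else 0)
    {T : Finset ℕ} (hT : T.Nonempty) (hTm : T ⊆ range m) :
    (univ.filter fun w : Fin (2 * n) → Bool => ∀ j < n, UU n T w j = 0).card * Fintype.card L ≤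
      m * 2 ^ (2 * n) := by
  set c := (univ.filter fun w : Fin (2 * n) → Bool => ph n z w = 0).card with hc
  have hfib : ∀ y : L, (univ.filter fun w : Fin (2 * n) → Bool => ph n z w = y).card = c :=
    fun y => le_antisymm (fib hs y 0) (fib hs 0 y)
  have htot : Fintype.card L * c = 2 ^ (2 * n) := by
    have hcard : (univ : Finset (Fin (2 * n) → Bool)).card = 2 ^ (2 * n) := by
      rw [card_univ, Fintype.card_fun, Fintype.card_bool, Fintype.card_fin]
    rw [← hcard, card_eq_sum_card_fiberwise (f := ph n z) (t := (univ : Finset L))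
      (fun w _ => mem_univ _), sum_congr rfl fun y _ => hfib y, sum_const, card_univ, smul_eq_mul]
  set P : L[X] := ∑ i ∈ T, (X : L[X]) ^ i with hP
  have hP0 : P ≠ 0 := by
    obtain ⟨i, hi⟩ := hT
    intro h
    have h1 : P.coeff i = 1 := by
      rw [hP, finsetSum_coeff]
      rw [sum_eq_single i]
      · simp
      · intro b _ hb
        rw [coeff_X_pow, if_neg (Ne.symm hb)]
      · intro h; exact absurd hi h
    rw [h] at h1
    simp at h1
  have hPd : P.natDegree ≤ m := by
    rw [hP]
    refine natDegree_sum_le_of_forall_le T _ fun i hi => ?_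
    rw [natDegree_X_pow]
    exact (mem_range.1 (hTm hi)).le
  have hroots : P.roots.toFinset.card ≤ m :=
    (Multiset.toFinset_card_le _).trans ((card_roots' P).trans hPd)
  have hsub : (univ.filter fun w : Fin (2 * n) → Bool => ∀ j < n, UU n T w j = 0) ⊆
      P.roots.toFinset.biUnion fun y => univ.filter fun w : Fin (2 * n) → Bool => ph n z w = y := by
    intro w hw
    rw [mem_filter] at hw
    rw [mem_biUnion]
    refine ⟨ph n z w, ?_, by rw [mem_filter]; exact ⟨mem_univ _, rfl⟩⟩
    rw [Multiset.mem_toFinset, mem_roots hP0, IsRoot.def, hP, eval_finsetSum]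
    have h1 : ∀ i ∈ T, eval (ph n z w) ((X : L[X]) ^ i) =
        ∑ j ∈ range n, io L ((pw n (List.ofFn w) i).getD j false) * z ^ j := by
      intro i _
      rw [eval_pow, eval_X]
      exact (phi_pw hn hz (List.ofFn w) i).symm
    rw [sum_congr rfl h1, sum_comm]
    refine sum_eq_zero fun j hj => ?_
    rw [← sum_mul, ← io_card]
    have h2 : io (ZMod 2) (decide ((T.filter fun i =>
        (pw n (List.ofFn w) i).getD j false = true).card % 2 = 1)) = 0 := by
      rw [io_card]
      exact hw.2 j (mem_range.1 hj)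
    have h3 : decide ((T.filter fun i =>
        (pw n (List.ofFn w) i).getD j false = true).card % 2 = 1) = false := by
      by_contra hcon
      rw [Bool.not_eq_false] at hcon
      rw [hcon, io_true] at h2
      exact absurd h2 (by decide)
    rw [h3, io_false, zero_mul]
  have h1 : (univ.filter fun w : Fin (2 * n) → Bool => ∀ j < n, UU n T w j = 0).card ≤ m * c := by
    refine (card_le_card hsub).trans ((card_biUnion_le_card_mul _ _ c fun y _ => (hfib y).le).trans
      (Nat.mul_le_mul_right c hroots))
  calc _ ≤ m * c * Fintype.card L := Nat.mul_le_mul_right _ h1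
    _ = m * (Fintype.card L * c) := by ring
    _ = m * 2 ^ (2 * n) := by rw [htot]

end field

end ALG

open Classical in
theorem t_ALG (h : S_AL1) : S_ALG := by
  intro l m T hT hTm
  obtain ⟨L, i1, i2, i3, z, hz, hcard, hs⟩ := h l
  set n := 3 ^ (l + 1) with hn
  have hn0 : 0 < n := by rw [hn]; positivity
  have h1 := ALG.half n T
  have h2 := ALG.zeros hn0 hz hs hT hTm
  unfold pr
  have hset : (Finset.univ.filter fun w : Fin (2 * n) → Bool => decide ((T.filter fun i =>
      sbit n (List.ofFn w) i = true).card % 2 = 1) = true) =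
      Finset.univ.filter fun w : Fin (2 * n) → Bool => ALG.QQ n T w = 1 := by
    ext w
    rw [Finset.mem_filter, Finset.mem_filter]
    refine and_congr_right fun _ => ?_
    unfold ALG.QQ
    rw [← ALG.odd_eq, ALG.io_inj]
  have hcardU : Fintype.card (Fin (2 * n) → Bool) = 2 ^ (2 * n) := by
    rw [Fintype.card_fun, Fintype.card_bool, Fintype.card_fin]
  have hset' : ((Finset.univ.filter fun w : Fin (2 * n) → Bool => decide ((T.filter fun i =>
      sbit n (List.ofFn w) i = true).card % 2 = 1) = true).card : ℝ) =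
      ((Finset.univ.filter fun w : Fin (2 * n) → Bool => ALG.QQ n T w = 1).card : ℝ) := by
    rw [hset]
  rw [hset', hcardU]
  set A := (Finset.univ.filter fun w : Fin (2 * n) → Bool => ALG.QQ n T w = 1).card with hA
  set Z := (Finset.univ.filter fun w : Fin (2 * n) → Bool => ∀ j < n, ALG.UU n T w j = 0).card with hZ
  have hN : (0 : ℝ) < 2 ^ (2 * n) := by positivity
  have h1' : 2 * (A : ℝ) + Z = 2 ^ (2 * n) := by exact_mod_cast h1
  have h2' : (Z : ℝ) * Fintype.card L ≤ m * 2 ^ (2 * n) := by exact_mod_cast h2
  have hcard' : (2 : ℝ) ^ (2 * 3 ^ l) ≤ Fintype.card L := by exact_mod_cast hcard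
  have hZ0 : (0 : ℝ) ≤ Z := Nat.cast_nonneg _
  have hm0 : (0 : ℝ) ≤ m := Nat.cast_nonneg _
  have h3 : (Z : ℝ) * 2 ^ (2 * 3 ^ l) ≤ m * 2 ^ (2 * n) :=
    (mul_le_mul_of_nonneg_left hcard' hZ0).trans h2'
  push_cast
  have h4 : (A : ℝ) / 2 ^ (2 * n) - 1 / 2 = -(Z / (2 * 2 ^ (2 * n))) := by
    field_simp
    linarith
  rw [h4, abs_neg, abs_of_nonneg (by positivity), div_le_div_iff₀ (by positivity) (by positivity)]
  nlinarith

end Pool.Agent.H547R7
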