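import Pool.Agent.H670LG.Stm3
set_option autoImplicit false

namespace Pool.Agent.H547R7

theorem ALS_len (d : ℕ) : (allS d).length = 2 ^ d := by
  induction d with
  | zero => rfl
  | succ d ih =>
    simp only [allS, List.length_append, List.length_map, ih]
    ring

theorem ALS_mem (d : ℕ) : ∀ s ∈ allS d, s.length = d := by
  induction d with
  | zero =>
    intro s hs
    simp only [allS, List.mem_singleton] at hs
    rw [hs]; rfl
  | succ d ih =>
    intro s hs
    simp only [allS, List.mem_append, List.mem_map] at hs
    rcases hs with ⟨t, ht, rfl⟩ | ⟨t, ht, rfl⟩ <;> simp [ih t ht]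

theorem ALS_count (d : ℕ) : ∀ p : List Bool → Bool,
    (allS d).countP p = (Finset.univ.filter (fun s : Fin d → Bool => p (List.ofFn s) = true)).card := by
  induction d with
  | zero =>
    intro p
    by_cases h : p [] = true
    · simp [allS, h]
    · simp [allS, h]
  | succ d ih =>
    intro p
    have e1 : (allS (d + 1)).countP p =
        (allS d).countP (fun s => p (false :: s)) + (allS d).countP (fun s => p (true :: s)) := by
      simp only [allS, List.countP_append, List.countP_map]
      rfl
    rw [e1, ih, ih]
    have e2 : (Finset.univ.filter (fun s : Fin (d + 1) → Bool => p (List.ofFn s) = true)).card =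
        ∑ s : Fin (d + 1) → Bool, if p (List.ofFn s) = true then 1 else 0 := by
      rw [Finset.card_filter]
    rw [e2, ← (Fin.consEquiv (fun _ : Fin (d + 1) => Bool)).sum_comp, Fintype.sum_prod_type]
    rw [Finset.card_filter, Finset.card_filter]
    simp only [Fintype.sum_bool]
    rw [add_comm]
    have e3 : ∀ (c : Bool) (y : Fin d → Bool),
        List.ofFn ((Fin.consEquiv fun _ : Fin (d + 1) => Bool) (c, y)) = c :: List.ofFn y := by
      intro c y
      show List.ofFn (Fin.cons c y : Fin (d + 1) → Bool) = c :: List.ofFn y
      rw [List.ofFn_succ]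
      rfl
    simp only [e3]

theorem t_ALS : S_ALS := by
  refine ⟨ALS_len, ALS_mem, ?_⟩
  intro d p
  unfold cp pr
  rw [ALS_count d p, ALS_len]
  simp

end Pool.Agent.H547R7
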