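import Pool.Agent.H670LG.Stm3

set_option autoImplicit false

namespace Pool.Agent.H547R7

namespace CO1

theorem sum_mod (N m : ℕ) (f : ℕ → ℝ) :
    ∑ i ∈ Finset.range (N * m), f (i % m) = N * ∑ k ∈ Finset.range m, f k := by
  induction N with
  | zero => simp
  | succ N ih =>
    rw [Nat.succ_mul, Finset.sum_range_add, ih]
    have h : ∑ x ∈ Finset.range m, f ((N * m + x) % m) = ∑ x ∈ Finset.range m, f x := by
      apply Finset.sum_congr rfl
      intro x hx
      rw [Nat.mul_comm, Nat.mul_add_mod, Nat.mod_eq_of_lt (Finset.mem_range.1 hx)]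
    rw [h]
    push_cast
    ring

theorem pr_and {Ω : Type} [Fintype Ω] [Nonempty Ω] (p q : Ω → Bool) :
    pr p + pr q - 1 ≤ pr (fun x => p x && q x) := by
  classical
  have hc : (0 : ℝ) < Fintype.card Ω := by exact_mod_cast Fintype.card_pos
  have h := Finset.card_union_add_card_inter (Finset.univ.filter fun x => p x = true)
    (Finset.univ.filter fun x => q x = true)
  have h2 : (Finset.univ.filter fun x => p x = true) ∩ (Finset.univ.filter fun x => q x = true) =
      Finset.univ.filter fun x => (p x && q x) = true := by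
    ext x; simp
  have h3 : ((Finset.univ.filter fun x => p x = true) ∪
      (Finset.univ.filter fun x => q x = true)).card ≤ Fintype.card Ω := Finset.card_le_univ _
  rw [h2] at h
  have h4 : (Finset.univ.filter fun x => p x = true).card +
      (Finset.univ.filter fun x => q x = true).card ≤
      Fintype.card Ω + (Finset.univ.filter fun x => (p x && q x) = true).card := by omega
  have h5 : ((Finset.univ.filter fun x => p x = true).card : ℝ) +
      (Finset.univ.filter fun x => q x = true).card ≤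
      Fintype.card Ω + (Finset.univ.filter fun x => (p x && q x) = true).card := by exact_mod_cast h4
  unfold pr
  rw [← add_div, div_sub_one hc.ne', div_le_div_iff_of_pos_right hc]
  linarith

theorem pr_or {Ω : Type} [Fintype Ω] (p q : Ω → Bool) :
    pr (fun x => p x || q x) ≤ pr p + pr q := by
  classical
  have h2 : Finset.univ.filter (fun x => (p x || q x) = true) =
      (Finset.univ.filter fun x => p x = true) ∪ (Finset.univ.filter fun x => q x = true) := by
    ext x; simp
  have h := Finset.card_union_le (Finset.univ.filter fun x => p x = true)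
    (Finset.univ.filter fun x => q x = true)
  unfold pr
  rw [h2, ← add_div]
  apply div_le_div_of_nonneg_right _ (by positivity)
  exact_mod_cast h

theorem sum_sl (h2 : S_EXP) (e n : ℕ) (C : BF n) :
    ∑ i, pr (sl e n C i) = (e : ℝ) ^ 3 * (n + 1) * n + 2 * e ^ 3 * (n + 1) * pr C := by
  have hrr : rr e n = (2 * e ^ 3 * (n + 1)) * (n + 1) := by unfold rr; ring
  have h1 : ∑ i, pr (sl e n C i) =
      ∑ i ∈ Finset.range ((2 * e ^ 3 * (n + 1)) * (n + 1)), pr (slice n (i % (n + 1)) C) := by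
    rw [← hrr, Finset.sum_range]
    rfl
  rw [h1, sum_mod _ _ (fun k => pr (slice n k C)), h2 n C]
  push_cast
  ring

theorem pr_true {Ω : Type} [Fintype Ω] [Nonempty Ω] : pr (fun _ : Ω => true) = 1 := by
  have hc : (Fintype.card Ω : ℝ) ≠ 0 := by exact_mod_cast Fintype.card_ne_zero
  unfold pr
  simp [hc]

theorem pr_false {Ω : Type} [Fintype Ω] : pr (fun _ : Ω => false) = 0 := by
  unfold pr
  simp

end CO1

open CO1 in
theorem t_CO1 (h1 : S_CHE) (h2 : S_EXP) : S_CO1 := by
  intro e n C he hn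
  have he0 : (0 : ℝ) < e := by
    have : 0 < e := by omega
    exact_mod_cast this
  have heR : (8 : ℝ) ≤ e := by exact_mod_cast he
  have hnR : (1 : ℝ) ≤ n := by exact_mod_cast hn
  have ha : (0 : ℝ) < 2 * e ^ 2 * (n + 1) := by positivity
  have hr : ((rr e n : ℕ) : ℝ) / (4 * (2 * e ^ 2 * (n + 1)) ^ 2) = 1 / (8 * (e : ℝ)) := by
    unfold rr
    push_cast
    field_simp
    ring
  have cheT := h1 n (rr e n) (sl e n fun _ => true) (2 * e ^ 2 * (n + 1)) ha
  have cheF := h1 n (rr e n) (sl e n fun _ => false) (2 * e ^ 2 * (n + 1)) ha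
  have cheC := h1 n (rr e n) (sl e n C) (2 * e ^ 2 * (n + 1)) ha
  rw [hr, sum_sl h2, pr_true] at cheT
  rw [hr, sum_sl h2, pr_false] at cheF
  rw [hr, sum_sl h2] at cheC
  have e1 : 2 * e ^ 2 * (n + 1) ≤ e ^ 3 * (n + 1) * n := by
    have : 2 * e ^ 2 * (n + 1) ≤ e * e ^ 2 * (n + 1) :=
      Nat.mul_le_mul_right _ (Nat.mul_le_mul_right _ (by omega))
    calc 2 * e ^ 2 * (n + 1) ≤ e * e ^ 2 * (n + 1) := this
      _ = e ^ 3 * (n + 1) * 1 := by ring
      _ ≤ e ^ 3 * (n + 1) * n := Nat.mul_le_mul_left _ hn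
  have ca1 : ((a1 e n : ℕ) : ℝ) = (e : ℝ) ^ 3 * (n + 1) * n + 2 * e ^ 3 * (n + 1) * 1 -
      2 * e ^ 2 * (n + 1) := by
    unfold a1
    rw [Nat.cast_sub (by omega)]
    push_cast
    ring
  have ca0 : ((a0 e n : ℕ) : ℝ) = (e : ℝ) ^ 3 * (n + 1) * n + 2 * e ^ 3 * (n + 1) * 0 -
      2 * e ^ 2 * (n + 1) := by
    unfold a0
    rw [Nat.cast_sub (by omega)]
    push_cast
    ring
  have cb0 : ((b0 e n : ℕ) : ℝ) = (e : ℝ) ^ 3 * (n + 1) * n + 2 * e ^ 3 * (n + 1) * 0 +
      2 * e ^ 2 * (n + 1) := by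
    unfold b0
    push_cast
    ring
  have q1 := cheT.2 (a1 e n) ca1.le
  have q2 := cheF.2 (a0 e n) ca0.le
  have q3 := cheF.1 (b0 e n) cb0.ge
  have h18 : 1 / (8 * (e : ℝ)) + 1 / (8 * (e : ℝ)) = 1 / (4 * (e : ℝ)) := by
    field_simp
    norm_num
  refine ⟨?_, q3, ?_⟩
  · have := pr_and (fun z : Fin (rr e n * n) → Bool =>
      decide (a1 e n ≤ cnt (sl e n fun _ => true) (blk z)))
      (fun z => decide (a0 e n ≤ cnt (sl e n fun _ => false) (blk z)))
    have h3 : pr (tLow e n) = pr (fun z : Fin (rr e n * n) → Bool =>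
      decide (a1 e n ≤ cnt (sl e n fun _ => true) (blk z)) &&
        decide (a0 e n ≤ cnt (sl e n fun _ => false) (blk z))) := rfl
    rw [h3]
    linarith
  · intro θ hθ
    have q4 := cheC.1 θ hθ
    have := pr_or (tHi0 e n) (fun z : Fin (rr e n * n) → Bool =>
      decide (θ ≤ cnt (sl e n C) (blk z)))
    have h3 : pr (tHi e n C θ) = pr (fun z : Fin (rr e n * n) → Bool =>
      tHi0 e n z || decide (θ ≤ cnt (sl e n C) (blk z))) := rfl
    have h4 : pr (tHi0 e n) ≤ 1 / (8 * (e : ℝ)) := q3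
    rw [h3]
    linarith

end Pool.Agent.H547R7
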