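import Pool.Agent.H670LG.Stm3

/-!
# Task CO2: the counting part of the core of the argument
-/

set_option autoImplicit false

namespace Pool.Agent.H547R7

open Pool.Agent.H547R6 Pool.Agent.NPC Pool.Agent.H424R2.PPAD

theorem CO2_countP_range (p : ℕ → Bool) (r : ℕ) :
    (List.range r).countP p = ∑ i ∈ Finset.range r, if p i = true then 1 else 0 := by
  induction r with
  | zero => simp
  | succ r ih =>
    rw [List.range_succ, List.countP_append, ih, Finset.sum_range_succ, List.countP_singleton]

theorem CO2_wt (n : ℕ) : ∀ x : List Bool, x.length = n →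
    wtL x = wt (fun j : Fin n => x.getD j false) := by
  induction n with
  | zero =>
    intro x hx
    rw [List.length_eq_zero_iff] at hx
    subst hx
    simp [wtL, wt]
  | succ n ih =>
    intro x hx
    cases x with
    | nil => simp at hx
    | cons b x =>
      have h1 := ih x (by simpa using hx)
      unfold wtL wt at h1 ⊢
      rw [List.countP_cons, h1, Fin.card_filter_univ_succ]
      simp only [Fin.val_zero, List.getD_cons_zero, Fin.val_succ,
        List.getD_cons_succ]
      cases b <;> simp

theorem CO2_blk (e n : ℕ) (y : List Bool) (hy : 1 + rr e n * n ≤ y.length) (i : Fin (rr e n)) :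
    (blkL n y i).length = n ∧ (fun j : Fin n => (blkL n y i).getD j false) =
      blk (vecD e n y) i := by
  have hi : n * (i : ℕ) + n ≤ rr e n * n := by
    have : n * (i : ℕ) + n = ((i : ℕ) + 1) * n := by ring
    rw [this]
    exact Nat.mul_le_mul_right n i.2
  constructor
  · unfold blkL
    rw [List.length_take, List.length_drop]
    omega
  · funext j
    unfold blkL blk vecD
    have hj : (j : ℕ) < n := j.2
    have hv : ((finProdFinEquiv (i, j) : Fin (rr e n * n)) : ℕ) = j + n * i := rfl
    rw [hv, List.getD_eq_getElem?_getD, List.getD_eq_getElem?_getD,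
      List.getElem?_take_of_lt hj, List.getElem?_drop]
    congr 2
    ring

theorem CO2_cnt (e n : ℕ) (C : BF n) (y : List Bool) (hy : 1 + rr e n * n ≤ y.length) :
    cnt (sl e n C) (blk (vecD e n y)) =
      s0L e n y + (mbL e n y).countP (fun x => C (vec n x)) := by
  have h1 : (mbL e n y).countP (fun x => C (vec n x)) =
      (List.range (rr e n)).countP (fun i => C (vec n (blkL n y i)) &&
        decide (wtL (blkL n y i) = i % (n + 1))) := by
    unfold mbL
    rw [List.countP_map, List.countP_filter]
    rfl
  rw [h1]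
  unfold s0L cnt
  rw [CO2_countP_range, CO2_countP_range, Finset.card_filter,
    ← Fin.sum_univ_eq_sum_range (fun i => if decide (i % (n + 1) < wtL (blkL n y i)) = true
      then 1 else 0) (rr e n),
    ← Fin.sum_univ_eq_sum_range (fun i => if (C (vec n (blkL n y i)) &&
        decide (wtL (blkL n y i) = i % (n + 1))) = true then 1 else 0) (rr e n),
    ← Finset.sum_add_distrib]
  refine Finset.sum_congr rfl fun i _ => ?_
  obtain ⟨hl, hb⟩ := CO2_blk e n y hy i
  have hw : wtL (blkL n y i) = wt (blk (vecD e n y) i) := by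
    rw [CO2_wt n _ hl, hb]
  have hv : vec n (blkL n y i) = blk (vecD e n y) i := hb
  unfold sl slice
  rw [hw, hv]
  rcases lt_trichotomy ((i : ℕ) % (n + 1)) (wt (blk (vecD e n y) i)) with h | h | h
  · have h2 : ¬ (wt (blk (vecD e n y) i) = (i : ℕ) % (n + 1)) := by omega
    simp [h, h2]
  · have h2 : wt (blk (vecD e n y) i) = (i : ℕ) % (n + 1) := h.symm
    have h3 : ¬ ((i : ℕ) % (n + 1) < wt (blk (vecD e n y) i)) := by omega
    simp [h2]
  · have h2 : ¬ (wt (blk (vecD e n y) i) = (i : ℕ) % (n + 1)) := by omega
    have h3 : ¬ ((i : ℕ) % (n + 1) < wt (blk (vecD e n y) i)) := by omega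
    simp [h2, h3]

theorem CO2_s1 (e n : ℕ) (y : List Bool) :
    s1L e n y = s0L e n y + (mbL e n y).length := by
  have h1 : (mbL e n y).length = (List.range (rr e n)).countP (fun i =>
        decide (wtL (blkL n y i) = i % (n + 1))) := by
    unfold mbL
    rw [List.length_map, List.countP_eq_length_filter]
  rw [h1]
  unfold s1L s0L
  rw [CO2_countP_range, CO2_countP_range, CO2_countP_range, ← Finset.sum_add_distrib]
  refine Finset.sum_congr rfl fun i _ => ?_
  simp only [decide_eq_true_eq]
  split_ifs <;> omega

theorem CO2_sum (ys : List (List Bool)) (F : List Bool → ℕ) (P B : List Bool → Bool) (K k : ℝ)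
    (h : ∀ y ∈ ys, (F y : ℝ) ≤ K * (if P y = true then 1 else 0) +
      k * (if B y = true then 1 else 0)) :
    (((ys.map F).sum : ℕ) : ℝ) ≤ K * (ys.countP P : ℕ) + k * (ys.countP B : ℕ) := by
  induction ys with
  | nil => simp
  | cons y ys ih =>
    have h1 := ih (fun z hz => h z (List.mem_cons_of_mem _ hz))
    have h2 := h y List.mem_cons_self
    have e1 : ((if P y = true then 1 else 0 : ℕ) : ℝ) = if P y = true then 1 else 0 := by
      split_ifs <;> simp
    have e2 : ((if B y = true then 1 else 0 : ℕ) : ℝ) = if B y = true then 1 else 0 := by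
      split_ifs <;> simp
    rw [List.map_cons, List.sum_cons, List.countP_cons, List.countP_cons, Nat.cast_add,
      Nat.cast_add, Nat.cast_add, e1, e2, mul_add, mul_add]
    linarith

theorem CO2_len (ys : List (List Bool)) (F : List Bool → ℕ) (P : List Bool → Bool) (k : ℕ)
    (h : ∀ y ∈ ys, F y = if P y = true then k else 0) :
    (ys.map F).sum = k * ys.countP P := by
  induction ys with
  | nil => simp
  | cons y ys ih =>
    have h1 := ih (fun z hz => h z (List.mem_cons_of_mem _ hz))
    have h2 := h y List.mem_cons_self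
    rw [List.map_cons, List.sum_cons, List.countP_cons, h1, h2]
    split_ifs <;> ring

theorem CO2_two (ys : List (List Bool)) (a b c d : List Bool → Bool)
    (h : ∀ y ∈ ys, (if a y = true then 1 else 0) + (if b y = true then 1 else 0) ≤
      (if c y = true then 1 else 0) + (if d y = true then 1 else 0)) :
    ys.countP a + ys.countP b ≤ ys.countP c + ys.countP d := by
  induction ys with
  | nil => simp
  | cons y ys ih =>
    have h1 := ih (fun z hz => h z (List.mem_cons_of_mem _ hz))
    have h2 := h y List.mem_cons_self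
    rw [List.countP_cons, List.countP_cons, List.countP_cons, List.countP_cons]
    omega

theorem CO2_pr_le {n : ℕ} (C : BF n) : 0 ≤ pr C ∧ pr C ≤ 1 := by
  unfold pr
  constructor
  · positivity
  · have hN : (0 : ℝ) < Fintype.card (Fin n → Bool) := by exact_mod_cast Fintype.card_pos
    rw [div_le_one hN]
    exact_mod_cast Finset.card_le_univ _

theorem t_CO2 : S_CO2 := by
  intro e n ys C β γ θ he hn hys hlen hθ hβ hγ hH hβγ
  -- arithmetic of the thresholds
  have hZ : 4 * e ^ 2 * (n + 1) = 2 * (2 * e ^ 2 * (n + 1)) := by ring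
  have hY : 8 * (2 * e ^ 2 * (n + 1)) ≤ 2 * e ^ 3 * (n + 1) := by
    have : 2 * e ^ 3 * (n + 1) = e * (2 * e ^ 2 * (n + 1)) := by ring
    rw [this]; exact Nat.mul_le_mul_right _ he
  have hX : 2 * e ^ 2 * (n + 1) ≤ e ^ 3 * (n + 1) * n := by
    have h1 : e ^ 3 * (n + 1) * n = (e * n) * (e ^ 2 * (n + 1)) := by ring
    have h2 : 2 * e ^ 2 * (n + 1) = 2 * (e ^ 2 * (n + 1)) := by ring
    rw [h1, h2]
    apply Nat.mul_le_mul_right
    nlinarith
  have hpos : 0 < 2 * e ^ 2 * (n + 1) := by positivity
  have hkk : 0 < kk e n := by unfold kk; omega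
  -- description of the tests
  have dLow : ∀ y ∈ ys, tLow e n (vecD e n y) =
      (decide (a1 e n ≤ s0L e n y + (mbL e n y).length) && decide (a0 e n ≤ s0L e n y)) := by
    intro y hy
    unfold tLow
    rw [CO2_cnt e n _ y (hlen y hy), CO2_cnt e n _ y (hlen y hy)]
    simp
  have dHi0 : ∀ y ∈ ys, tHi0 e n (vecD e n y) = decide (b0 e n ≤ s0L e n y) := by
    intro y hy
    unfold tHi0
    rw [CO2_cnt e n _ y (hlen y hy)]
    simp
  have dHi : ∀ y ∈ ys, tHi e n C θ (vecD e n y) = (decide (b0 e n ≤ s0L e n y) ||
      decide (θ ≤ s0L e n y + (mbL e n y).countP (fun x => C (vec n x)))) := by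
    intro y hy
    unfold tHi
    rw [dHi0 y hy, CO2_cnt e n _ y (hlen y hy)]
  have dPass : ∀ y, passL e n y = (y.getD 0 false &&
      (decide (a1 e n ≤ s0L e n y + (mbL e n y).length) && (decide (a0 e n ≤ s0L e n y) &&
        decide (s0L e n y < b0 e n)))) := by
    intro y
    unfold passL
    rw [CO2_s1]
  let bad : List Bool → Bool := fun y => passL e n y &&
    decide (θ ≤ s0L e n y + (mbL e n y).countP (fun x => C (vec n x)))
  -- counting
  have c1 : ys.countP (passL e n) + ys.countP (fun y => y.getD 0 false &&
      tHi0 e n (vecD e n y)) ≥ ys.countP (fun y => y.getD 0 false && tLow e n (vecD e n y)) := by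
    have := CO2_two ys (fun y => y.getD 0 false && tLow e n (vecD e n y)) (fun _ => false)
      (passL e n) (fun y => y.getD 0 false && tHi0 e n (vecD e n y)) (by
        intro y hy
        simp only [dLow y hy, dHi0 y hy, dPass y]
        cases y.getD 0 false
        · simp
        · by_cases q1 : a1 e n ≤ s0L e n y + (mbL e n y).length <;>
          by_cases q2 : a0 e n ≤ s0L e n y <;>
          by_cases q3 : s0L e n y < b0 e n <;>
          by_cases q4 : b0 e n ≤ s0L e n y <;> simp [q1, q2, q3, q4] <;> omega)
    have h0 : ys.countP (fun _ : List Bool => false) = 0 := by simp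
    omega
  have c2 : ys.countP bad + ys.countP (fun y => y.getD 0 false && tHi0 e n (vecD e n y)) ≤
      ys.countP (fun y => y.getD 0 false && tHi e n C θ (vecD e n y)) := by
    have := CO2_two ys bad (fun y => y.getD 0 false && tHi0 e n (vecD e n y))
      (fun y => y.getD 0 false && tHi e n C θ (vecD e n y)) (fun _ => false) (by
        intro y hy
        simp only [bad, dHi y hy, dHi0 y hy, dPass y]
        cases y.getD 0 false
        · simp
        · by_cases q1 : a1 e n ≤ s0L e n y + (mbL e n y).length <;>
          by_cases q2 : a0 e n ≤ s0L e n y <;>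
          by_cases q3 : s0L e n y < b0 e n <;>
          by_cases q4 : b0 e n ≤ s0L e n y <;>
          by_cases q5 : θ ≤ s0L e n y + (mbL e n y).countP (fun x => C (vec n x)) <;>
          simp [q1, q2, q3, q4, q5] <;> omega)
    have h0 : ys.countP (fun _ : List Bool => false) = 0 := by simp
    omega
  have hN : (0 : ℝ) < ys.length := by
    have := List.length_pos_iff.2 hys
    exact_mod_cast this
  unfold cp at hβ hγ hH
  rw [div_le_iff₀ hN] at hβ
  rw [le_div_iff₀ hN] at hγ
  rw [div_lt_iff₀ hN] at hH
  set P := ys.countP (passL e n) with hP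
  set B := ys.countP bad with hB
  set h := ys.countP (fun y => y.getD 0 false && tHi0 e n (vecD e n y)) with hh
  have c1' : (ys.countP (fun y => y.getD 0 false && tLow e n (vecD e n y)) : ℝ) ≤ P + h := by
    exact_mod_cast c1
  have c2' : (B : ℝ) + h ≤ ys.countP (fun y => y.getD 0 false && tHi e n C θ (vecD e n y)) := by
    exact_mod_cast c2
  have hPpos : (0 : ℝ) < P := by linarith
  have hB0 : (0 : ℝ) ≤ B := by positivity
  have hh0 : (0 : ℝ) ≤ h := by positivity
  have hγpos : 0 < γ := by
    by_contra hcon
    have hcon' : γ ≤ 0 := not_lt.1 hcon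
    have := mul_nonpos_of_nonpos_of_nonneg hcon' hN.le
    linarith
  -- length of the new list
  have hlenD : (dL e n ys).length = kk e n * P := by
    unfold dL
    rw [List.length_flatMap]
    apply CO2_len
    intro y _
    by_cases hp : passL e n y = true
    · rw [if_pos hp, if_pos hp, List.length_take]
      rw [dPass y] at hp
      simp only [Bool.and_eq_true, decide_eq_true_eq] at hp
      obtain ⟨_, p1, p2, p3⟩ := hp
      unfold a1 at p1
      unfold b0 at p3
      unfold kk
      omega
    · rw [if_neg hp, if_neg hp]; rfl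
  have hDne : dL e n ys ≠ [] := by
    intro h0
    rw [h0, List.length_nil] at hlenD
    have : 0 < P := by exact_mod_cast hPpos
    have := Nat.mul_pos hkk this
    omega
  refine ⟨hDne, ?_⟩
  obtain ⟨hpr0, hpr1⟩ := CO2_pr_le C
  have he' : (8 : ℝ) ≤ e := by exact_mod_cast he
  have hkkR : (kk e n : ℝ) = 2 * e ^ 2 * (n + 1) * (e - 2) := by
    unfold kk
    rw [Nat.cast_sub (by omega)]
    push_cast
    ring
  have ha0R : (a0 e n : ℝ) = e ^ 3 * (n + 1) * n - 2 * e ^ 2 * (n + 1) := by
    unfold a0
    rw [Nat.cast_sub hX]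
    push_cast
    ring
  have hkkpos : (0 : ℝ) < kk e n := by exact_mod_cast hkk
  set K : ℝ := kk e n * (pr C + 4 / ((e : ℝ) - 2)) with hK
  have hcount : (((dL e n ys).countP (fun x => C (vec n x)) : ℕ) : ℝ) ≤
      K * (P : ℕ) + kk e n * (B : ℕ) := by
    unfold dL
    rw [List.countP_flatMap]
    apply CO2_sum
    intro y hy
    simp only [Function.comp_apply]
    by_cases hp : passL e n y = true
    · rw [if_pos hp, if_pos hp]
      by_cases hb : bad y = true
      · rw [if_pos hb]
        have h1 : ((mbL e n y).take (kk e n)).countP (fun x => C (vec n x)) ≤ kk e n :=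
          le_trans List.countP_le_length (by rw [List.length_take]; exact min_le_left _ _)
        have h2 : ((((mbL e n y).take (kk e n)).countP (fun x => C (vec n x)) : ℕ) : ℝ) ≤
          kk e n := by exact_mod_cast h1
        have h3 : 0 ≤ K := by
          rw [hK]
          have : (0 : ℝ) < (e : ℝ) - 2 := by linarith
          positivity
        linarith
      · rw [if_neg hb]
        have hp' := hp
        rw [dPass y] at hp'
        simp only [Bool.and_eq_true, decide_eq_true_eq] at hp'
        obtain ⟨_, p1, p2, p3⟩ := hp'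
        have hb' : ¬ θ ≤ s0L e n y + (mbL e n y).countP (fun x => C (vec n x)) := by
          intro hcon
          apply hb
          simp only [bad, hp, Bool.true_and, decide_eq_true_eq]
          exact hcon
        have h1 : ((mbL e n y).take (kk e n)).countP (fun x => C (vec n x)) ≤
            (mbL e n y).countP (fun x => C (vec n x)) :=
          (List.take_sublist _ _).countP_le
        have h2 : ((mbL e n y).take (kk e n)).countP (fun x => C (vec n x)) + 1 + a0 e n ≤ θ := by
          omega
        have h3 : ((((mbL e n y).take (kk e n)).countP (fun x => C (vec n x)) : ℕ) : ℝ) + 1 +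
            a0 e n ≤ θ := by exact_mod_cast h2
        have h4 : 2 * (e : ℝ) ^ 3 * (n + 1) * pr C + 4 * e ^ 2 * (n + 1) ≤ K := by
          rw [hK, hkkR]
          have h5 : (0 : ℝ) < (e : ℝ) - 2 := by linarith
          have h6 : 2 * (e : ℝ) ^ 2 * (n + 1) * (e - 2) * (pr C + 4 / ((e : ℝ) - 2)) =
              2 * (e : ℝ) ^ 2 * (n + 1) * (e - 2) * pr C + 8 * e ^ 2 * (n + 1) := by
            field_simp
            ring
          rw [h6]
          have h7 : (0 : ℝ) ≤ (e : ℝ) ^ 2 * (n + 1) := by positivity
          nlinarith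
        rw [ha0R] at h3
        linarith
    · have hb : bad y = false := by
        simp only [bad]
        rw [Bool.not_eq_true] at hp
        rw [hp]; rfl
      rw [if_neg hp, if_neg hp, hb]
      simp
  unfold cp
  rw [hlenD]
  push_cast
  have hkP : (0 : ℝ) < kk e n * P := by positivity
  have hBP : (B : ℝ) / P ≤ β / γ := by
    rw [div_le_div_iff₀ hPpos hγpos]
    have hβ0 : 0 ≤ β := by
      by_contra hcon
      have hcon' : β < 0 := not_le.1 hcon
      have := mul_neg_of_neg_of_pos hcon' hN
      linarith
    have q1 : (B : ℝ) ≤ β * ys.length - h := by linarith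
    have q2 : γ * ys.length - h ≤ (P : ℝ) := by linarith
    have q3 : (B : ℝ) * γ ≤ (β * ys.length - h) * γ :=
      mul_le_mul_of_nonneg_right q1 hγpos.le
    have q4 : β * (γ * ys.length - h) ≤ β * (P : ℝ) := mul_le_mul_of_nonneg_left q2 hβ0
    have q5 : (h : ℝ) * β ≤ h * γ := mul_le_mul_of_nonneg_left hβγ hh0
    have q6 : (β * ys.length - (h : ℝ)) * γ + h * γ = β * (γ * ys.length - h) + h * β := by ring
    linarith
  have hfin : (((dL e n ys).countP (fun x => C (vec n x)) : ℕ) : ℝ) / (kk e n * P) ≤
      pr C + 4 / ((e : ℝ) - 2) + B / P := by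
    rw [div_le_iff₀ hkP]
    have : (pr C + 4 / ((e : ℝ) - 2) + B / P) * (kk e n * P) = K * P + kk e n * B := by
      rw [hK]
      field_simp
    rw [this]
    exact hcount
  have h45 : 4 / ((e : ℝ) - 2) ≤ 5 / ((e : ℝ) - 2) := by
    apply div_le_div_of_nonneg_right (by norm_num) (by linarith)
  linarith

end Pool.Agent.H547R7
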