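import Pool.Agent.H670LG.Stm3

/-!
# Task CPX: complexity of the tests
-/

set_option autoImplicit false

namespace Pool.Agent.H547R7

open Pool.Agent.H547R6 Pool.Agent.NPC Pool.Agent.H424R2.PPAD

theorem CPX_left {n : ℕ} {l l' : List (BF n)} {f : BF n} (h : Avail l f) :
    Avail (l ++ l') f := by
  rcases h with h | h
  · exact Or.inl (List.mem_append_left _ h)
  · exact Or.inr h

theorem CPX_right {n : ℕ} {l l' : List (BF n)} {f : BF n} (h : Avail l' f) :
    Avail (l ++ l') f := by
  rcases h with h | h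
  · exact Or.inl (List.mem_append_right _ h)
  · exact Or.inr h

theorem CPX_app {B : Set BFun} {n : ℕ} {l l' : List (BF n)}
    (h : Gates B n l) (h' : Gates B n l') : Gates B n (l ++ l') := by
  induction h with
  | nil => exact h'
  | gate l k f g hf hg _ ih =>
    exact Gates.gate (l ++ l') k f g hf (fun j => CPX_left (hg j)) ih

theorem CPX_bin {n s t : ℕ} {f g : BF n} (hf : Computes MB n s f) (hg : Computes MB n t g)
    (o : Bool → Bool → Bool)
    (ho : (⟨2, fun x => o (x 0) (x 1)⟩ : BFun) ∈ MB) :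
    Computes MB n (s + t + 1) (fun x => o (f x) (g x)) := by
  obtain ⟨l, hl, hls, hlf⟩ := hf
  obtain ⟨m, hm, hms, hmg⟩ := hg
  refine ⟨(fun x => o (f x) (g x)) :: (l ++ m), ?_, ?_, Or.inl (List.mem_cons_self ..)⟩
  · have := Gates.gate (l ++ m) 2 (fun x => o (x 0) (x 1)) ![f, g] ho (by
      intro j
      fin_cases j
      · exact CPX_left hlf
      · exact CPX_right hmg) (CPX_app hl hm)
    simpa using this
  · rw [List.length_cons, List.length_append]
    omega

theorem CPX_mono {n s t : ℕ} {f : BF n} (hf : MC n s f) (h : s ≤ t) : MC n t f := by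
  rcases hf with hf | ⟨l, h1, h2, h3⟩
  · exact Or.inl hf
  · exact Or.inr ⟨l, h1, h2.trans h, h3⟩

theorem CPX_and {n s t : ℕ} {f g : BF n} (hf : MC n s f) (hg : MC n t g) :
    MC n (s + t + 1) (fun x => f x && g x) := by
  rcases hf with ⟨b, hb⟩ | hf
  · cases b with
    | false => exact Or.inl ⟨false, fun x => by simp [hb x]⟩
    | true =>
      have e : (fun x => f x && g x) = g := by
        funext x; rw [hb]; rfl
      rw [e]
      exact CPX_mono hg (by omega)
  rcases hg with ⟨b, hb⟩ | hg
  · cases b with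
    | false => exact Or.inl ⟨false, fun x => by simp [hb x]⟩
    | true =>
      have e : (fun x => f x && g x) = f := by
        funext x; rw [hb]; simp
      rw [e]
      exact CPX_mono (Or.inr hf) (by omega)
  exact Or.inr (CPX_bin hf hg (fun a b => a && b) (Or.inl rfl))

theorem CPX_or {n s t : ℕ} {f g : BF n} (hf : MC n s f) (hg : MC n t g) :
    MC n (s + t + 1) (fun x => f x || g x) := by
  rcases hf with ⟨b, hb⟩ | hf
  · cases b with
    | true => exact Or.inl ⟨true, fun x => by simp [hb x]⟩
    | false =>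
      have e : (fun x => f x || g x) = g := by
        funext x; rw [hb]; rfl
      rw [e]
      exact CPX_mono hg (by omega)
  rcases hg with ⟨b, hb⟩ | hg
  · cases b with
    | true => exact Or.inl ⟨true, fun x => by simp [hb x]⟩
    | false =>
      have e : (fun x => f x || g x) = f := by
        funext x; rw [hb]; simp
      rw [e]
      exact CPX_mono (Or.inr hf) (by omega)
  exact Or.inr (CPX_bin hf hg (fun a b => a || b) (Or.inr rfl))

theorem CPX_const {n : ℕ} (hn : 1 ≤ n) (b : Bool) : Comp0 n n (fun _ => b) := by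
  have i0 : Fin n := ⟨0, hn⟩
  have h1 : AON n 0 [fun x => !x i0] :=
    AON.not 0 [] (fun x => x i0) AON.nil (Or.inr ⟨i0, rfl⟩)
  cases b with
  | false =>
    refine ⟨_, 1, AON.and 0 _ (fun x => x i0) (fun x => !x i0) h1 (Or.inr ⟨i0, rfl⟩)
      (Or.inl (List.mem_cons_self ..)), hn, Or.inl ?_⟩
    have e : (fun x : Fin n → Bool => x i0 && !x i0) = fun _ => false := by
      funext x; simp
    rw [e]
    exact List.mem_cons_self ..
  | true =>
    refine ⟨_, 1, AON.or 0 _ (fun x => x i0) (fun x => !x i0) h1 (Or.inr ⟨i0, rfl⟩)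
      (Or.inl (List.mem_cons_self ..)), hn, Or.inl ?_⟩
    have e : (fun x : Fin n → Bool => x i0 || !x i0) = fun _ => true := by
      funext x; simp
    rw [e]
    exact List.mem_cons_self ..

theorem t_CPX (h : S_TST) : S_CPX := by
  intro e n C θ hn hC
  have hT : ∀ (D : BF n), Comp0 n n D → ∀ θ : ℕ,
      MC (rr e n * n) (rr e n * (4 * (n + 1) ^ 3 + 2 * n) + 2 * rr e n * (rr e n + 1))
        (fun z => decide (θ ≤ cnt (sl e n D) (blk z))) := fun D hD θ =>
    h n (rr e n) n (fun i => i.val % (n + 1)) D hD θ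
  set s : ℕ := rr e n * (4 * (n + 1) ^ 3 + 2 * n) + 2 * rr e n * (rr e n + 1) with hs
  have ht := CPX_const hn true
  have hf := CPX_const hn false
  have hlow : MC (rr e n * n) (2 * s + 1) (tLow e n) :=
    CPX_mono (CPX_and (hT _ ht (a1 e n)) (hT _ hf (a0 e n))) (by omega)
  have hhi0 : MC (rr e n * n) s (tHi0 e n) := hT _ hf (b0 e n)
  have hhi : MC (rr e n * n) (2 * s + 1) (tHi e n C θ) :=
    CPX_mono (CPX_or hhi0 (hT C hC θ)) (by omega)
  exact ⟨hlow, CPX_mono hhi0 (by omega), hhi⟩

end Pool.Agent.H547R7
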