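import Pool.Agent.H670LG.Stm3

set_option autoImplicit false

namespace Pool.Agent.H547R7

open Pool.Agent.H547R6 Pool.Agent.NPC Pool.Agent.H424R2.PPAD

/-- the dual of a function -/
def DUA_d {n : ℕ} (f : BF n) : BF n := fun x => !f (fun i => !x i)

theorem DUA_avail {n : ℕ} {l : List (BF n)} {f : BF n} (h : Avail l f) :
    Avail (l.map DUA_d) (DUA_d f) := by
  rcases h with h | ⟨i, rfl⟩
  · exact Or.inl (List.mem_map_of_mem h)
  · right
    exact ⟨i, by funext x; simp [DUA_d]⟩

theorem DUA_gates {B : Set BFun} {n : ℕ} {l : List (BF n)} (h : Gates (dualB B) n l) :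
    Gates B n (l.map DUA_d) := by
  induction h with
  | nil => exact Gates.nil
  | gate l k f g hf hg hl ih =>
    have e : DUA_d (fun x => f fun j => g j x) =
        fun x => (fun y : Fin k → Bool => !f (fun i => !y i)) (fun j => DUA_d (g j) x) := by
      funext x
      simp [DUA_d]
    rw [List.map_cons, e]
    have hf' : (⟨k, fun y : Fin k → Bool => !f (fun i => !y i)⟩ : BFun) ∈ B := hf
    exact Gates.gate (B := B) _ k _ (fun j => DUA_d (g j)) hf' (fun j => DUA_avail (hg j)) ih

theorem DUA_computes {B : Set BFun} {n s : ℕ} {C : BF n} (h : Computes (dualB B) n s C) :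
    Computes B n s (DUA_d C) := by
  obtain ⟨l, h1, h2, h3⟩ := h
  exact ⟨l.map DUA_d, DUA_gates h1, by rw [List.length_map]; exact h2, DUA_avail h3⟩

theorem DUA_pr_not {Ω : Type} [Fintype Ω] [Nonempty Ω] (p : Ω → Bool) :
    pr (fun x => !p x) = 1 - pr p := by
  classical
  unfold pr
  have hc : (0 : ℝ) < Fintype.card Ω := by exact_mod_cast Fintype.card_pos
  have h1 : ((Finset.univ.filter fun x => (!p x) = true).card : ℝ) +
      ((Finset.univ.filter fun x => p x = true).card : ℝ) = Fintype.card Ω := by
    have h2 := Finset.card_filter_add_card_filter_not (s := (Finset.univ : Finset Ω))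
      (fun x => p x = true)
    have h3 : (Finset.univ.filter fun x => (!p x) = true) =
        Finset.univ.filter fun x => ¬ (p x = true) := by
      apply Finset.filter_congr
      intro x _
      simp
    rw [h3]
    rw [Finset.card_univ] at h2
    rw [← h2]
    push_cast
    ring
  field_simp
  linarith

theorem DUA_pr_compl {n : ℕ} (C : BF n) : pr (fun x : Fin n → Bool => C (fun i => !x i)) = pr C := by
  classical
  unfold pr
  congr 2
  apply Finset.card_bij' (fun (x : Fin n → Bool) _ => fun i => !x i)
    (fun (x : Fin n → Bool) _ => fun i => !x i)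
  · intro x hx
    simpa using hx
  · intro x hx
    simpa using hx
  · intro x _
    funext i
    simp
  · intro x _
    funext i
    simp

theorem t_DUA : S_DUA := by
  rintro B ε ⟨d, G, hd, hG, c, m₀, h⟩
  refine ⟨d, fun m s => (G m s).map not, hd, ?_, c, m₀, fun m hm => ?_⟩
  · apply PTime.of_poly
    exact NPC.Poly.map (F := fun _ b => !b) hG.toPoly (NPC.Poly.not (NPC.Poly.snd NPC.Poly.id))
  · obtain ⟨h1, h2, h3, h4⟩ := h m hm
    refine ⟨h1, h2, fun s hs => by rw [List.length_map]; exact h3 s hs, fun C hC => ?_⟩
    have h5 := h4 (DUA_d C) (DUA_computes hC)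
    have e1 : (fun s : Fin (d m) → Bool => C (vec m ((G m (List.ofFn s)).map not))) =
        fun s => !(DUA_d C (vec m (G m (List.ofFn s)))) := by
      funext s
      simp only [DUA_d, Bool.not_not]
      congr 1
      funext i
      have hlen : (G m (List.ofFn s)).length = m := h3 _ (List.length_ofFn)
      simp only [vec]
      rw [List.getD_eq_getElem _ _ (by rw [List.length_map, hlen]; exact i.2),
        List.getD_eq_getElem _ _ (by rw [hlen]; exact i.2), List.getElem_map]
    have e2 : pr C = 1 - pr (DUA_d C) := by
      rw [← DUA_pr_not, ← DUA_pr_compl C]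
      congr 1
      funext x
      simp [DUA_d]
    rw [e1, DUA_pr_not, e2]
    rw [abs_sub_comm] at h5
    calc _ = |pr (DUA_d C) - pr (fun s : Fin (d m) → Bool => DUA_d C (vec m (G m (List.ofFn s))))| := by
          congr 1
          ring
      _ ≤ ε := h5

end Pool.Agent.H547R7
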