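import Pool.Agent.H670LG.Stm3
import Pool.Agent.H547R7.T_PRJ

/-!
Task EAS: the explicit generator against the circuits over the easy gate sets.
-/

set_option autoImplicit false

namespace Pool.Agent.H547R7

open Pool.Agent.H547R6 Pool.Agent.NPC Pool.Agent.H424R2.PPAD

/-- the length bound -/
def EAS_L (m : ℕ) : ℕ := m.bits.length + 1
/-- tripling step -/
def EAS_F (L p : ℕ) : ℕ := if p < L then 3 * p else p
/-- a power of three which is at least `EAS_L m` -/
def EAS_p (m : ℕ) : ℕ := (EAS_F (EAS_L m))^[EAS_L m] 1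
/-- the order of the cyclic group -/
def EAS_n (m : ℕ) : ℕ := 3 * EAS_p m
/-- seed length -/
def EAS_d (m : ℕ) : ℕ := 2 * EAS_n m + 1
/-- the generator -/
def EAS_G (m : ℕ) (s : List Bool) : List Bool :=
  (List.range m).map fun i => xor (sbit (EAS_n m) s (min i m)) (s.getD (2 * EAS_n m) false)

theorem EAS_iter (L : ℕ) (hL : 1 ≤ L) (k : ℕ) :
    ∃ j, (EAS_F L)^[k] 1 = 3 ^ j ∧ (3 ^ j < L → j = k) ∧ 3 ^ j ≤ 3 * L := by
  induction k with
  | zero => exact ⟨0, rfl, fun _ => rfl, by simp; omega⟩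
  | succ k ih =>
    obtain ⟨j, h1, h2, h3⟩ := ih
    rw [Function.iterate_succ_apply', h1]
    unfold EAS_F
    by_cases h : 3 ^ j < L
    · rw [if_pos h]
      refine ⟨j + 1, by rw [pow_succ]; ring, fun _ => by rw [h2 h], ?_⟩
      rw [pow_succ]
      omega
    · rw [if_neg h]
      exact ⟨j, rfl, fun h' => absurd h' h, h3⟩

theorem EAS_p_spec (m : ℕ) : ∃ l, EAS_p m = 3 ^ l ∧ EAS_L m ≤ 3 ^ l ∧ 3 ^ l ≤ 3 * EAS_L m := by
  obtain ⟨j, h1, h2, h3⟩ := EAS_iter (EAS_L m) (by unfold EAS_L; omega) (EAS_L m)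
  refine ⟨j, h1, ?_, h3⟩
  by_contra h
  push Not at h
  have h4 := h2 h
  rw [h4] at h
  exact absurd h (not_lt.2 (Nat.lt_pow_self (by norm_num)).le)

theorem EAS_L_le (m : ℕ) : EAS_L m ≤ Nat.log 2 m + 2 := by
  unfold EAS_L
  rw [Nat.size_eq_bits_len]
  have : m.size ≤ Nat.log 2 m + 1 := Nat.size_le.2 (Nat.lt_pow_succ_log_self (by norm_num) m)
  omega

theorem EAS_lt (m : ℕ) : m < 2 ^ (EAS_L m - 1) := by
  unfold EAS_L
  rw [Nat.size_eq_bits_len]
  exact Nat.lt_size_self m

theorem EAS_d_le (m : ℕ) : EAS_d m ≤ 18 * Nat.log 2 m + 37 := by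
  obtain ⟨l, h1, -, h3⟩ := EAS_p_spec m
  have h4 := EAS_L_le m
  unfold EAS_d EAS_n
  rw [h1]
  omega

theorem EAS_big (k : ℕ) (hk : 8 ≤ k) : 18 * k + 37 < 2 ^ k := by
  induction k, hk using Nat.le_induction with
  | base => norm_num
  | succ k hk ih => rw [pow_succ]; omega

theorem EAS_par (n : ℕ) {f g : ℕ → Bool} (h : ∀ i < n, f i = g i) : par n f = par n g := by
  unfold par
  have : (List.range n).countP f = (List.range n).countP g := by
    apply List.countP_congr
    intro i hi
    rw [h i (List.mem_range.1 hi)]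
  rw [this]

theorem EAS_pw (n : ℕ) {a b : List Bool} (h : ∀ i < n, a.getD i false = b.getD i false) (k : ℕ) :
    pw n a k = pw n b k := by
  induction k with
  | zero => rfl
  | succ k ih =>
    rw [pw, pw, ih]
    unfold conv
    apply List.map_congr_left
    intro j _
    apply EAS_par
    intro i hi
    rw [h i hi]

theorem EAS_sbit (n : ℕ) {a b : List Bool} (h : ∀ i < 2 * n, a.getD i false = b.getD i false)
    (k : ℕ) : sbit n a k = sbit n b k := by
  unfold sbit
  apply EAS_par
  intro j hj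
  rw [EAS_pw n (fun i hi => h i (by omega)), h (n + j) (by omega)]

/-! ### polynomial time -/

theorem EAS_polyL : Poly (fun u : List Bool => EAS_L u.length) := by
  have h : Poly (fun u : List Bool => (u.length).bits) := NPC.Poly.natBits (NPC.Poly.length NPC.Poly.id)
  have h2 : Poly (fun u : List Bool => (u.length).bits.length + 1) :=
    NPC.Poly.add (NPC.Poly.length h) (NPC.Poly.const 1)
  exact h2

theorem EAS_L_le_len (m : ℕ) : EAS_L m ≤ m + 1 := by
  unfold EAS_L
  rw [Nat.size_eq_bits_len]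
  have := NPC.Poly.size_le_self m
  omega

theorem EAS_uL : UPoly (fun u : List Bool => EAS_L u.length) :=
  UPoly.of_le EAS_polyL (UPoly.add (UPoly.length NPC.Poly.id) (UPoly.const 1))
    fun _ => EAS_L_le_len _

theorem EAS_polyp : Poly (fun u : List Bool => EAS_p u.length) := by
  have hF : Poly (fun q : List Bool × ℕ => EAS_F (EAS_L q.1.length) q.2) := by
    unfold EAS_F
    have h1 : Poly (fun q : List Bool × ℕ => EAS_L q.1.length) :=
      EAS_polyL.comp (NPC.Poly.fst NPC.Poly.id)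
    have h2 : Poly (fun q : List Bool × ℕ => q.2) := NPC.Poly.snd NPC.Poly.id
    exact NPC.Poly.ite (NPC.Poly.decide_lt h2 h1) (NPC.Poly.mul (NPC.Poly.const 3) h2) h2
  have hl : Poly (fun u : List Bool => List.replicate (EAS_L u.length) ()) := EAS_uL
  have h := NPC.Poly.iterLen (l := fun u : List Bool => List.replicate (EAS_L u.length) ())
    (s := fun _ => (1 : ℕ)) (F := fun (u : List Bool) (p : ℕ) => EAS_F (EAS_L u.length) p)
    hl (NPC.Poly.const 1) hF (Polynomial.C 12 * (Polynomial.X + 1) + 1) ?_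
  · refine h.congr fun u => ?_
    rw [List.length_replicate]
    rfl
  · intro u k _
    obtain ⟨j, h1, -, h3⟩ := EAS_iter (EAS_L u.length) (by unfold EAS_L; omega) k
    have h4 := sz_nat_le (3 ^ j)
    have h5 := NPC.Poly.size_le_self (3 ^ j)
    have h6 := EAS_L_le_len u.length
    have h7 := length_lt_sz u
    have h8 : (fun p : ℕ => EAS_F (EAS_L u.length) p)^[k] 1 = 3 ^ j := h1
    rw [h8]
    simp only [Polynomial.eval_add, Polynomial.eval_mul, Polynomial.eval_C, Polynomial.eval_X,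
      Polynomial.eval_one]
    omega

theorem EAS_p_le (m : ℕ) : EAS_p m ≤ 3 * (m + 1) := by
  obtain ⟨l, h1, -, h3⟩ := EAS_p_spec m
  have := EAS_L_le_len m
  rw [h1]
  omega

theorem EAS_un : UPoly (fun u : List Bool => EAS_n u.length) := by
  have h1 : UPoly (fun u : List Bool => EAS_p u.length) :=
    UPoly.of_le EAS_polyp (UPoly.mul (UPoly.const 3)
      (UPoly.add (UPoly.length NPC.Poly.id) (UPoly.const 1))) fun u => EAS_p_le _
  exact UPoly.mul (UPoly.const 3) h1

theorem EAS_ptd : PTime (fun u : List Bool => EAS_d u.length) := by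
  apply PTime.of_poly
  have h : UPoly (fun u : List Bool => 2 * EAS_n u.length + 1) :=
    UPoly.add (UPoly.mul (UPoly.const 2) EAS_un) (UPoly.const 1)
  exact h.toPoly

theorem EAS_rep {α : Type} [TEnc α] {n : α → ℕ} (hn : UPoly n) :
    Poly (fun a => List.replicate (n a) false) := by
  have h : Poly (fun a => List.replicate (n a) ()) := hn
  refine (NPC.Poly.map (F := fun _ _ => false) h (NPC.Poly.const false)).congr fun a => ?_
  simp

theorem EAS_ptG (hSBP : S_SBP) :
    PTime (fun p : List Bool × List Bool => EAS_G p.1.length p.2) := by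
  apply PTime.of_poly
  have hS := hSBP.toPoly
  have hlen : UPoly (fun p : List Bool × List Bool => p.1.length) :=
    UPoly.length (NPC.Poly.fst NPC.Poly.id)
  have hin : Poly (fun q : (List Bool × List Bool) × ℕ =>
      xor (sbit (EAS_n q.1.1.length) q.1.2 (min q.2 q.1.1.length))
        (q.1.2.getD (2 * EAS_n q.1.1.length) false)) := by
    have hn : UPoly (fun q : (List Bool × List Bool) × ℕ => EAS_n q.1.1.length) :=
      EAS_un.comp (NPC.Poly.fst (NPC.Poly.fst NPC.Poly.id))
    have hs : Poly (fun q : (List Bool × List Bool) × ℕ => q.1.2) := NPC.Poly.snd (NPC.Poly.fst NPC.Poly.id)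
    have hl : UPoly (fun q : (List Bool × List Bool) × ℕ => q.1.1.length) :=
      UPoly.length (NPC.Poly.fst (NPC.Poly.fst NPC.Poly.id))
    have hmin : UPoly (fun q : (List Bool × List Bool) × ℕ => min q.2 q.1.1.length) :=
      UPoly.of_le (NPC.Poly.min (NPC.Poly.snd NPC.Poly.id) hl.toPoly) hl fun q => min_le_right _ _
    refine NPC.Poly.xor ?_ ?_
    · refine (NPC.Poly.comp hS (NPC.Poly.pair (EAS_rep hn) (NPC.Poly.pair hs (EAS_rep hmin)))).congr ?_
      intro q
      simp only [List.length_replicate]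
    · exact NPC.Poly.getD hs (UPoly.toPoly (UPoly.mul (UPoly.const 2) hn)) (NPC.Poly.const false)
  exact NPC.Poly.map (F := fun (p : List Bool × List Bool) (i : ℕ) =>
      xor (sbit (EAS_n p.1.length) p.2 (min i p.1.length))
        (p.2.getD (2 * EAS_n p.1.length) false)) hlen.range hin

/-! ### the advantage -/

theorem EAS_alg (hALG : S_ALG) (l m n : ℕ) (hn : n = 3 ^ (l + 1)) (T : Finset (Fin m))
    (hT : T.Nonempty) :
    |pr (fun w : Fin (2 * n) → Bool => decide ((T.filter fun i : Fin m =>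
      sbit n (List.ofFn w) i = true).card % 2 = 1)) - 1 / 2| ≤ (m : ℝ) / 2 ^ (2 * 3 ^ l) := by
  subst hn
  have h := hALG l m (T.map Fin.valEmbedding) (by simpa using hT) (by
    intro i hi
    rw [Finset.mem_map] at hi
    obtain ⟨j, -, rfl⟩ := hi
    exact Finset.mem_range.2 j.2)
  refine le_trans (le_of_eq ?_) h
  congr 3
  funext w
  congr 3
  rw [Finset.filter_map, Finset.card_map]
  rfl

theorem EAS_adv (hALG : S_ALG) (hFOO : S_FOO) (m : ℕ) (hm : 1 ≤ m) (B : Set BFun) (s : ℕ)
    (C : BF m) (hB : B ⊆ Aff ∨ B ⊆ Conj ∨ B ⊆ Disj ∨ B ⊆ SelfDual) (hC : Computes B m s C) :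
    |pr (fun s : Fin (EAS_d m) → Bool => C (vec m (EAS_G m (List.ofFn s)))) - pr C| ≤ 1 / m := by
  obtain ⟨l, h1, h2, -⟩ := EAS_p_spec m
  have hn : EAS_n m = 3 ^ (l + 1) := by
    unfold EAS_n
    rw [h1, pow_succ]; ring
  set n := EAS_n m with hndef
  -- the small-bias distribution
  have hm0 : (0 : ℝ) < m := by exact_mod_cast hm
  have hfoo := hFOO (Fin (2 * n) → Bool) m (fun w i => sbit n (List.ofFn w) i)
    ((m : ℝ) / 2 ^ (2 * 3 ^ l)) (by positivity) ?_ B s C hB hC
  · -- the bound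
    have hb : 2 * ((m : ℝ) / 2 ^ (2 * 3 ^ l)) ≤ 1 / m := by
      have h3 : (m : ℝ) ^ 2 * 2 ≤ 2 ^ (2 * 3 ^ l) := by
        have h4 : m < 2 ^ (EAS_L m - 1) := EAS_lt m
        have h5 : (2 : ℕ) ^ (2 * (EAS_L m - 1) + 1) ≤ 2 ^ (2 * 3 ^ l) :=
          Nat.pow_le_pow_right (by norm_num) (by
            have : 1 ≤ EAS_L m := by unfold EAS_L; omega
            omega)
        have h6 : m ^ 2 * 2 ≤ 2 ^ (2 * (EAS_L m - 1) + 1) := by
          have h7 : (2 : ℕ) ^ (2 * (EAS_L m - 1) + 1) = (2 ^ (EAS_L m - 1)) ^ 2 * 2 := by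
            rw [pow_succ, mul_comm 2 (EAS_L m - 1), pow_mul]
          rw [h7]
          exact Nat.mul_le_mul_right _ (Nat.pow_le_pow_left h4.le 2)
        exact_mod_cast h6.trans h5
      rw [← mul_div_assoc, div_le_div_iff₀ (by positivity) hm0]
      nlinarith
    refine le_trans (le_of_eq ?_) (hfoo.trans hb)
    congr 2
    -- transfer along the bijection
    let e : ((Fin (2 * n) → Bool) × Bool) ≃ (Fin (2 * n + 1) → Bool) :=
      (Equiv.prodComm _ _).trans (Fin.snocEquiv fun _ : Fin (2 * n + 1) => Bool)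
    have he := PRJ_equiv e (fun s : Fin (2 * n + 1) → Bool =>
      C (vec m (EAS_G m (List.ofFn s))))
    have hd : EAS_d m = 2 * n + 1 := rfl
    have hgoal : pr (fun s : Fin (EAS_d m) → Bool => C (vec m (EAS_G m (List.ofFn s)))) =
        pr (fun s : Fin (2 * n + 1) → Bool => C (vec m (EAS_G m (List.ofFn s)))) := rfl
    rw [hgoal, ← he]
    congr 1
    funext w
    congr 1
    funext i
    have hew : e w = Fin.snoc (α := fun _ => Bool) w.1 w.2 := rfl
    rw [hew]
    have hlast : (List.ofFn (Fin.snoc (α := fun _ => Bool) w.1 w.2)).getD (2 * n) false = w.2 := by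
      rw [List.getD_eq_getElem _ _ (by simp)]
      rw [List.getElem_ofFn]
      exact Fin.snoc_last (α := fun _ => Bool) w.2 w.1
    have hfst : ∀ j < 2 * n, (List.ofFn (Fin.snoc (α := fun _ => Bool) w.1 w.2)).getD j false =
        (List.ofFn w.1).getD j false := by
      intro j hj
      rw [List.getD_eq_getElem _ _ (by simp; omega), List.getD_eq_getElem _ _ (by simp; omega)]
      rw [List.getElem_ofFn, List.getElem_ofFn]
      exact Fin.snoc_castSucc (α := fun _ => Bool) w.2 w.1 ⟨j, hj⟩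
    have hvec : ∀ (S : List Bool) (i : Fin m), vec m (EAS_G m S) i =
        xor (sbit n S i) (S.getD (2 * n) false) := by
      intro S i
      unfold vec EAS_G
      rw [List.getD_eq_getElem _ _ (by simp)]
      rw [List.getElem_map, List.getElem_range, min_eq_left i.2.le]
    rw [hvec, hlast, EAS_sbit n hfst]
  · intro T hT
    exact EAS_alg hALG l m n hn T hT

theorem t_EAS (hALG : S_ALG) (hFOO : S_FOO) (hSBP : S_SBP) : S_EAS := by
  refine ⟨EAS_d, EAS_G, EAS_ptd, EAS_ptG hSBP, 55, 256, fun m hm => ⟨?_, ?_, ?_, ?_⟩⟩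
  · have h1 := EAS_d_le m
    have h2 : 8 ≤ Nat.log 2 m := by
      have : Nat.log 2 256 ≤ Nat.log 2 m := Nat.log_mono_right hm
      have h3 : Nat.log 2 256 = 8 := by norm_num [Nat.log]
      omega
    omega
  · have h1 := EAS_d_le m
    have h2 : 8 ≤ Nat.log 2 m := by
      have : Nat.log 2 256 ≤ Nat.log 2 m := Nat.log_mono_right hm
      have h3 : Nat.log 2 256 = 8 := by norm_num [Nat.log]
      omega
    have h4 := EAS_big _ h2
    have h5 : 2 ^ Nat.log 2 m ≤ m := Nat.pow_log_le_self 2 (by omega)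
    omega
  · intro s _
    simp [EAS_G]
  · rintro C ⟨B, s, hB, hC⟩
    exact EAS_adv hALG hFOO m (by omega) B s C hB hC

end Pool.Agent.H547R7
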