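import Pool.Agent.H670LG.Stm3

set_option autoImplicit false

/-!
# Sum of the probabilities of the slice functions
-/

namespace Pool.Agent.H547R7

open Pool.Agent.H547R6 Pool.Agent.NPC Pool.Agent.H424R2.PPAD

lemma EXP_pr {Ω : Type} [Fintype Ω] (p : Ω → Bool) :
    pr p = (∑ x : Ω, if p x = true then (1 : ℝ) else 0) / Fintype.card Ω := by
  unfold pr
  rw [Finset.card_filter]
  push_cast
  rfl

lemma EXP_wt_le {n : ℕ} (x : Fin n → Bool) : wt x ≤ n := by
  unfold wt
  exact (Finset.card_le_univ _).trans (by simp)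

lemma EXP_pt (n w : ℕ) (c : Bool) (hw : w ≤ n) :
    ∑ k ∈ Finset.range (n + 1), (if (decide (k < w) || (decide (w = k) && c)) = true then (1 : ℝ) else 0) =
      w + if c = true then 1 else 0 := by
  have h1 : ∀ k ∈ Finset.range (n + 1),
      (if (decide (k < w) || (decide (w = k) && c)) = true then (1 : ℝ) else 0) =
        (if k < w then 1 else 0) + (if k = w then (if c = true then (1 : ℝ) else 0) else 0) := by
    intro k _
    rcases lt_trichotomy k w with h | h | h
    · simp [h, h.ne, h.ne']
    · subst h; cases c <;> simp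
    · simp [h.ne, h.ne', not_lt.2 h.le]
  rw [Finset.sum_congr rfl h1, Finset.sum_add_distrib]
  congr 1
  · rw [← Finset.sum_filter]
    have : (Finset.range (n + 1)).filter (fun k => k < w) = Finset.range w := by
      ext k; simp; omega
    rw [this]; simp
  · rw [Finset.sum_ite_eq']
    simp [Nat.lt_succ_of_le hw]

lemma EXP_wt_compl {n : ℕ} (x : Fin n → Bool) : wt (fun i => !x i) + wt x = n := by
  unfold wt
  have := Finset.card_filter_add_card_filter_not (s := (Finset.univ : Finset (Fin n)))
    (fun i => x i = true)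
  rw [Finset.card_univ, Fintype.card_fin] at this
  have h2 : (Finset.univ.filter fun i => (!x i) = true) = (Finset.univ.filter fun i => ¬ x i = true) := by
    ext i; simp
  rw [h2]; omega

lemma EXP_sum_wt (n : ℕ) : ∑ x : Fin n → Bool, (wt x : ℝ) = (n : ℝ) / 2 * 2 ^ n := by
  have h1 : ∑ x : Fin n → Bool, (wt x : ℝ) = ∑ x : Fin n → Bool, (wt (fun i => !x i) : ℝ) := by
    refine (Equiv.sum_comp (Equiv.piCongrRight (fun _ : Fin n => Equiv.boolNot))
      (fun x : Fin n → Bool => (wt x : ℝ))).symm.trans ?_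
    rfl
  have h2 : ∑ x : Fin n → Bool, (wt x : ℝ) + ∑ x : Fin n → Bool, (wt x : ℝ) = n * 2 ^ n := by
    nth_rw 1 [h1]
    rw [← Finset.sum_add_distrib]
    have : ∀ x ∈ (Finset.univ : Finset (Fin n → Bool)), ((wt (fun i => !x i) : ℝ) + (wt x : ℝ)) = n := by
      intro x _
      have := EXP_wt_compl x
      exact_mod_cast this
    rw [Finset.sum_congr rfl this]
    simp
    ring
  linarith

theorem t_EXP : S_EXP := by
  intro n C
  have hcard : (Fintype.card (Fin n → Bool) : ℝ) = 2 ^ n := by simp
  simp_rw [EXP_pr]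
  rw [← Finset.sum_div, Finset.sum_comm]
  have h1 : ∀ x ∈ (Finset.univ : Finset (Fin n → Bool)),
      ∑ k ∈ Finset.range (n + 1), (if slice n k C x = true then (1 : ℝ) else 0) =
        wt x + if C x = true then 1 else 0 := by
    intro x _
    exact EXP_pt n (wt x) (C x) (EXP_wt_le x)
  rw [Finset.sum_congr rfl h1, Finset.sum_add_distrib, EXP_sum_wt, hcard]
  have h2 : (2 : ℝ) ^ n ≠ 0 := by positivity
  field_simp

end Pool.Agent.H547R7
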