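import Pool.Agent.H670LG.Stm3

/-!
# Task FO1: closure properties of the functions computed over an easy gate set
-/

set_option autoImplicit false

namespace Pool.Agent.H547R7

open Pool.Agent.H547R6

theorem FO1_ind {B : Set BFun} {n : ℕ} (P : BF n → Prop) (hvar : ∀ i, P (fun x => x i))
    (hgate : ∀ (k : ℕ) (f : (Fin k → Bool) → Bool), (⟨k, f⟩ : BFun) ∈ B → ∀ g : Fin k → BF n,
      (∀ j, P (g j)) → P (fun x => f fun j => g j x))
    (l : List (BF n)) (hl : Gates B n l) : ∀ C, Avail l C → P C := by
  induction hl with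
  | nil =>
    rintro C (h | ⟨i, rfl⟩)
    · exact absurd h List.not_mem_nil
    · exact hvar i
  | gate l k f g hf hg hl ih =>
    rintro C (h | ⟨i, rfl⟩)
    · rcases List.mem_cons.1 h with rfl | h
      · exact hgate k f hf g fun j => ih _ (hg j)
      · exact ih C (Or.inl h)
    · exact hvar i

theorem t_FO1 : S_FO1 := by
  rintro B n s C ⟨l, hl, -, hC⟩
  refine ⟨fun hB => ?_, fun hB => ?_, fun hB => ?_, fun hB => ?_⟩
  · refine FO1_ind (fun C => ∀ x y z, C (fun i => xor (x i) (xor (y i) (z i))) =
      xor (C x) (xor (C y) (C z))) (fun _ _ _ _ => rfl) ?_ l hl C hC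
    intro k f hf g hg x y z
    have h1 := hB hf (fun j => g j x) (fun j => g j y) (fun j => g j z)
    rw [← h1]
    exact congrArg f (funext fun j => hg j x y z)
  · refine FO1_ind (fun C => ∀ x y, C (fun i => x i && y i) = (C x && C y))
      (fun _ _ _ => rfl) ?_ l hl C hC
    intro k f hf g hg x y
    have h1 := hB hf (fun j => g j x) (fun j => g j y)
    rw [← h1]
    exact congrArg f (funext fun j => hg j x y)
  · refine FO1_ind (fun C => ∀ x y, C (fun i => x i || y i) = (C x || C y))
      (fun _ _ _ => rfl) ?_ l hl C hC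
    intro k f hf g hg x y
    have h1 := hB hf (fun j => g j x) (fun j => g j y)
    rw [← h1]
    exact congrArg f (funext fun j => hg j x y)
  · refine FO1_ind (fun C => ∀ x, C (fun i => !x i) = !C x) (fun _ _ => rfl) ?_ l hl C hC
    intro k f hf g hg x
    have h1 := hB hf (fun j => g j x)
    rw [← h1]
    exact congrArg f (funext fun j => hg j x)

end Pool.Agent.H547R7
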