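import Pool.Agent.H670LG.Stm3

/-!
# Task FO2 of project H670-LG (helper811)
-/

set_option autoImplicit false

namespace Pool.Agent.H547R7

open Pool.Agent.H547R6 Pool.Agent.NPC Pool.Agent.H424R2.PPAD

theorem FO2_aff {n : ℕ} (C : (Fin n → Bool) → Bool)
    (h : ∀ x y z : Fin n → Bool, C (fun i => xor (x i) (xor (y i) (z i))) = xor (C x) (xor (C y) (C z))) :
    ∃ (T : Finset (Fin n)) (b : Bool), ∀ x : Fin n → Bool, C x =
      xor b (decide ((T.filter fun i => x i = true).card % 2 = 1)) := by
  classical
  obtain ⟨b, hb⟩ : ∃ b, b = C (fun _ => false) := ⟨_, rfl⟩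
  have hadd : ∀ x y : Fin n → Bool, C (fun i => xor (x i) (y i)) = xor (C x) (xor (C y) b) := by
    intro x y
    have h1 := h x y (fun _ => false)
    simp only [Bool.xor_false] at h1
    rw [h1, hb]
  obtain ⟨T, hT⟩ : ∃ T : Finset (Fin n), ∀ i, i ∈ T ↔ xor (C (fun j => decide (j = i))) b = true :=
    ⟨Finset.univ.filter (fun i => xor (C (fun j => decide (j = i))) b = true), fun i => by simp⟩
  refine ⟨T, b, ?_⟩
  have key : ∀ S : Finset (Fin n), C (fun i => decide (i ∈ S)) =
      xor b (decide ((T.filter fun i => decide (i ∈ S) = true).card % 2 = 1)) := by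
    intro S
    induction S using Finset.induction_on with
    | empty => simp [hb]
    | insert a S ha ih =>
      have e1 : (fun i => decide (i ∈ insert a S)) =
          (fun i => xor ((fun i => decide (i ∈ S)) i) ((fun j => decide (j = a)) i)) := by
        funext i
        by_cases hi : i = a
        · subst hi; simp [ha]
        · simp [hi]
      rw [e1, hadd, ih]
      by_cases haT : a ∈ T
      · have h2 := (hT a).mp haT
        have h3 : (T.filter fun i => decide (i ∈ insert a S) = true) =
            insert a (T.filter fun i => decide (i ∈ S) = true) := by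
          ext i
          simp only [decide_eq_true_eq, Finset.mem_filter, Finset.mem_insert]
          constructor
          · rintro ⟨h4, h5 | h5⟩
            · exact Or.inl h5
            · exact Or.inr ⟨h4, h5⟩
          · rintro (h4 | ⟨h4, h5⟩)
            · exact ⟨h4 ▸ haT, Or.inl h4⟩
            · exact ⟨h4, Or.inr h5⟩
        rw [h3, Finset.card_insert_of_notMem (by simp [ha]), h2]
        generalize (T.filter fun i => decide (i ∈ S) = true).card = c
        rcases Nat.mod_two_eq_zero_or_one c with h5 | h5
        · have h6 : (c + 1) % 2 = 1 := by omega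
          simp [h5, h6]
        · have h6 : (c + 1) % 2 = 0 := by omega
          simp [h5, h6]
      · have h2 : xor (C (fun j => decide (j = a))) b = false := by
          rw [hT] at haT
          simpa using haT
        have h4 : (T.filter fun i => decide (i ∈ insert a S) = true) =
            (T.filter fun i => decide (i ∈ S) = true) := by
          apply Finset.filter_congr
          intro i hi
          have hia : i ≠ a := fun h => haT (h ▸ hi)
          simp [hia]
        rw [h4, h2, Bool.xor_false]
  intro x
  have e : x = fun i => decide (i ∈ Finset.univ.filter (fun i => x i = true)) := by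
    funext i
    simp
  have h1 := key (Finset.univ.filter (fun i => x i = true))
  rw [← e] at h1
  rw [h1]
  congr 3
  simp

theorem FO2_and {n : ℕ} (C : (Fin n → Bool) → Bool)
    (h : ∀ x y : Fin n → Bool, C (fun i => x i && y i) = (C x && C y)) :
    (∀ x, C x = false) ∨ ∃ T : Finset (Fin n), ∀ x : Fin n → Bool, C x = decide (∀ i ∈ T, x i = true) := by
  classical
  by_cases h0 : ∀ x, C x = false
  · exact Or.inl h0
  right
  push Not at h0
  obtain ⟨x₀, hx₀⟩ := h0
  replace hx₀ : C x₀ = true := by simpa using hx₀
  have h1 : C (fun _ => true) = true := by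
    have h2 := h x₀ (fun _ => true)
    simp only [Bool.and_true] at h2
    rw [hx₀] at h2
    simpa using h2.symm
  obtain ⟨T, hT⟩ : ∃ T : Finset (Fin n), ∀ i, i ∈ T ↔ C (fun j => !decide (j = i)) = false :=
    ⟨Finset.univ.filter (fun i => C (fun j => !decide (j = i)) = false), fun i => by simp⟩
  refine ⟨T, ?_⟩
  have key : ∀ S : Finset (Fin n), C (fun i => !decide (i ∈ S)) = decide (∀ i ∈ T, i ∉ S) := by
    intro S
    induction S using Finset.induction_on with
    | empty => simp [h1]
    | insert a S ha ih =>
      have e1 : (fun i => !decide (i ∈ insert a S)) =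
          (fun i => (fun i => !decide (i ∈ S)) i && (fun j => !decide (j = a)) i) := by
        funext i
        by_cases hi : i = a
        · subst hi; simp
        · simp [hi]
      rw [e1, h, ih]
      by_cases haT : a ∈ T
      · rw [(hT a).mp haT, Bool.and_false]
        symm
        rw [decide_eq_false_iff_not]
        intro h2
        exact h2 a haT (Finset.mem_insert_self a S)
      · have h2 : C (fun j => !decide (j = a)) = true := by
          rw [hT] at haT
          simpa using haT
        rw [h2, Bool.and_true]
        congr 1
        apply propext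
        constructor
        · intro h3 i hi hc
          rcases Finset.mem_insert.mp hc with h4 | h4
          · exact haT (h4 ▸ hi)
          · exact h3 i hi h4
        · intro h3 i hi hc
          exact h3 i hi (Finset.mem_insert_of_mem hc)
  intro x
  have e : x = fun i => !decide (i ∈ Finset.univ.filter (fun i => x i = false)) := by
    funext i
    cases hx : x i <;> simp [hx]
  have h2 := key (Finset.univ.filter (fun i => x i = false))
  rw [← e] at h2
  rw [h2]
  congr 1
  apply propext
  constructor
  · intro h3 i hi
    have h4 := h3 i hi
    simpa using h4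
  · intro h3 i hi hc
    have h4 := h3 i hi
    simp [h4] at hc

theorem t_FO2 : S_FO2 := by
  intro n C
  refine ⟨FO2_aff C, FO2_and C, ?_⟩
  intro h
  have h1 := FO2_and (fun x => !C (fun i => !x i)) (by
    intro x y
    have h2 := h (fun i => !x i) (fun i => !y i)
    simp only [Bool.not_and]
    rw [h2, Bool.not_or])
  rcases h1 with h1 | ⟨T, hT⟩
  · left
    intro x
    have h2 := h1 (fun i => !x i)
    simpa using h2
  · right
    refine ⟨T, ?_⟩
    intro x
    have h2 := hT (fun i => !x i)
    simp only [Bool.not_not] at h2
    rw [← Bool.not_not (C x)]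
    have h3 : (fun i => x i) = x := rfl
    rw [h3] at h2
    rw [h2, ← decide_not]
    congr 1
    apply propext
    push Not
    constructor
    · rintro ⟨i, hi, hxi⟩
      exact ⟨i, hi, by simpa using hxi⟩
    · rintro ⟨i, hi, hxi⟩
      exact ⟨i, hi, by simp [hxi]⟩

end Pool.Agent.H547R7
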