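import Pool.Agent.H670LG.Stm3

/-!
# A small-bias distribution, made symmetric, fools the easy circuits
-/

set_option autoImplicit false
set_option maxHeartbeats 4000000

namespace Pool.Agent.H547R7

open Pool.Agent.H547R6 Pool.Agent.NPC Pool.Agent.H424R2.PPAD

/-- average -/
noncomputable def FOO_E {Ω : Type} [Fintype Ω] (f : Ω → ℝ) : ℝ := (∑ w, f w) / Fintype.card Ω

/-- sign of a bit -/
noncomputable def FOO_sg (b : Bool) : ℝ := if b = true then -1 else 1

theorem FOO_prE {Ω : Type} [Fintype Ω] (p : Ω → Bool) :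
    pr p = FOO_E (fun w => if p w = true then (1 : ℝ) else 0) := by
  unfold pr FOO_E
  rw [Finset.sum_boole]

theorem FOO_prS {Ω : Type} [Fintype Ω] [Nonempty Ω] (p : Ω → Bool) :
    pr p = (1 - FOO_E (fun w => FOO_sg (p w))) / 2 := by
  have hc : (Fintype.card Ω : ℝ) ≠ 0 := by
    exact_mod_cast Fintype.card_ne_zero
  rw [FOO_prE]
  unfold FOO_E
  have h : ∀ w, (if p w = true then (1 : ℝ) else 0) = (1 - FOO_sg (p w)) / 2 := by
    intro w
    cases p w <;> simp [FOO_sg]
  simp_rw [h]
  rw [← Finset.sum_div, Finset.sum_sub_distrib]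
  simp only [Finset.sum_const, Finset.card_univ, nsmul_eq_mul, mul_one]
  field_simp

theorem FOO_par {n : ℕ} (T : Finset (Fin n)) (x : Fin n → Bool) :
    FOO_sg (decide ((T.filter fun i => x i = true).card % 2 = 1)) = ∏ i ∈ T, FOO_sg (x i) := by
  have h1 : ∏ i ∈ T, FOO_sg (x i) = (-1 : ℝ) ^ (T.filter fun i => x i = true).card := by
    unfold FOO_sg
    rw [Finset.prod_ite]
    simp
  rw [h1]
  rcases Nat.even_or_odd (T.filter fun i => x i = true).card with he | ho
  · rw [he.neg_one_pow]
    have : (T.filter fun i => x i = true).card % 2 = 0 := Nat.even_iff.1 he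
    simp [FOO_sg, this]
  · rw [ho.neg_one_pow]
    have : (T.filter fun i => x i = true).card % 2 = 1 := Nat.odd_iff.1 ho
    simp [FOO_sg, this]

theorem FOO_sgxor (a b : Bool) : FOO_sg (xor a b) = FOO_sg a * FOO_sg b := by
  cases a <;> cases b <;> simp [FOO_sg]

theorem FOO_sgnot (a : Bool) : FOO_sg (!a) = - FOO_sg a := by
  cases a <;> simp [FOO_sg]

theorem FOO_sgabs (a : Bool) : |FOO_sg a| = 1 := by
  cases a <;> simp [FOO_sg]

theorem FOO_Esum {Ω ι : Type} [Fintype Ω] (s : Finset ι) (f : ι → Ω → ℝ) :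
    FOO_E (fun w => ∑ i ∈ s, f i w) = ∑ i ∈ s, FOO_E (f i) := by
  unfold FOO_E
  rw [Finset.sum_comm, Finset.sum_div]

theorem FOO_Emul {Ω : Type} [Fintype Ω] (c : ℝ) (f : Ω → ℝ) :
    FOO_E (fun w => c * f w) = c * FOO_E f := by
  unfold FOO_E
  rw [← Finset.mul_sum, mul_div_assoc]

/-- products `∏ (1 + c sg (x i)) / 2` for two distributions with close characters -/
theorem FOO_prod {Ω₁ Ω₂ : Type} [Fintype Ω₁] [Fintype Ω₂] {n : ℕ}
    (X : Ω₁ → Fin n → Bool) (Y : Ω₂ → Fin n → Bool) (β : ℝ)
    (h : ∀ S : Finset (Fin n), |FOO_E (fun w => ∏ i ∈ S, FOO_sg (X w i)) -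
      FOO_E (fun w => ∏ i ∈ S, FOO_sg (Y w i))| ≤ 2 * β) (c : ℝ) (hc : |c| = 1)
    (T : Finset (Fin n)) :
    |FOO_E (fun w => ∏ i ∈ T, ((1 + c * FOO_sg (X w i)) / 2)) -
      FOO_E (fun w => ∏ i ∈ T, ((1 + c * FOO_sg (Y w i)) / 2))| ≤ 2 * β := by
  have key : ∀ x : Fin n → Bool, ∏ i ∈ T, ((1 + c * FOO_sg (x i)) / 2) =
      ∑ S ∈ T.powerset, ((1 / 2) ^ T.card * c ^ S.card) * ∏ i ∈ S, FOO_sg (x i) := by
    intro x
    have h1 : ∀ i ∈ T, ((1 + c * FOO_sg (x i)) / 2) =
        (1 / 2) * (c * FOO_sg (x i) + 1) := by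
      intro i _
      ring
    rw [Finset.prod_congr rfl h1, Finset.prod_mul_distrib, Finset.prod_const,
      Finset.prod_add_one, Finset.mul_sum]
    refine Finset.sum_congr rfl fun S _ => ?_
    rw [Finset.prod_mul_distrib, Finset.prod_const]
    ring
  simp_rw [key]
  rw [FOO_Esum, FOO_Esum, ← Finset.sum_sub_distrib]
  refine (Finset.abs_sum_le_sum_abs _ _).trans ?_
  have hb : ∀ S ∈ T.powerset,
      |FOO_E (fun w => ((1 / 2) ^ T.card * c ^ S.card) * ∏ i ∈ S, FOO_sg (X w i)) -
        FOO_E (fun w => ((1 / 2) ^ T.card * c ^ S.card) * ∏ i ∈ S, FOO_sg (Y w i))| ≤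
        (1 / 2) ^ T.card * (2 * β) := by
    intro S _
    rw [FOO_Emul, FOO_Emul, ← mul_sub, abs_mul, abs_mul, abs_pow, abs_pow, hc, one_pow, mul_one]
    have : |(1 / 2 : ℝ)| = 1 / 2 := by norm_num
    rw [this]
    exact mul_le_mul_of_nonneg_left (h S) (by positivity)
  refine (Finset.sum_le_sum hb).trans ?_
  rw [Finset.sum_const, Finset.card_powerset, nsmul_eq_mul]
  push_cast
  rw [← mul_assoc, ← mul_pow]
  norm_num

theorem FOO_unif {n : ℕ} (S : Finset (Fin n)) (hS : S.Nonempty) :
    FOO_E (fun x : Fin n → Bool => ∏ i ∈ S, FOO_sg (x i)) = 0 := by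
  obtain ⟨i, hi⟩ := hS
  have hs : ∑ x : Fin n → Bool, ∏ j ∈ S, FOO_sg (x j) = 0 := by
    let e : (Fin n → Bool) ≃ (Fin n → Bool) :=
      Function.Involutive.toPerm (fun x => Function.update x i (!x i)) (by
        intro x
        simp)
    have h1 : ∑ x : Fin n → Bool, ∏ j ∈ S, FOO_sg (x j) =
        ∑ x : Fin n → Bool, ∏ j ∈ S, FOO_sg (e x j) :=
      (Equiv.sum_comp e (fun x : Fin n → Bool => ∏ j ∈ S, FOO_sg (x j))).symm
    have h2 : ∀ x : Fin n → Bool, ∏ j ∈ S, FOO_sg (e x j) = - ∏ j ∈ S, FOO_sg (x j) := by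
      intro x
      have he : e x = Function.update x i (!x i) := rfl
      rw [he, ← Finset.mul_prod_erase S _ hi, ← Finset.mul_prod_erase S (fun j => FOO_sg (x j)) hi]
      have h3 : ∏ j ∈ S.erase i, FOO_sg (Function.update x i (!x i) j) =
          ∏ j ∈ S.erase i, FOO_sg (x j) := by
        refine Finset.prod_congr rfl fun j hj => ?_
        rw [Function.update_of_ne (Finset.ne_of_mem_erase hj)]
      rw [h3, Function.update_self, FOO_sgnot]
      ring
    simp_rw [h2] at h1
    rw [Finset.sum_neg_distrib] at h1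
    linarith
  unfold FOO_E
  rw [hs, zero_div]

theorem FOO_bal {Ω : Type} [Fintype Ω] {n : ℕ} (D : Ω → Fin n → Bool) (S : Finset (Fin n)) :
    |FOO_E (fun w : Ω × Bool => ∏ i ∈ S, FOO_sg (xor (D w.1 i) w.2))| ≤
      |FOO_E (fun w : Ω => ∏ i ∈ S, FOO_sg (D w i))| := by
  have h1 : ∀ w : Ω × Bool, ∏ i ∈ S, FOO_sg (xor (D w.1 i) w.2) =
      (∏ i ∈ S, FOO_sg (D w.1 i)) * FOO_sg w.2 ^ S.card := by
    intro w
    rw [← Finset.prod_const, ← Finset.prod_mul_distrib]
    exact Finset.prod_congr rfl fun i _ => FOO_sgxor _ _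
  have h2 : FOO_E (fun w : Ω × Bool => ∏ i ∈ S, FOO_sg (xor (D w.1 i) w.2)) =
      FOO_E (fun w : Ω => ∏ i ∈ S, FOO_sg (D w i)) * ((1 + (-1) ^ S.card) / 2) := by
    unfold FOO_E
    simp_rw [h1]
    rw [Fintype.sum_prod_type]
    simp only [Fintype.sum_bool, FOO_sg, if_true, Fintype.card_prod, Fintype.card_bool]
    simp only [Bool.false_eq_true, if_false, one_pow, mul_one, ← mul_add_one]
    rw [← Finset.sum_mul]
    push_cast
    ring
  rw [h2, abs_mul]
  have h3 : |((1 + (-1 : ℝ) ^ S.card) / 2)| ≤ 1 := by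
    rcases neg_one_pow_eq_or ℝ S.card with h | h <;> rw [h] <;> norm_num
  exact mul_le_of_le_one_right (abs_nonneg _) h3

theorem t_FOO (h1 : S_FO1) (h2 : S_FO2) : S_FOO := by
  intro Ω _ _ n D β hβ hD B s C hB hC
  obtain ⟨hA, hCo, hDi, hSe⟩ := h1 B n s C hC
  obtain ⟨gA, gC, gD⟩ := h2 n C
  -- characters
  have hch : ∀ S : Finset (Fin n),
      |FOO_E (fun w : Ω × Bool => ∏ i ∈ S, FOO_sg (xor (D w.1 i) w.2)) -
        FOO_E (fun x : Fin n → Bool => ∏ i ∈ S, FOO_sg (x i))| ≤ 2 * β := by
    intro S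
    rcases S.eq_empty_or_nonempty with rfl | hS
    · simp only [Finset.prod_empty]
      have e1 : FOO_E (fun _ : Ω × Bool => (1 : ℝ)) = 1 := by
        unfold FOO_E
        simp only [Finset.sum_const, Finset.card_univ, nsmul_eq_mul, mul_one]
        exact div_self (by exact_mod_cast Fintype.card_ne_zero)
      have e2 : FOO_E (fun _ : Fin n → Bool => (1 : ℝ)) = 1 := by
        unfold FOO_E
        simp only [Finset.sum_const, Finset.card_univ, nsmul_eq_mul, mul_one]
        exact div_self (by exact_mod_cast Fintype.card_ne_zero)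
      rw [e1, e2, sub_self, abs_zero]
      positivity
    · rw [FOO_unif S hS, sub_zero]
      refine (FOO_bal D S).trans ?_
      have := hD S hS
      rw [FOO_prS] at this
      simp_rw [FOO_par] at this
      have h3 : (1 - FOO_E (fun w => ∏ i ∈ S, FOO_sg (D w i))) / 2 - 1 / 2 =
          - (FOO_E (fun w => ∏ i ∈ S, FOO_sg (D w i)) / 2) := by ring
      rw [h3, abs_neg, abs_div, abs_two] at this
      linarith
  rcases hB with hB | hB | hB | hB
  · -- affine
    obtain ⟨T, b, hT⟩ := gA (hA hB)
    rw [FOO_prS, FOO_prS]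
    have h3 : ∀ x, FOO_sg (C x) = FOO_sg b * ∏ i ∈ T, FOO_sg (x i) := by
      intro x
      rw [hT x, FOO_sgxor, FOO_par]
    simp_rw [h3]
    rw [FOO_Emul, FOO_Emul]
    have h4 := hch T
    have h5 : (1 - FOO_sg b * FOO_E (fun w : Ω × Bool => ∏ i ∈ T, FOO_sg (xor (D w.1 i) w.2))) / 2 -
        (1 - FOO_sg b * FOO_E (fun x : Fin n → Bool => ∏ i ∈ T, FOO_sg (x i))) / 2 =
        -(FOO_sg b * (FOO_E (fun w : Ω × Bool => ∏ i ∈ T, FOO_sg (xor (D w.1 i) w.2)) -
          FOO_E (fun x : Fin n → Bool => ∏ i ∈ T, FOO_sg (x i))) / 2) := by ring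
    rw [h5, abs_neg, abs_div, abs_mul, FOO_sgabs, one_mul, abs_two]
    linarith
  · -- conjunctions
    rcases gC (hCo hB) with h0 | ⟨T, hT⟩
    · have e1 : (fun w : Ω × Bool => C (fun i => xor (D w.1 i) w.2)) = fun _ => false := by
        funext w
        exact h0 _
      have e2 : C = fun _ => false := funext h0
      rw [e1, e2]
      simp [pr]
      positivity
    · have h3 : ∀ x, (if C x = true then (1 : ℝ) else 0) =
          ∏ i ∈ T, ((1 + (-1) * FOO_sg (x i)) / 2) := by
        intro x
        rw [hT x]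
        by_cases hx : ∀ i ∈ T, x i = true
        · have hd : decide (∀ i ∈ T, x i = true) = true := by
            simp only [decide_eq_true_eq]
            exact hx
          rw [hd, Finset.prod_eq_one]
          · simp
          · intro i hi
            rw [hx i hi]
            norm_num [FOO_sg]
        · simp only [hx, decide_false, Bool.false_eq_true, if_false]
          push Not at hx
          obtain ⟨i, hi, hxi⟩ := hx
          symm
          refine Finset.prod_eq_zero hi ?_
          simp [FOO_sg, hxi]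
      rw [FOO_prE, FOO_prE]
      simp_rw [h3]
      exact FOO_prod _ _ β hch (-1) (by norm_num) T
  · -- disjunctions
    rcases gD (hDi hB) with h0 | ⟨T, hT⟩
    · have e1 : (fun w : Ω × Bool => C (fun i => xor (D w.1 i) w.2)) = fun _ => true := by
        funext w
        exact h0 _
      have e2 : C = fun _ => true := funext h0
      rw [e1, e2]
      have e3 : pr (fun _ : Ω × Bool => true) = 1 := by
        unfold pr
        simp only [Finset.filter_true, Finset.card_univ]
        exact div_self (by exact_mod_cast Fintype.card_ne_zero)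
      have e4 : pr (fun _ : Fin n → Bool => true) = 1 := by
        unfold pr
        simp only [Finset.filter_true, Finset.card_univ]
        exact div_self (by exact_mod_cast Fintype.card_ne_zero)
      rw [e3, e4, sub_self, abs_zero]
      positivity
    · have h3 : ∀ x, FOO_sg (C x) =
          2 * (∏ i ∈ T, ((1 + 1 * FOO_sg (x i)) / 2)) - 1 := by
        intro x
        rw [hT x]
        by_cases hx : ∃ i ∈ T, x i = true
        · obtain ⟨i, hi, hxi⟩ := hx
          rw [Finset.prod_eq_zero hi (by simp [FOO_sg, hxi])]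
          have : decide (∃ i ∈ T, x i = true) = true := by
            simp only [decide_eq_true_eq]
            exact ⟨i, hi, hxi⟩
          rw [this]
          simp [FOO_sg]
        · have hx' : decide (∃ i ∈ T, x i = true) = false := by
            simp only [decide_eq_false_iff_not]
            exact hx
          rw [hx', Finset.prod_eq_one]
          · norm_num [FOO_sg]
          · intro i hi
            push Not at hx
            have := hx i hi
            simp [FOO_sg, this]
      rw [FOO_prS, FOO_prS]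
      simp_rw [h3]
      have h6 : ∀ {Ω' : Type} [Fintype Ω'] [Nonempty Ω'] (f : Ω' → ℝ),
          FOO_E (fun w => 2 * f w - 1) = 2 * FOO_E f - 1 := by
        intro Ω' _ _ f
        unfold FOO_E
        rw [Finset.sum_sub_distrib, ← Finset.mul_sum, sub_div, mul_div_assoc]
        congr 1
        simp only [Finset.sum_const, Finset.card_univ, nsmul_eq_mul, mul_one]
        exact div_self (by exact_mod_cast Fintype.card_ne_zero)
      rw [h6, h6]
      have h7 := FOO_prod (fun (w : Ω × Bool) i => xor (D w.1 i) w.2)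
        (fun (x : Fin n → Bool) i => x i) β hch 1 (by norm_num) T
      have h8 : ∀ a b : ℝ, (1 - (2 * a - 1)) / 2 - (1 - (2 * b - 1)) / 2 = -(a - b) := by
        intro a b
        ring
      rw [h8, abs_neg]
      exact h7
  · -- self-dual
    have hs := hSe hB
    rw [FOO_prS, FOO_prS]
    have e1 : FOO_E (fun w : Ω × Bool => FOO_sg (C fun i => xor (D w.1 i) w.2)) = 0 := by
      unfold FOO_E
      rw [Fintype.sum_prod_type]
      simp only [Fintype.sum_bool]
      have : ∀ w : Ω, FOO_sg (C fun i => xor (D w i) true) + FOO_sg (C fun i => xor (D w i) false) =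
          0 := by
        intro w
        have h3 : (fun i => xor (D w i) true) = fun i => !(D w i) := by
          funext i
          simp
        have h4 : (fun i => xor (D w i) false) = D w := by
          funext i
          simp
        rw [h3, h4, hs, FOO_sgnot]
        ring
      simp_rw [this]
      simp
    have e2 : FOO_E (fun x : Fin n → Bool => FOO_sg (C x)) = 0 := by
      have hsum : ∑ x : Fin n → Bool, FOO_sg (C x) = 0 := by
        let e : (Fin n → Bool) ≃ (Fin n → Bool) :=
          Function.Involutive.toPerm (fun x => fun i => !x i) (by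
            intro x
            funext i
            simp)
        have h3 : ∑ x : Fin n → Bool, FOO_sg (C x) = ∑ x : Fin n → Bool, FOO_sg (C (e x)) :=
          (Equiv.sum_comp e (fun x : Fin n → Bool => FOO_sg (C x))).symm
        have h4 : ∀ x, FOO_sg (C (e x)) = - FOO_sg (C x) := by
          intro x
          have he : e x = fun i => !x i := rfl
          rw [he, hs, FOO_sgnot]
        simp_rw [h4] at h3
        rw [Finset.sum_neg_distrib] at h3
        linarith
      unfold FOO_E
      rw [hsum, zero_div]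
    rw [e1, e2, sub_self, abs_zero]
    positivity

end Pool.Agent.H547R7
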