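import Pool.Agent.H670LG.Stm3

/-!
# Monotone circuits are simulated under a conjunction with one variable
-/

set_option autoImplicit false

namespace Pool.Agent.H547R7

open Pool.Agent.H547R6 Pool.Agent.NPC Pool.Agent.H424R2.PPAD

theorem GAD_avail_append {n : ℕ} {l : List (BF n)} {f : BF n} (h : Avail l f)
    (l' : List (BF n)) : Avail (l' ++ l) f := by
  rcases h with h | h
  · exact Or.inl (List.mem_append_right _ h)
  · exact Or.inr h

/-- a formula can be appended to a circuit -/
theorem GAD_formula {B : Set BFun} {F : (Fin 3 → Bool) → Bool} (hF : Gen B (Fin 3) F) :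
    ∃ c : ℕ, ∀ (N : ℕ) (l : List (BF N)) (g : Fin 3 → BF N), Gates B N l →
      (∀ i, Avail l (g i)) → ∃ l' : List (BF N), Gates B N (l' ++ l) ∧ l'.length ≤ c ∧
        Avail (l' ++ l) (fun x => F fun i => g i x) := by
  induction hF with
  | var i => exact ⟨0, fun N l g hl hg => ⟨[], hl, le_refl _, hg i⟩⟩
  | app k f hf G hG ih =>
    choose c hc using ih
    refine ⟨(∑ j, c j) + 1, fun N l g hl hg => ?_⟩
    have key : ∀ S : Finset (Fin k), ∃ l' : List (BF N), Gates B N (l' ++ l) ∧
        l'.length ≤ ∑ j ∈ S, c j ∧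
        ∀ j ∈ S, Avail (l' ++ l) (fun x => G j fun i => g i x) := by
      intro S
      induction S using Finset.induction_on with
      | empty => exact ⟨[], hl, by simp, by simp⟩
      | insert a S ha ihS =>
        obtain ⟨l1, h1, h2, h3⟩ := ihS
        obtain ⟨l2, h4, h5, h6⟩ := hc a N (l1 ++ l) g h1 fun i => GAD_avail_append (hg i) l1
        refine ⟨l2 ++ l1, ?_, ?_, ?_⟩
        · rw [List.append_assoc]
          exact h4
        · rw [List.length_append, Finset.sum_insert ha]
          omega
        · intro j hj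
          rw [List.append_assoc]
          rcases Finset.mem_insert.mp hj with rfl | hj
          · exact h6
          · exact GAD_avail_append (h3 j hj) l2
    obtain ⟨l1, h1, h2, h3⟩ := key Finset.univ
    refine ⟨(fun x => f fun j => G j fun i => g i x) :: l1, ?_, ?_, ?_⟩
    · exact Gates.gate (l1 ++ l) k f (fun j x => G j fun i => g i x) hf
        (fun j => h3 j (Finset.mem_univ _)) h1
    · simpa using h2
    · exact Or.inl (by simp)

/-- conjunction with the first variable -/
def GAD_W {n : ℕ} (f : BF n) : BF (n + 1) := fun x => x 0 && f (fun i => x i.succ)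

theorem GAD_one {B : Set BFun} {c n : ℕ}
    (hc : ∀ (N : ℕ) (l : List (BF N)) (g : Fin 3 → BF N), Gates B N l →
      (∀ i, Avail l (g i)) → ∃ l' : List (BF N), Gates B N (l' ++ l) ∧ l'.length ≤ c ∧
        Avail (l' ++ l) (fun x => g 0 x && (g 1 x || g 2 x)))
    {l : List (BF n)} {L : List (BF (n + 1))} (hL : Gates B (n + 1) L)
    (hlL : ∀ f ∈ l, Avail L (GAD_W f)) {a : BF n} (ha : Avail l a) :
    ∃ L' : List (BF (n + 1)), Gates B (n + 1) (L' ++ L) ∧ L'.length ≤ c ∧
      Avail (L' ++ L) (GAD_W a) := by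
  rcases ha with ha | ⟨i, rfl⟩
  · exact ⟨[], hL, Nat.zero_le _, hlL a ha⟩
  · obtain ⟨L', h1, h2, h3⟩ := hc (n + 1) L
      ![fun x => x 0, fun x => x i.succ, fun x => x i.succ] hL (by
        intro j
        fin_cases j
        · exact Or.inr ⟨0, rfl⟩
        · exact Or.inr ⟨i.succ, rfl⟩
        · exact Or.inr ⟨i.succ, rfl⟩)
    refine ⟨L', h1, h2, ?_⟩
    have e : (fun x : Fin (n + 1) → Bool =>
        (![fun x => x 0, fun x => x i.succ, fun x => x i.succ] : Fin 3 → BF (n + 1)) 0 x &&
        ((![fun x => x 0, fun x => x i.succ, fun x => x i.succ] : Fin 3 → BF (n + 1)) 1 x ||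
        (![fun x => x 0, fun x => x i.succ, fun x => x i.succ] : Fin 3 → BF (n + 1)) 2 x)) =
        GAD_W (fun x => x i) := by
      funext x
      simp [GAD_W]
    rw [e] at h3
    exact h3

theorem GAD_gates {B : Set BFun} {c n : ℕ}
    (hc : ∀ (N : ℕ) (l : List (BF N)) (g : Fin 3 → BF N), Gates B N l →
      (∀ i, Avail l (g i)) → ∃ l' : List (BF N), Gates B N (l' ++ l) ∧ l'.length ≤ c ∧
        Avail (l' ++ l) (fun x => g 0 x && (g 1 x || g 2 x)))
    {l : List (BF n)} (hl : Gates MB n l) :
    ∃ L : List (BF (n + 1)), Gates B (n + 1) L ∧ L.length ≤ 3 * c * l.length ∧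
      ∀ f ∈ l, Avail L (GAD_W f) := by
  induction hl with
  | nil => exact ⟨[], Gates.nil, by simp, by simp⟩
  | gate l k f g hf hg hl ih =>
    obtain ⟨L, h1, h2, h3⟩ := ih
    have main : ∀ (a b : BF n) (h : BF n), Avail l a → Avail l b →
        (h = (fun x => a x && b x) ∨ h = fun x => a x || b x) →
        ∃ L' : List (BF (n + 1)), Gates B (n + 1) L' ∧ L'.length ≤ 3 * c * (l.length + 1) ∧
          ∀ f ∈ h :: l, Avail L' (GAD_W f) := by
      intro a b h ha hb hh
      obtain ⟨La, ha1, ha2, ha3⟩ := GAD_one hc h1 h3 ha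
      obtain ⟨Lb, hb1, hb2, hb3⟩ := GAD_one hc (L := La ++ L) ha1
        (fun f hf => GAD_avail_append (h3 f hf) La) hb
      have ha4 : Avail (Lb ++ (La ++ L)) (GAD_W a) := GAD_avail_append ha3 Lb
      have fin : ∃ Lc : List (BF (n + 1)), Gates B (n + 1) (Lc ++ (Lb ++ (La ++ L))) ∧
          Lc.length ≤ c ∧ Avail (Lc ++ (Lb ++ (La ++ L))) (GAD_W h) := by
        rcases hh with rfl | rfl
        · obtain ⟨Lc, k1, k2, k3⟩ := hc (n + 1) (Lb ++ (La ++ L))
            ![GAD_W a, GAD_W b, GAD_W b] hb1 (by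
              intro j
              fin_cases j
              · exact ha4
              · exact hb3
              · exact hb3)
          refine ⟨Lc, k1, k2, ?_⟩
          have e : (fun x : Fin (n + 1) → Bool =>
              (![GAD_W a, GAD_W b, GAD_W b] : Fin 3 → BF (n + 1)) 0 x &&
              ((![GAD_W a, GAD_W b, GAD_W b] : Fin 3 → BF (n + 1)) 1 x ||
              (![GAD_W a, GAD_W b, GAD_W b] : Fin 3 → BF (n + 1)) 2 x)) =
              GAD_W (fun x => a x && b x) := by
            funext x
            simp only [GAD_W, Matrix.cons_val_zero, Matrix.cons_val_one, Matrix.cons_val]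
            cases x 0 <;> cases a (fun i => x i.succ) <;> cases b (fun i => x i.succ) <;> rfl
          rw [e] at k3
          exact k3
        · obtain ⟨Lc, k1, k2, k3⟩ := hc (n + 1) (Lb ++ (La ++ L))
            ![fun x => x 0, GAD_W a, GAD_W b] hb1 (by
              intro j
              fin_cases j
              · exact Or.inr ⟨0, rfl⟩
              · exact ha4
              · exact hb3)
          refine ⟨Lc, k1, k2, ?_⟩
          have e : (fun x : Fin (n + 1) → Bool =>
              (![fun x => x 0, GAD_W a, GAD_W b] : Fin 3 → BF (n + 1)) 0 x &&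
              ((![fun x => x 0, GAD_W a, GAD_W b] : Fin 3 → BF (n + 1)) 1 x ||
              (![fun x => x 0, GAD_W a, GAD_W b] : Fin 3 → BF (n + 1)) 2 x)) =
              GAD_W (fun x => a x || b x) := by
            funext x
            simp only [GAD_W, Matrix.cons_val_zero, Matrix.cons_val_one, Matrix.cons_val]
            cases x 0 <;> cases a (fun i => x i.succ) <;> cases b (fun i => x i.succ) <;> rfl
          rw [e] at k3
          exact k3
      obtain ⟨Lc, k1, k2, k3⟩ := fin
      refine ⟨Lc ++ (Lb ++ (La ++ L)), k1, ?_, ?_⟩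
      · simp only [List.length_append]
        nlinarith
      · intro f' hf'
        rcases List.mem_cons.mp hf' with rfl | hf'
        · exact k3
        · exact GAD_avail_append (GAD_avail_append (GAD_avail_append (h3 f' hf') La) Lb) Lc
    rcases hf with hf | hf
    · cases hf
      obtain ⟨L', m1, m2, m3⟩ := main (g 0) (g 1) _ (hg 0) (hg 1) (Or.inl rfl)
      exact ⟨L', m1, by simpa using m2, m3⟩
    · cases hf
      obtain ⟨L', m1, m2, m3⟩ := main (g 0) (g 1) _ (hg 0) (hg 1) (Or.inr rfl)
      exact ⟨L', m1, by simpa using m2, m3⟩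

theorem t_GAD : S_GAD := by
  intro B hB
  obtain ⟨c, hc⟩ := GAD_formula hB
  refine ⟨3 * c, fun n s f hf => ?_⟩
  obtain ⟨l, h1, h2, h3⟩ := hf
  have hc' : ∀ (N : ℕ) (l : List (BF N)) (g : Fin 3 → BF N), Gates B N l →
      (∀ i, Avail l (g i)) → ∃ l' : List (BF N), Gates B N (l' ++ l) ∧ l'.length ≤ c ∧
        Avail (l' ++ l) (fun x => g 0 x && (g 1 x || g 2 x)) := hc
  obtain ⟨L, k1, k2, k3⟩ := GAD_gates hc' h1
  obtain ⟨L', m1, m2, m3⟩ := GAD_one hc' k1 k3 h3
  refine ⟨L' ++ L, m1, ?_, m3⟩
  rw [List.length_append]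
  have h4 : 3 * c * l.length ≤ 3 * c * s := Nat.mul_le_mul_left _ h2
  nlinarith

end Pool.Agent.H547R7
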