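import Pool.Agent.H670LG.Stm3
import Pool.Agent.H547R7.T_PRJ

/-!
# Task L0: generators against larger circuits
-/

set_option autoImplicit false

namespace Pool.Agent.H547R7

open Pool.Agent.H547R6 Pool.Agent.NPC Pool.Agent.H424R2.PPAD

/-- restriction of the inputs to the first `n` ones -/
def L0_res {n N : ℕ} (h : n ≤ N) (f : BF n) : BF N := fun y => f (fun i => y (Fin.castLE h i))

theorem L0_avail {n N : ℕ} (h : n ≤ N) {l : List (BF n)} {f : BF n} (hf : Avail l f) :
    Avail (l.map (L0_res h)) (L0_res h f) := by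
  rcases hf with hf | ⟨i, rfl⟩
  · exact Or.inl (List.mem_map_of_mem hf)
  · exact Or.inr ⟨Fin.castLE h i, rfl⟩

theorem L0_AON {n N : ℕ} (h : n ≤ N) {s : ℕ} {l : List (BF n)} (hl : AON n s l) :
    AON N s (l.map (L0_res h)) := by
  induction hl with
  | nil => exact AON.nil
  | not s l a _ ha ih => exact AON.not s _ (L0_res h a) ih (L0_avail h ha)
  | and s l a b _ ha hb ih =>
    exact AON.and s _ (L0_res h a) (L0_res h b) ih (L0_avail h ha) (L0_avail h hb)
  | or s l a b _ ha hb ih =>
    exact AON.or s _ (L0_res h a) (L0_res h b) ih (L0_avail h ha) (L0_avail h hb)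

theorem L0_comp {n N s : ℕ} (h : n ≤ N) {C : BF n} (hC : Comp0 n s C) :
    Comp0 N s (L0_res h C) := by
  obtain ⟨l, s', hl, hs, ha⟩ := hC
  exact ⟨_, s', L0_AON h hl, hs, L0_avail h ha⟩

/-- linear functions of the logarithm are eventually small -/
theorem L0_log (A : ℕ) : ∃ m₁, ∀ m, m₁ ≤ m → A * Nat.log 2 m < m := by
  refine ⟨2 ^ (4 * A + 2), fun m hm => ?_⟩
  have hm0 : m ≠ 0 := by
    have : 0 < 2 ^ (4 * A + 2) := by positivity
    omega
  have hL : 4 * A + 2 ≤ Nat.log 2 m := (Nat.le_log_iff_pow_le (by norm_num) hm0).2 hm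
  have h2 : 2 ^ Nat.log 2 m ≤ m := Nat.pow_log_le_self 2 hm0
  refine lt_of_lt_of_le ?_ h2
  generalize Nat.log 2 m = L at hL
  clear hm h2 hm0
  have h3 : 2 ^ (L / 2) * 2 ^ (L / 2) ≤ 2 ^ L := by
    rw [← pow_add]
    exact Nat.pow_le_pow_right (by norm_num) (by omega)
  have h4 : L / 2 < 2 ^ (L / 2) := Nat.lt_two_pow_self
  have h5 : L ≤ 2 * (L / 2) + 1 := by omega
  have h6 : 2 * A + 1 ≤ L / 2 := by omega
  generalize L / 2 = q at *
  have h7 : (q + 1) * (q + 1) ≤ 2 ^ q * 2 ^ q := Nat.mul_le_mul h4 h4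
  calc A * L ≤ A * (2 * q + 1) := Nat.mul_le_mul_left _ h5
    _ < (q + 1) * (q + 1) := by nlinarith
    _ ≤ 2 ^ L := h7.trans h3

theorem L0_rep (k : ℕ) : Poly (fun u : List Bool => List.replicate (u.length ^ k) false) := by
  have h : UPoly (fun u : List Bool => u.length ^ k) := by
    have := (UPoly.length (α := List Bool) (β := Bool) NPC.Poly.id).eval (Polynomial.X ^ k)
    simpa using this
  have h2 : Poly (fun u : List Bool => (List.replicate (u.length ^ k) ()).map fun _ => false) :=
    NPC.Poly.map (F := fun _ _ => false) h (NPC.Poly.const false)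
  simpa using h2

theorem t_L0 : S_L0 := by
  intro k ε hk ⟨d, G, hd, hG, c, m₀, H⟩
  obtain ⟨m₁, hm₁⟩ := L0_log (c * (2 * k))
  refine ⟨fun m => d (m ^ k), fun m s => (List.range m).map fun i => (G (m ^ k) s).getD i false,
    ?_, ?_, c * (2 * k), m₀ + m₁ + 2, ?_⟩
  · refine PTime.of_poly ?_
    have := NPC.Poly.comp hd.toPoly (L0_rep k)
    simpa using this
  · refine PTime.of_poly ?_
    have h1 : Poly (fun p : List Bool × List Bool =>
        G (List.replicate (p.1.length ^ k) false).length p.2) :=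
      NPC.Poly.comp (g := fun p : List Bool × List Bool => G p.1.length p.2) hG.toPoly
        (NPC.Poly.pair (NPC.Poly.comp (L0_rep k) (NPC.Poly.fst NPC.Poly.id)) (NPC.Poly.snd NPC.Poly.id))
    have h2 : Poly (fun p : List Bool × List Bool => G (p.1.length ^ k) p.2) := by
      simpa using h1
    have h3 : Poly (fun p : List Bool × List Bool => List.range p.1.length) :=
      (UPoly.length (NPC.Poly.fst NPC.Poly.id)).range
    have h4 : Poly (fun p : List Bool × List Bool =>
        (List.range p.1.length).map fun i => (G (p.1.length ^ k) p.2).getD i false) :=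
      NPC.Poly.map (F := fun (p : List Bool × List Bool) i => (G (p.1.length ^ k) p.2).getD i false)
        h3 (NPC.Poly.getD (NPC.Poly.comp h2 (NPC.Poly.fst NPC.Poly.id)) (NPC.Poly.snd NPC.Poly.id) (NPC.Poly.const false))
    exact h4
  · intro m hm
    have hm2 : 2 ≤ m := by omega
    have hle : m ≤ m ^ k := by
      calc m = m ^ 1 := (pow_one m).symm
        _ ≤ m ^ k := Nat.pow_le_pow_right (by omega) hk
    obtain ⟨h1, -, -, h4⟩ := H (m ^ k) (by omega)
    have hlog : Nat.log 2 (m ^ k) ≤ 2 * k * Nat.log 2 m := by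
      have hl1 : 1 ≤ Nat.log 2 m := Nat.log_pos (by norm_num) hm2
      have hlt : m ^ k < 2 ^ ((Nat.log 2 m + 1) * k) := by
        rw [pow_mul]
        exact Nat.pow_lt_pow_left (Nat.lt_pow_succ_log_self (by norm_num) m) (by omega)
      have h5 : Nat.log 2 (m ^ k) < (Nat.log 2 m + 1) * k :=
        Nat.log_lt_of_lt_pow (by positivity) hlt
      nlinarith
    have hd' : d (m ^ k) ≤ c * (2 * k) * Nat.log 2 m := by
      calc d (m ^ k) ≤ c * Nat.log 2 (m ^ k) := h1
        _ ≤ c * (2 * k * Nat.log 2 m) := Nat.mul_le_mul_left _ hlog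
        _ = c * (2 * k) * Nat.log 2 m := by ring
    refine ⟨hd', lt_of_le_of_lt hd' (hm₁ m (by omega)), fun s _ => by simp, ?_⟩
    intro C hC
    have h5 := h4 (L0_res hle C) (by
      change Comp0 _ _ _
      rw [pow_one]
      exact L0_comp hle hC)
    have h6 : pr (L0_res hle C) = pr C := t_PRJ.1 m (m ^ k) hle C
    rw [h6] at h5
    have h7 : (fun s : Fin (d (m ^ k)) → Bool =>
        C (vec m ((List.range m).map fun i => (G (m ^ k) (List.ofFn s)).getD i false))) =
        fun s : Fin (d (m ^ k)) → Bool =>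
          L0_res hle C (vec (m ^ k) (G (m ^ k) (List.ofFn s))) := by
      funext s
      unfold L0_res
      congr 1
      funext i
      simp [vec]
    change |pr (fun s : Fin (d (m ^ k)) → Bool =>
        C (vec m ((List.range m).map fun i => (G (m ^ k) (List.ofFn s)).getD i false))) - pr C| ≤ ε
    rw [h7]
    exact h5

end Pool.Agent.H547R7
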