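import Pool.Agent.H670LG.Stm3
import Pool.Agent.H547R7.T_TST
import Pool.Agent.H547R7.T_PRJ

/-!
# Task L1A: from a gate set that generates `a ∧ (b ∨ c)` to all circuits
-/

set_option autoImplicit false

namespace Pool.Agent.H547R7

open Pool.Agent.H547R6 Pool.Agent.NPC Pool.Agent.H424R2.PPAD

/-! ### polynomially bounded functions -/

/-- polynomially bounded -/
def L1A_PB (f : ℕ → ℕ) : Prop := ∃ a, ∀ n, f n ≤ (n + 2) ^ a

theorem L1A_PB.const (c : ℕ) : L1A_PB fun _ => c :=
  ⟨c, fun n => (Nat.lt_pow_self (by norm_num : 1 < 2)).le.trans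
    (Nat.pow_le_pow_left (by omega) c)⟩

theorem L1A_PB.id : L1A_PB fun n => n := ⟨1, fun n => by rw [pow_one]; show n ≤ n + 2; omega⟩

theorem L1A_PB.add {f g : ℕ → ℕ} (hf : L1A_PB f) (hg : L1A_PB g) :
    L1A_PB fun n => f n + g n := by
  obtain ⟨a, ha⟩ := hf
  obtain ⟨b, hb⟩ := hg
  refine ⟨max a b + 1, fun n => ?_⟩
  have h1 : (n + 2) ^ a ≤ (n + 2) ^ max a b := Nat.pow_le_pow_right (by omega) (le_max_left _ _)
  have h2 : (n + 2) ^ b ≤ (n + 2) ^ max a b := Nat.pow_le_pow_right (by omega) (le_max_right _ _)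
  have h3 := ha n
  have h4 := hb n
  rw [pow_succ]
  nlinarith

theorem L1A_PB.mul {f g : ℕ → ℕ} (hf : L1A_PB f) (hg : L1A_PB g) :
    L1A_PB fun n => f n * g n := by
  obtain ⟨a, ha⟩ := hf
  obtain ⟨b, hb⟩ := hg
  refine ⟨a + b, fun n => ?_⟩
  rw [pow_add]
  exact Nat.mul_le_mul (ha n) (hb n)

theorem L1A_PB.pow {f : ℕ → ℕ} (hf : L1A_PB f) (k : ℕ) : L1A_PB fun n => f n ^ k := by
  obtain ⟨a, ha⟩ := hf
  refine ⟨a * k, fun n => ?_⟩
  rw [pow_mul]
  exact Nat.pow_le_pow_left (ha n) k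

/-- the size of the tests -/
def L1A_sz (e n : ℕ) : ℕ :=
  2 * (rr e n * (4 * (n + 1) ^ 3 + 2 * n) + 2 * rr e n * (rr e n + 1)) + 1

theorem L1A_rr (e : ℕ) : L1A_PB (rr e) :=
  (((L1A_PB.const 2).mul (L1A_PB.const (e ^ 3))).mul
    ((L1A_PB.id.add (L1A_PB.const 1)).pow 2))

theorem L1A_szPB (e : ℕ) : L1A_PB (L1A_sz e) :=
  ((L1A_PB.const 2).mul (((L1A_rr e).mul (((L1A_PB.const 4).mul
    ((L1A_PB.id.add (L1A_PB.const 1)).pow 3)).add ((L1A_PB.const 2).mul L1A_PB.id))).add
    (((L1A_PB.const 2).mul (L1A_rr e)).mul ((L1A_rr e).add (L1A_PB.const 1))))).add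
    (L1A_PB.const 1)

theorem L1A_bound (e g : ℕ) : ∃ a, 1 ≤ a ∧ ∀ n, 1 + rr e n * n ≤ (n + 2) ^ a ∧
    g * (L1A_sz e n + 1) ≤ (n + 2) ^ a := by
  obtain ⟨a, ha⟩ := ((L1A_PB.const 1).add ((L1A_rr e).mul L1A_PB.id)).add
    ((L1A_PB.const g).mul ((L1A_szPB e).add (L1A_PB.const 1)))
  refine ⟨a + 1, by omega, fun n => ?_⟩
  have h1 : 1 + rr e n * n + g * (L1A_sz e n + 1) ≤ (n + 2) ^ a := ha n
  have h2 : (n + 2) ^ a ≤ (n + 2) ^ (a + 1) := Nat.pow_le_pow_right (by omega) (by omega)
  constructor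
  · exact le_trans (by omega) h2
  · exact le_trans (by omega) h2

theorem L1A_kk (e : ℕ) : ∃ b, ∀ n, kk e n ≤ (n + 2) ^ b := by
  obtain ⟨b, hb⟩ := ((L1A_PB.const 2).mul (L1A_PB.const (e ^ 3))).mul
    (L1A_PB.id.add (L1A_PB.const 1))
  exact ⟨b, fun n => (Nat.sub_le _ _).trans (hb n)⟩

theorem L1A_sq (L : ℕ) (h : 5 ≤ L) : L ^ 2 < 2 ^ L := by
  induction L, h using Nat.le_induction with
  | base => norm_num
  | succ L hL ih =>
    rw [pow_succ 2 L]
    nlinarith

theorem L1A_log (K n : ℕ) (h : 2 ^ (K + 5) ≤ n + 2) : K * (Nat.log 2 (n + 2) + 1) < n := by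
  set L := Nat.log 2 (n + 2) with hL
  have h1 : K + 5 ≤ L := (Nat.le_log_iff_pow_le (by norm_num) (by omega)).2 h
  have h2 : 2 ^ L ≤ n + 2 := Nat.pow_log_le_self 2 (by omega)
  have h3 := L1A_sq L (by omega)
  obtain ⟨t, ht⟩ := Nat.exists_eq_add_of_le h1
  have h4 : K * (L + 1) + 2 ≤ L ^ 2 := by
    rw [ht]
    nlinarith
  omega

theorem L1A_log2_eq (n : ℕ) : Nat.log 2 n = n.bits.length - 1 := by
  rw [Nat.size_eq_bits_len]
  rcases Nat.eq_zero_or_pos n with h | h
  · subst h; simp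
  · have h1 : n.size ≤ Nat.log 2 n + 1 := Nat.size_le.2 (Nat.lt_pow_succ_log_self (by norm_num) n)
    have h2 : Nat.log 2 n < n.size := Nat.lt_size.2 (Nat.pow_log_le_self 2 (by omega))
    omega

theorem L1A_poly (K : ℕ) :
    PTime (fun u : List Bool => K * (Nat.log 2 (u.length + 2) + 1)) := by
  refine PTime.of_poly ?_
  have h : NPC.Poly (fun u : List Bool => Nat.log 2 (u.length + 2)) :=
    (NPC.Poly.sub (NPC.Poly.length (NPC.Poly.natBits (n := fun u : List Bool => u.length + 2)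
      (by fun_prop))) (NPC.Poly.const 1)).congr fun _ => (L1A_log2_eq _).symm
  exact NPC.Poly.mul (NPC.Poly.const K) (NPC.Poly.add h (NPC.Poly.const 1))

/-! ### the tests are fooled -/

theorem L1A_good (hALS : S_ALS) {B : Set BFun} {g : ℕ}
    (hg : ∀ (n s : ℕ) (f : BF n), Computes MB n s f →
      Computes B (n + 1) (g * (s + 1)) (fun x => x 0 && f (fun i => x i.succ)))
    {ε : ℝ} (hε : 0 ≤ ε) {M dM : ℕ} {GM : List Bool → List Bool}
    (hfool : ∀ C ∈ TB B M,
      |pr (fun s : Fin dM → Bool => C (vec M (GM (List.ofFn s)))) - pr C| ≤ ε)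
    {e n s : ℕ} (hM1 : 1 + rr e n * n ≤ M) (hM2 : g * (s + 1) ≤ M) {T : BF (rr e n * n)}
    (hT : MC (rr e n * n) s T) : Good e n ((allS dM).map GM) ε T := by
  have hle : rr e n * n + 1 ≤ M := by omega
  set f : BF (rr e n * n + 1) := fun x => x 0 && T (fun i => x i.succ) with hf
  set C' : BF M := fun y => f fun i => y (Fin.castLE hle i) with hC'
  have hpr : pr C' = pr T / 2 := by
    rw [hC', t_PRJ.1 _ _ hle f, hf, t_PRJ.2]
  have hcp : cp ((allS dM).map GM) (fun y => y.getD 0 false && T (vecD e n y)) =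
      pr (fun s : Fin dM → Bool => C' (vec M (GM (List.ofFn s)))) := by
    rw [← hALS.2.2 dM (fun s => C' (vec M (GM s)))]
    unfold cp
    rw [List.countP_map, List.length_map]
    congr 2
    refine List.countP_congr fun s _ => ?_
    have h1 : (fun i => vec M (GM s) (Fin.castLE hle (Fin.succ i))) = vecD e n (GM s) := by
      funext i
      simp only [vec, vecD, Fin.val_castLE, Fin.val_succ]
      rw [Nat.add_comm]
    have h2 : C' (vec M (GM s)) = ((GM s).getD 0 false && T (vecD e n (GM s))) := by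
      rw [← h1]
      rfl
    rw [h2]
    simp
  unfold Good
  rcases hT with ⟨b, hb⟩ | hT
  · cases b
    · have e1 : cp ((allS dM).map GM) (fun y => y.getD 0 false && T (vecD e n y)) = 0 := by
        unfold cp
        have : List.countP (fun y => y.getD 0 false && T (vecD e n y)) ((allS dM).map GM) = 0 := by
          rw [List.countP_eq_zero]
          intro y _
          simp [hb]
        rw [this]
        simp
      have e2 : pr T = 0 := by
        unfold pr
        have : (Finset.univ.filter fun x => T x = true) = ∅ := by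
          rw [Finset.filter_eq_empty_iff]
          intro x _
          simp [hb]
        rw [this]
        simp
      rw [e1, e2]
      simpa using hε
    · have hCm : C' ∈ TB B M := by
        refine ⟨[], Gates.nil, by simp, Or.inr ⟨Fin.castLE hle 0, ?_⟩⟩
        funext y
        simp [hC', hf, hb]
      have := hfool C' hCm
      rwa [← hcp, hpr] at this
  · have hCm : C' ∈ TB B M := by
      obtain ⟨l, h1, h2, h3⟩ := hg _ _ _ hT
      refine ⟨l.map (TST_sub (Fin.castLE hle)), TST_gates_sub _ h1, ?_, TST_avail_sub _ h3⟩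
      rw [List.length_map]
      omega
    have := hfool C' hCm
    rwa [← hcp, hpr] at this

theorem L1A_dL (e n : ℕ) (ys : List (List Bool)) : (dL e n ys).length ≤ ys.length * kk e n := by
  unfold dL
  induction ys with
  | nil => simp
  | cons y ys ih =>
    rw [List.flatMap_cons, List.length_append, List.length_cons, Nat.add_mul, Nat.one_mul]
    have : (if passL e n y = true then (mbL e n y).take (kk e n) else []).length ≤ kk e n := by
      split_ifs
      · exact (List.length_take_le _ _)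
      · simp
    omega

theorem L1A_len (e n : ℕ) (ys : List (List Bool)) (h : ∀ y ∈ ys, 1 + rr e n * n ≤ y.length)
    (x : List Bool) (hx : x ∈ dL e n ys) : x.length = n := by
  unfold dL at hx
  rw [List.mem_flatMap] at hx
  obtain ⟨y, hy, hx⟩ := hx
  split_ifs at hx
  · have h1 := List.mem_of_mem_take hx
    unfold mbL at h1
    rw [List.mem_map] at h1
    obtain ⟨i, hi, rfl⟩ := h1
    have hi' := List.mem_range.1 (List.mem_of_mem_filter hi)
    have hy' := h y hy
    unfold blkL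
    rw [List.length_take, List.length_drop]
    have : n * i + n ≤ rr e n * n := by
      calc n * i + n = (i + 1) * n := by ring
        _ ≤ rr e n * n := Nat.mul_le_mul_right _ hi'
    omega
  · simp at hx

theorem L1A_not (n q : ℕ) (C : BF n) (h : Comp0 n q C) : Comp0 n q (fun x => !C x) := by
  obtain ⟨l, s', h1, h2, h3⟩ := h
  exact ⟨_, s', AON.not s' l C h1 h3, h2, Or.inl List.mem_cons_self⟩

theorem L1A_cpnot {α : Type} (l : List α) (p : α → Bool) (hl : l ≠ []) :
    cp l (fun x => !p x) = 1 - cp l p := by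
  unfold cp
  have h := List.length_eq_countP_add_countP p (l := l)
  have h2 : (List.countP (fun x => !p x) l : ℝ) = (l.length : ℝ) - List.countP p l := by
    have : List.countP (fun a => decide ¬p a = true) l = List.countP (fun x => !p x) l := by
      refine List.countP_congr fun x _ => ?_
      cases p x <;> simp
    rw [this] at h
    have h' : (l.length : ℝ) = List.countP p l + List.countP (fun x => !p x) l := by
      exact_mod_cast h
    linarith
  have h0 : (l.length : ℝ) ≠ 0 := by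
    have := List.length_pos_iff.2 hl
    positivity
  rw [h2]
  field_simp

theorem L1A_prnot (n : ℕ) (C : BF n) : pr (fun x => !C x) = 1 - pr C := by
  unfold pr
  have h6 := Finset.card_filter_add_card_filter_not
    (s := (Finset.univ : Finset (Fin n → Bool))) (fun z => C z = true)
  have h7 : (Finset.univ.filter fun z : Fin n → Bool => (!C z) = true) =
      Finset.univ.filter fun z => ¬ (C z = true) := by
    ext z; simp
  have h0 : (0 : ℝ) < Fintype.card (Fin n → Bool) := by exact_mod_cast Fintype.card_pos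
  rw [h7, eq_sub_iff_add_eq, ← add_div, div_eq_one_iff_eq h0.ne', ← Finset.card_univ]
  have h8 : ((Finset.univ.filter fun z : Fin n → Bool => ¬ (C z = true)).card : ℝ) +
      (Finset.univ.filter fun z : Fin n → Bool => C z = true).card =
      (Finset.univ : Finset (Fin n → Bool)).card := by
    rw [add_comm]
    exact_mod_cast h6
  exact h8

theorem L1A_num {ε t : ℝ} (hε : 0 ≤ ε) (ht : t = 1 / 6 - ε) (ht0 : 0 < t) {e : ℕ}
    (he : 10 / t + 10 ≤ e) : 8 ≤ e ∧ ε + 1 / (8 * e) ≤ 1 / 4 ∧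
      5 / ((e : ℝ) - 2) + (ε + 1 / (8 * e)) / (1 / 2 - ε - 1 / (8 * e)) ≤ 1 / 2 - t := by
  have h1 : 0 < 10 / t := by positivity
  have he0 : (0 : ℝ) < e := by linarith
  have h8 : (8 : ℝ) ≤ e := by linarith
  have h2 : 5 / ((e : ℝ) - 2) ≤ t / 2 := by
    rw [div_le_iff₀ (by linarith)]
    have : 10 / t ≤ (e : ℝ) - 2 := by linarith
    rw [div_le_iff₀ ht0] at this
    linarith
  have h3 : 1 / (8 * (e : ℝ)) ≤ t / 2 := by
    rw [div_le_iff₀ (by positivity)]
    have : 10 / t ≤ (e : ℝ) := by linarith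
    rw [div_le_iff₀ ht0] at this
    linarith
  set x : ℝ := ε + 1 / (8 * e) with hx
  have hx1 : x ≤ 1 / 6 - t / 2 := by linarith
  have hx0 : 0 ≤ x := by positivity
  have ht6 : t ≤ 1 / 6 := by linarith
  have h4 : x / (1 / 2 - ε - 1 / (8 * e)) ≤ 1 / 2 - 3 * t / 2 := by
    have e1 : 1 / 2 - ε - 1 / (8 * (e : ℝ)) = 1 / 2 - x := by rw [hx]; ring
    rw [e1, div_le_iff₀ (by linarith)]
    nlinarith
  exact ⟨by exact_mod_cast h8, by linarith, by linarith⟩

theorem t_L1A (hALS : S_ALS) (hMOD : S_MOD) (hGAD : S_GAD) (hCOR : S_COR) (hCPX : S_CPX)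
    (hL1P : S_L1P) : S_L1A := by
  intro B hB ε hε hε6 hG
  obtain ⟨g, hg⟩ := hGAD B hB
  obtain ⟨d, G, hd, hGp, c, m₀, hm⟩ := hG
  set t : ℝ := 1 / 6 - ε with ht
  have ht0 : 0 < t := by rw [ht]; linarith
  obtain ⟨e, he⟩ := exists_nat_ge (10 / t + 10)
  obtain ⟨he8, he4, heκ⟩ := L1A_num hε ht ht0 he
  obtain ⟨a, ha1, ha⟩ := L1A_bound e g
  obtain ⟨b, hb⟩ := L1A_kk e
  set K : ℕ := a * c + b + 1 with hK
  obtain ⟨n1, hn1⟩ := exists_nat_ge (2 / t)
  refine ⟨1 / 2 - t / 2, by linarith, fun n => K * (Nat.log 2 (n + 2) + 1), gen1 e c a d G,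
    L1A_poly K, hL1P e c a d G hd hGp, 3 * K, m₀ + n1 + 2 ^ (K + 5) + 2, fun n hn => ?_⟩
  have hpos : 0 < 2 ^ (K + 5) := by positivity
  have hn2 : 2 ≤ n := by omega
  have hm0 : m₀ ≤ (n + 2) ^ a := by
    calc m₀ ≤ n + 2 := by omega
      _ = (n + 2) ^ 1 := (pow_one _).symm
      _ ≤ (n + 2) ^ a := Nat.pow_le_pow_right (by omega) ha1
  obtain ⟨f1, f2, f3, f4⟩ := hm ((n + 2) ^ a) hm0
  set M : ℕ := (n + 2) ^ a with hM
  set ys : List (List Bool) := (allS (d M)).map (G M) with hys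
  have hysne : ys ≠ [] := by
    rw [← List.length_pos_iff, hys, List.length_map, hALS.1]
    positivity
  have hyslen : ∀ y ∈ ys, 1 + rr e n * n ≤ y.length := by
    intro y hy
    rw [hys, List.mem_map] at hy
    obtain ⟨s, hs, rfl⟩ := hy
    rw [f3 s (hALS.2.1 _ s hs)]
    exact (ha n).1
  have good : ∀ T : BF (rr e n * n), MC (rr e n * n) (L1A_sz e n) T → Good e n ys ε T :=
    fun T hT => L1A_good hALS hg hε f4 (ha n).1 (ha n).2 hT
  have hcore : ∀ C : BF n, Comp0 n n C → dL e n ys ≠ [] ∧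
      cp (dL e n ys) (fun x => C (vec n x)) ≤ pr C + (1 / 2 - t) := by
    intro C hC
    have h1 := hCPX e n C
    obtain ⟨u1, u2⟩ := hCOR e n ys ε C he8 (by omega) hysne hyslen he4
      (good _ (h1 0 (by omega) hC).1) (good _ (h1 0 (by omega) hC).2.1)
      (fun θ => good _ (h1 θ (by omega) hC).2.2)
    exact ⟨u1, by linarith⟩
  have htriv : Comp0 n n (fun x => x ⟨0, by omega⟩) :=
    ⟨[], 0, AON.nil, by omega, Or.inr ⟨_, rfl⟩⟩
  have hDne : dL e n ys ≠ [] := (hcore _ htriv).1
  have hDlen : (dL e n ys).length * (n + 2) ≤ 2 ^ (K * (Nat.log 2 (n + 2) + 1)) := by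
    have h1 := L1A_dL e n ys
    have h2 : ys.length = 2 ^ d M := by rw [hys, List.length_map, hALS.1]
    have h3 : 2 ^ d M ≤ M ^ c := by
      calc 2 ^ d M ≤ 2 ^ (c * Nat.log 2 M) := Nat.pow_le_pow_right (by norm_num) f1
        _ = (2 ^ Nat.log 2 M) ^ c := by rw [mul_comm, pow_mul]
        _ ≤ M ^ c := Nat.pow_le_pow_left (Nat.pow_log_le_self 2 (by positivity)) c
    have h4 : n + 2 ≤ 2 ^ (Nat.log 2 (n + 2) + 1) :=
      (Nat.lt_pow_succ_log_self (by norm_num) _).le
    calc (dL e n ys).length * (n + 2) ≤ (M ^ c * (n + 2) ^ b) * (n + 2) := by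
          refine Nat.mul_le_mul_right _ (h1.trans ?_)
          rw [h2]
          exact Nat.mul_le_mul h3 (hb n)
      _ = (n + 2) ^ K := by rw [hM, hK]; ring
      _ ≤ (2 ^ (Nat.log 2 (n + 2) + 1)) ^ K := Nat.pow_le_pow_left h4 K
      _ = 2 ^ (K * (Nat.log 2 (n + 2) + 1)) := by rw [← pow_mul, mul_comm]
  have hgen : ∀ s : List Bool, gen1 e c a d G n s =
      (dL e n ys).getD (valB s % (dL e n ys).length) (List.replicate n false) := by
    intro s
    unfold gen1
    simp only [← hM, f1, if_true, ← hys, hDne, if_false]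
  refine ⟨?_, ?_, ?_, ?_⟩
  · show K * (Nat.log 2 (n + 2) + 1) ≤ 3 * K * Nat.log 2 n
    have h1 : Nat.log 2 (n + 2) ≤ Nat.log 2 n + 1 := by
      calc Nat.log 2 (n + 2) ≤ Nat.log 2 (n * 2) := Nat.log_mono_right (by omega)
        _ = Nat.log 2 n + 1 := Nat.log_mul_base (by norm_num) (by omega)
    have h2 : 1 ≤ Nat.log 2 n := Nat.log_pos (by norm_num) hn2
    calc K * (Nat.log 2 (n + 2) + 1) ≤ K * (3 * Nat.log 2 n) := Nat.mul_le_mul_left _ (by omega)
      _ = 3 * K * Nat.log 2 n := by ring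
  · exact L1A_log K n (by omega)
  · intro s hs
    rw [hgen]
    have hlt : valB s % (dL e n ys).length < (dL e n ys).length :=
      Nat.mod_lt _ (List.length_pos_iff.2 hDne)
    rw [List.getD_eq_getElem _ _ hlt]
    exact L1A_len e n ys hyslen _ (List.getElem_mem hlt)
  · intro C hC
    have hC' : Comp0 n n C := by
      have : Comp0 n (n ^ 1) C := hC
      rwa [pow_one] at this
    have h1 := (hcore C hC').2
    have h2 := (hcore _ (L1A_not n n C hC')).2
    rw [L1A_prnot, L1A_cpnot (dL e n ys) (fun x => C (vec n x)) hDne] at h2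
    have h3 := hMOD (List Bool) (List.replicate n false) (dL e n ys) (fun x => C (vec n x))
      (K * (Nat.log 2 (n + 2) + 1)) hDne
    have h4 : ((dL e n ys).length : ℝ) / 2 ^ (K * (Nat.log 2 (n + 2) + 1)) ≤ t / 2 := by
      have e1 : ((dL e n ys).length : ℝ) * (n + 2) ≤ 2 ^ (K * (Nat.log 2 (n + 2) + 1)) := by
        exact_mod_cast hDlen
      rw [div_le_iff₀ (by positivity)]
      have e2 : 2 / t ≤ (n : ℝ) := hn1.trans (by exact_mod_cast (by omega : n1 ≤ n))
      rw [div_le_iff₀ ht0] at e2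
      have e3 : (0 : ℝ) ≤ ((dL e n ys).length : ℝ) := by positivity
      calc ((dL e n ys).length : ℝ) ≤ t / 2 * (((dL e n ys).length : ℝ) * (n + 2)) := by
            have : 1 ≤ t / 2 * ((n : ℝ) + 2) := by nlinarith
            nlinarith
        _ ≤ t / 2 * 2 ^ (K * (Nat.log 2 (n + 2) + 1)) :=
            mul_le_mul_of_nonneg_left e1 (by positivity)
    have h5 : pr (fun s : Fin (K * (Nat.log 2 (n + 2) + 1)) → Bool =>
        C (vec n (gen1 e c a d G n (List.ofFn s)))) =
        pr (fun s : Fin (K * (Nat.log 2 (n + 2) + 1)) → Bool =>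
          C (vec n ((dL e n ys).getD (valB (List.ofFn s) % (dL e n ys).length)
            (List.replicate n false)))) := by
      congr 1
      funext s
      rw [hgen]
    show |pr (fun s : Fin (K * (Nat.log 2 (n + 2) + 1)) → Bool =>
        C (vec n (gen1 e c a d G n (List.ofFn s)))) - pr C| ≤ 1 / 2 - t / 2
    rw [h5]
    have h6 := abs_le.1 h3
    rw [abs_le]
    constructor
    · linarith
    · linarith

end Pool.Agent.H547R7
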