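import Pool.Agent.H670LG.Stm3

/-!
# Task L1P: the new generator is computed in polynomial time
-/

set_option autoImplicit false

namespace Pool.Agent.H547R7

open Pool.Agent.H547R6 Pool.Agent.NPC Pool.Agent.H424R2.PPAD

section Basic

variable {α β : Type} [TEnc α] [TEnc β]

omit [TEnc β] in
theorem L1P_take_eq : ∀ (l : List β) (k n : ℕ),
    ((l.zipIdx k).filter (fun p => decide (p.2 < k + n))).map Prod.fst = l.take n := by
  intro l
  induction l with
  | nil => intro k n; simp
  | cons b l ih =>
    intro k n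
    cases n with
    | zero =>
      rw [List.take_zero, List.map_eq_nil_iff, List.filter_eq_nil_iff]
      rintro ⟨c, j⟩ hc
      have := List.le_snd_of_mem_zipIdx hc
      simp at this ⊢
      omega
    | succ n =>
      have h1 := ih (k + 1) n
      simp only [List.zipIdx_cons, List.take_succ_cons]
      rw [List.filter_cons_of_pos (by simp), List.map_cons]
      congr 1
      rw [← h1]
      congr 2
      funext p
      congr 1
      apply propext
      omega

omit [TEnc β] in
theorem L1P_drop_eq : ∀ (l : List β) (k n : ℕ),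
    ((l.zipIdx k).filter (fun p => decide (k + n ≤ p.2))).map Prod.fst = l.drop n := by
  intro l
  induction l with
  | nil => intro k n; simp
  | cons b l ih =>
    intro k n
    cases n with
    | zero =>
      rw [List.drop_zero]
      have : ((b :: l).zipIdx k).filter (fun p => decide (k + 0 ≤ p.2)) = (b :: l).zipIdx k := by
        rw [List.filter_eq_self]
        rintro ⟨c, j⟩ hc
        have := List.le_snd_of_mem_zipIdx hc
        simp at this ⊢
        omega
      rw [this, List.zipIdx_map_fst]
    | succ n =>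
      have h1 := ih (k + 1) n
      simp only [List.zipIdx_cons, List.drop_succ_cons]
      rw [List.filter_cons_of_neg (by simp)]
      rw [← h1]
      congr 2
      funext p
      congr 1
      apply propext
      omega

theorem L1P_take {l : α → List β} {n : α → ℕ} (hl : Poly l) (hn : Poly n) :
    Poly (fun a => (l a).take (n a)) := by
  have h : Poly (fun a => (((l a).zipIdx).filter (fun p => decide (p.2 < n a))).map Prod.fst) := by
    fun_prop
  exact h.congr fun a => by simpa using L1P_take_eq (l a) 0 (n a)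

theorem L1P_drop {l : α → List β} {n : α → ℕ} (hl : Poly l) (hn : Poly n) :
    Poly (fun a => (l a).drop (n a)) := by
  have h : Poly (fun a => (((l a).zipIdx).filter (fun p => decide (n a ≤ p.2))).map Prod.fst) := by
    fun_prop
  exact h.congr fun a => by simpa using L1P_drop_eq (l a) 0 (n a)

theorem L1P_countP {l : α → List β} {p : α → β → Bool} (hl : Poly l)
    (hp : Poly (fun x : α × β => p x.1 x.2)) : Poly (fun a => (l a).countP (p a)) :=
  (NPC.Poly.length (NPC.Poly.filter hl hp)).congr fun a => by rw [List.countP_eq_length_filter]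

theorem L1P_replicate {n : α → ℕ} (hn : UPoly n) :
    Poly (fun a => List.replicate (n a) false) :=
  (NPC.Poly.map (F := fun _ _ => false) hn (NPC.Poly.const false)).congr fun a => by simp

theorem L1P_pow {n : α → ℕ} (hn : UPoly n) (k : ℕ) : UPoly (fun a => n a ^ k) := by
  induction k with
  | zero => simpa using UPoly.const (α := α) 1
  | succ k ih => simpa only [pow_succ] using UPoly.mul ih hn

theorem L1P_powP {n : α → ℕ} (hn : Poly n) (k : ℕ) : Poly (fun a => n a ^ k) := by
  induction k with
  | zero => simpa using NPC.Poly.const (α := α) 1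
  | succ k ih => simpa only [pow_succ] using NPC.Poly.mul ih hn

theorem L1P_rrU (e : ℕ) {n : α → ℕ} (hn : UPoly n) : UPoly (fun a => rr e (n a)) :=
  UPoly.mul (UPoly.const (2 * e ^ 3)) (L1P_pow (UPoly.add hn (UPoly.const 1)) 2)

theorem L1P_a1 (e : ℕ) {n : α → ℕ} (hn : Poly n) : Poly (fun a => a1 e (n a)) := by
  unfold a1
  fun_prop

theorem L1P_a0 (e : ℕ) {n : α → ℕ} (hn : Poly n) : Poly (fun a => a0 e (n a)) := by
  unfold a0
  fun_prop

theorem L1P_b0 (e : ℕ) {n : α → ℕ} (hn : Poly n) : Poly (fun a => b0 e (n a)) := by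
  unfold b0
  fun_prop

theorem L1P_kk (e : ℕ) {n : α → ℕ} (hn : Poly n) : Poly (fun a => kk e (n a)) := by
  unfold kk
  fun_prop

theorem L1P_wtL {x : α → List Bool} (hx : Poly x) : Poly (fun a => wtL (x a)) :=
  L1P_countP (p := fun _ b => b) hx (NPC.Poly.snd NPC.Poly.id)

theorem L1P_blkL {n i : α → ℕ} {y : α → List Bool} (hn : Poly n) (hy : Poly y) (hi : Poly i) :
    Poly (fun a => blkL (n a) (y a) (i a)) :=
  L1P_take (L1P_drop hy (NPC.Poly.add (NPC.Poly.const 1) (NPC.Poly.mul hn hi))) hn

theorem L1P_s1L (e : ℕ) {n : α → ℕ} {y : α → List Bool} (hn : UPoly n) (hy : Poly y) :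
    Poly (fun a => s1L e (n a) (y a)) := by
  have hn' := hn.toPoly
  refine L1P_countP (p := fun a i => decide (i % (n a + 1) ≤ wtL (blkL (n a) (y a) i)))
    (L1P_rrU e hn).range ?_
  refine NPC.Poly.decide_le ?_ (L1P_wtL (L1P_blkL ?_ ?_ ?_)) <;> fun_prop

theorem L1P_s0L (e : ℕ) {n : α → ℕ} {y : α → List Bool} (hn : UPoly n) (hy : Poly y) :
    Poly (fun a => s0L e (n a) (y a)) := by
  have hn' := hn.toPoly
  refine L1P_countP (p := fun a i => decide (i % (n a + 1) < wtL (blkL (n a) (y a) i)))
    (L1P_rrU e hn).range ?_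
  refine NPC.Poly.decide_lt ?_ (L1P_wtL (L1P_blkL ?_ ?_ ?_)) <;> fun_prop

theorem L1P_passL (e : ℕ) {n : α → ℕ} {y : α → List Bool} (hn : UPoly n) (hy : Poly y) :
    Poly (fun a => passL e (n a) (y a)) := by
  have hn' := hn.toPoly
  have h1 := L1P_s1L e hn hy
  have h0 := L1P_s0L e hn hy
  exact NPC.Poly.and (NPC.Poly.getD hy (NPC.Poly.const 0) (NPC.Poly.const false))
    (NPC.Poly.and (NPC.Poly.decide_le (L1P_a1 e hn') h1) (NPC.Poly.and (NPC.Poly.decide_le (L1P_a0 e hn') h0)
      (NPC.Poly.decide_lt h0 (L1P_b0 e hn'))))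

theorem L1P_mbL (e : ℕ) {n : α → ℕ} {y : α → List Bool} (hn : UPoly n) (hy : Poly y) :
    Poly (fun a => mbL e (n a) (y a)) := by
  have hn' := hn.toPoly
  refine NPC.Poly.map (F := fun a i => blkL (n a) (y a) i) (NPC.Poly.filter
    (p := fun a i => decide (wtL (blkL (n a) (y a) i) = i % (n a + 1)))
    (L1P_rrU e hn).range ?_) (L1P_blkL ?_ ?_ ?_)
  · refine NPC.Poly.decide_eq (L1P_wtL (L1P_blkL ?_ ?_ ?_)) ?_ <;> fun_prop
  all_goals fun_prop

theorem L1P_dL (e : ℕ) {n : α → ℕ} {ys : α → List (List Bool)} (hn : UPoly n) (hys : Poly ys) :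
    Poly (fun a => dL e (n a) (ys a)) := by
  have hn1 : UPoly (fun p : α × List Bool => n p.1) := hn.comp (NPC.Poly.fst NPC.Poly.id)
  have hy1 : Poly (fun p : α × List Bool => p.2) := NPC.Poly.snd NPC.Poly.id
  refine NPC.Poly.flatMap (F := fun a y => if passL e (n a) y = true then
    (mbL e (n a) y).take (kk e (n a)) else []) hys (NPC.Poly.ite ?_ ?_ (NPC.Poly.const []))
  · exact (L1P_passL e hn1 hy1).congr fun a => by simp
  · exact L1P_take (L1P_mbL e hn1 hy1) (L1P_kk e hn1.toPoly)

theorem L1P_log_eq (m : ℕ) : Nat.log 2 m = m.size - 1 := by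
  rcases Nat.eq_zero_or_pos m with rfl | h
  · simp
  · have h1 : 0 < m.size := Nat.size_pos.2 h
    apply le_antisymm
    · have h2 : 2 ^ Nat.log 2 m ≤ m := Nat.pow_log_le_self 2 h.ne'
      have h3 := Nat.lt_size.2 h2
      omega
    · refine Nat.le_log_of_pow_le (by norm_num) ?_
      rw [← Nat.lt_size]
      omega

theorem L1P_logU {m : α → ℕ} (hm : Poly m) : UPoly (fun a => Nat.log 2 (m a)) := by
  have h1 := UPoly.length (NPC.Poly.natBits hm)
  have h2 : UPoly (fun a => (m a).size) := by
    have h2 : (fun a => (m a).bits.length) = (fun a => (m a).size) := by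
      funext a
      exact Nat.size_eq_bits_len (m a)
    rw [← h2]
    exact h1
  have h3 : Poly (fun a => (m a).size - 1) := NPC.Poly.sub h2.toPoly (NPC.Poly.const 1)
  refine (UPoly.of_le h3 h2 (fun a => Nat.sub_le _ _)).congr fun a => ?_
  simp only [L1P_log_eq]

/-! ### the list of all bit strings -/

theorem L1P_allS_length (k : ℕ) : (allS k).length = 2 ^ k := by
  induction k with
  | zero => rfl
  | succ k ih => simp [allS, ih, pow_succ]; ring

theorem L1P_allS_mem (k : ℕ) : ∀ s ∈ allS k, s.length = k := by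
  induction k with
  | zero => simp [allS]
  | succ k ih =>
    intro s hs
    simp only [allS, List.mem_append, List.mem_map] at hs
    rcases hs with ⟨t, ht, rfl⟩ | ⟨t, ht, rfl⟩ <;> simp [ih t ht]

theorem L1P_sz_allS (k : ℕ) : sz (allS k) ≤ 2 ^ k * (4 * k + 2) + 1 := by
  have h := sz_le_length_mul (allS k) (4 * k + 1) (fun s hs => by
    have h1 := sz_listBool_le s
    rw [L1P_allS_mem k s hs] at h1
    exact h1)
  rw [L1P_allS_length] at h
  exact h

/-- one step -/
def L1P_F (l : List (List Bool)) : List (List Bool) :=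
  l.map (fun s => false :: s) ++ l.map (fun s => true :: s)

theorem L1P_F_iter (k : ℕ) : L1P_F^[k] [[]] = allS k := by
  induction k with
  | zero => rfl
  | succ k ih => rw [Function.iterate_succ_apply', ih]; rfl

theorem L1P_allS {K : α → ℕ} (hK : UPoly K) (q : Polynomial ℕ)
    (hq : ∀ a, 2 ^ K a * (4 * K a + 2) + 1 ≤ q.eval (sz a)) : Poly (fun a => allS (K a)) := by
  have h := NPC.Poly.iterLen (l := fun a => List.replicate (K a) ()) (s := fun _ => [[]])
    (F := fun _ => L1P_F) hK (NPC.Poly.const [[]]) (by unfold L1P_F; fun_prop) q (fun a k hk => by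
      rw [L1P_F_iter]
      rw [List.length_replicate] at hk
      refine (L1P_sz_allS k).trans (le_trans ?_ (hq a))
      have h1 : 2 ^ k ≤ 2 ^ K a := Nat.pow_le_pow_right (by norm_num) hk
      have h2 : 4 * k + 2 ≤ 4 * K a + 2 := by omega
      exact Nat.add_le_add_right (Nat.mul_le_mul h1 h2) 1)
  refine h.congr fun a => ?_
  rw [L1P_F_iter, List.length_replicate]

end Basic

theorem t_L1P : S_L1P := by
  intro e c a d G hd hG
  refine PTime.of_poly ?_
  have hd := hd.toPoly
  have hG := hG.toPoly
  have hN : UPoly (fun p : List Bool × List Bool => p.1.length) :=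
    UPoly.length (NPC.Poly.fst NPC.Poly.id)
  have hM : UPoly (fun p : List Bool × List Bool => (p.1.length + 2) ^ a) :=
    L1P_pow (UPoly.add hN (UPoly.const 2)) a
  have hdM : Poly (fun p : List Bool × List Bool => d ((p.1.length + 2) ^ a)) :=
    (NPC.Poly.comp hd (L1P_replicate hM)).congr fun p => by simp
  have hGM : Poly (fun q : (List Bool × List Bool) × List Bool =>
      G ((q.1.1.length + 2) ^ a) q.2) := by
    have h1 : UPoly (fun q : (List Bool × List Bool) × List Bool => (q.1.1.length + 2) ^ a) :=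
      hM.comp (NPC.Poly.fst NPC.Poly.id)
    exact (NPC.Poly.comp hG (NPC.Poly.pair (L1P_replicate h1) (NPC.Poly.snd NPC.Poly.id))).congr fun q => by simp
  have hL : UPoly (fun p : List Bool × List Bool => c * Nat.log 2 ((p.1.length + 2) ^ a)) :=
    UPoly.mul (UPoly.const c) (L1P_logU hM.toPoly)
  have hK : UPoly (fun p : List Bool × List Bool =>
      min (d ((p.1.length + 2) ^ a)) (c * Nat.log 2 ((p.1.length + 2) ^ a))) :=
    UPoly.of_le (NPC.Poly.min hdM hL.toPoly) hL (fun p => min_le_right _ _)
  have hA : Poly (fun p : List Bool × List Bool =>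
      allS (min (d ((p.1.length + 2) ^ a)) (c * Nat.log 2 ((p.1.length + 2) ^ a)))) := by
    refine L1P_allS hK ((((Polynomial.X + Polynomial.C 2) ^ a) ^ c) *
      (Polynomial.C 4 * (Polynomial.C c * (Polynomial.X + Polynomial.C 2) ^ a) + Polynomial.C 2)
        + Polynomial.C 1) fun p => ?_
    simp only [Polynomial.eval_add, Polynomial.eval_mul, Polynomial.eval_pow, Polynomial.eval_C,
      Polynomial.eval_X]
    have hsz : p.1.length ≤ sz p := by
      have h1 := length_lt_sz p.1
      have h2 : sz p = sz p.1 + sz p.2 + 1 := sz_pair p.1 p.2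
      omega
    have hMle : (p.1.length + 2) ^ a ≤ (sz p + 2) ^ a := Nat.pow_le_pow_left (by omega) a
    have hM0 : (p.1.length + 2) ^ a ≠ 0 := by positivity
    set m := (p.1.length + 2) ^ a with hm
    have hKle : min (d m) (c * Nat.log 2 m) ≤ c * Nat.log 2 m := min_le_right _ _
    have hlog : Nat.log 2 m ≤ m := Nat.log_le_self 2 m
    have hpow : 2 ^ (min (d m) (c * Nat.log 2 m)) ≤ m ^ c := by
      refine (Nat.pow_le_pow_right (by norm_num) hKle).trans ?_
      rw [mul_comm, pow_mul]
      exact Nat.pow_le_pow_left (Nat.pow_log_le_self 2 hM0) c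
    refine Nat.add_le_add_right (Nat.mul_le_mul (hpow.trans (Nat.pow_le_pow_left hMle c)) ?_) 1
    have h3 : c * Nat.log 2 m ≤ c * (sz p + 2) ^ a := Nat.mul_le_mul_left c (hlog.trans hMle)
    omega
  have hD : Poly (fun p : List Bool × List Bool => dL e p.1.length
      ((allS (min (d ((p.1.length + 2) ^ a)) (c * Nat.log 2 ((p.1.length + 2) ^ a)))).map
        (G ((p.1.length + 2) ^ a)))) :=
    L1P_dL e hN (NPC.Poly.map (F := fun p s => G ((p.1.length + 2) ^ a) s) hA hGM)
  have hrep : Poly (fun p : List Bool × List Bool => List.replicate p.1.length false) :=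
    L1P_replicate hN
  have hv : Poly (fun p : List Bool × List Bool => valB p.2) := NPC.Poly.valBits (NPC.Poly.snd NPC.Poly.id)
  have hfin := NPC.Poly.ite (p := fun p : List Bool × List Bool =>
      d ((p.1.length + 2) ^ a) ≤ c * Nat.log 2 ((p.1.length + 2) ^ a))
    (NPC.Poly.decide_le hdM hL.toPoly)
    (NPC.Poly.cond (NPC.Poly.isEmpty hD) hrep (NPC.Poly.getD hD (NPC.Poly.mod hv (NPC.Poly.length hD)) hrep)) hrep
  refine hfin.congr fun p => ?_
  unfold gen1
  by_cases h : d ((p.1.length + 2) ^ a) ≤ c * Nat.log 2 ((p.1.length + 2) ^ a)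
  · simp only [h, if_true, min_eq_left h]
    set D := dL e p.1.length ((allS (d ((p.1.length + 2) ^ a))).map (G ((p.1.length + 2) ^ a)))
    by_cases hD0 : D = []
    · simp [hD0]
    · have h2 : D.isEmpty = false := by
        cases hD1 : D with
        | nil => exact absurd hD1 hD0
        | cons _ _ => rfl
      simp only [h2, cond_false, if_neg hD0]
  · simp only [h, if_false]

end Pool.Agent.H547R7
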