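import Pool.Agent.H670LG.Stm3

/-!
# Task L2: the sum of two copies of a generator
-/

set_option autoImplicit false

namespace Pool.Agent.H547R7

open Pool.Agent.H547R6 Pool.Agent.NPC Pool.Agent.H424R2.PPAD

theorem L2_take_eq {α : Type} (l : List α) (n : ℕ) :
    (l.zip (List.replicate n ())).map Prod.fst = l.take n := by
  induction l generalizing n with
  | nil => simp
  | cons a l ih =>
    cases n with
    | zero => simp
    | succ n => simp [List.replicate_succ, ih]

theorem L2_poly_take {α β : Type} [TEnc α] [TEnc β] {l : α → List β} {n : α → ℕ} (hl : Poly l)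
    (hn : Poly n) : Poly (fun a => (l a).take (n a)) := by
  have h : UPoly (fun a => Min.min (n a) (l a).length) :=
    UPoly.of_le (Poly.min hn (Poly.length hl)) (UPoly.length hl) (fun a => min_le_right _ _)
  refine (NPC.Poly.map (F := fun _ p => p.1) (Poly.zip hl h)
    (Poly.fst (Poly.snd Poly.id))).congr ?_
  intro a
  change ((l a).zip (List.replicate (Min.min (n a) (l a).length) ())).map Prod.fst = _
  rw [L2_take_eq]
  rcases le_total (n a) (l a).length with h1 | h1
  · rw [min_eq_left h1]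
  · rw [min_eq_right h1, List.take_length, List.take_of_length_le h1]

theorem L2_poly_drop {α β : Type} [TEnc α] [TEnc β] {l : α → List β} {n : α → ℕ} (hl : Poly l)
    (hn : Poly n) : Poly (fun a => (l a).drop (n a)) := by
  have h := Poly.reverse (L2_poly_take (Poly.reverse hl) (Poly.sub (Poly.length hl) hn))
  refine h.congr fun a => ?_
  rw [List.take_reverse, List.reverse_reverse]
  rcases le_total (n a) (l a).length with h1 | h1
  · congr 1
    omega
  · rw [List.drop_of_length_le h1, List.drop_of_length_le]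
    omega

/-- the sum of two copies of the generator -/
def L2_gen (d : ℕ → ℕ) (G : ℕ → List Bool → List Bool) (m : ℕ) (s : List Bool) : List Bool :=
  ((G m (s.take (d m))).zip (G m (s.drop (d m)))).map fun q => xor q.1 q.2

theorem L2_gen_poly {d : ℕ → ℕ} {G : ℕ → List Bool → List Bool}
    (hd : PTime (fun u : List Bool => d u.length))
    (hG : PTime (fun p : List Bool × List Bool => G p.1.length p.2)) :
    PTime (fun p : List Bool × List Bool => L2_gen d G p.1.length p.2) := by
  have hd1 : Poly (fun p : List Bool × List Bool => d p.1.length) :=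
    hd.toPoly.comp (Poly.fst Poly.id)
  have h1 : Poly (fun p : List Bool × List Bool => G p.1.length (p.2.take (d p.1.length))) :=
    hG.toPoly.comp (Poly.pair (Poly.fst Poly.id) (L2_poly_take (Poly.snd Poly.id) hd1))
  have h2 : Poly (fun p : List Bool × List Bool => G p.1.length (p.2.drop (d p.1.length))) :=
    hG.toPoly.comp (Poly.pair (Poly.fst Poly.id) (L2_poly_drop (Poly.snd Poly.id) hd1))
  have h3 := NPC.Poly.map (F := fun (_ : List Bool × List Bool) (q : Bool × Bool) => xor q.1 q.2)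
    (Poly.zip h1 h2) (Poly.xor (Poly.fst (Poly.snd Poly.id)) (Poly.snd (Poly.snd Poly.id)))
  exact PTime.of_poly (h3.congr fun p => rfl)

theorem L2_log (c m : ℕ) (hm : (2 * c + 4) * (2 * c + 4) + 1 ≤ m) : 2 * c * Nat.log 2 m < m := by
  have h1 : 2 ^ Nat.log 2 m ≤ m := Nat.pow_log_le_self 2 (by omega)
  have h2 : ∀ L : ℕ, 4 ≤ L → L * L ≤ 2 ^ L := by
    intro L hL
    induction L, hL using Nat.le_induction with
    | base => norm_num
    | succ k hk ih =>
      rw [pow_succ]
      nlinarith
  rcases le_or_gt (2 * c + 4) (Nat.log 2 m) with h | h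
  · have h3 := h2 (Nat.log 2 m) (by omega)
    nlinarith
  · nlinarith

theorem L2_pr_equiv {Ω Ω' : Type} [Fintype Ω] [Fintype Ω'] (e : Ω ≃ Ω') (p : Ω' → Bool) :
    pr (fun w => p (e w)) = pr p := by
  unfold pr
  rw [Fintype.card_congr e]
  congr 2
  refine Finset.card_bij (fun w _ => e w) ?_ ?_ ?_
  · intro a ha
    simpa using ha
  · intro a _ b _ h
    exact e.injective h
  · intro b hb
    exact ⟨e.symm b, by simpa using hb, by simp⟩

theorem L2_vx_vx {n : ℕ} (x y : Fin n → Bool) : vx (vx x y) y = x := by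
  funext i
  simp [vx]

theorem L2_pr_shift {n : ℕ} (C : BF n) (y : Fin n → Bool) : pr (fun x => C (vx x y)) = pr C :=
  L2_pr_equiv (⟨fun x => vx x y, fun x => vx x y, fun x => L2_vx_vx x y, fun x => L2_vx_vx x y⟩ :
    (Fin n → Bool) ≃ (Fin n → Bool)) C

theorem L2_vec (m : ℕ) (a b : List Bool) (ha : a.length = m) (hb : b.length = m) :
    vec m ((a.zip b).map fun q => xor q.1 q.2) = vx (vec m a) (vec m b) := by
  funext i
  have h1 : i.val < a.length := by rw [ha]; exact i.isLt
  have h2 : i.val < b.length := by rw [hb]; exact i.isLt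
  have h3 : i.val < ((a.zip b).map fun q => xor q.1 q.2).length := by
    simp [ha, hb]
  simp only [vec, vx]
  rw [List.getD_eq_getElem _ _ h3, List.getD_eq_getElem _ _ h1, List.getD_eq_getElem _ _ h2]
  simp

theorem L2_pr (d : ℕ → ℕ) (G : ℕ → List Bool → List Bool) (m : ℕ)
    (hl : ∀ s : List Bool, s.length = d m → (G m s).length = m) (C : BF m) :
    pr (fun s : Fin (d m + d m) → Bool => C (vec m (L2_gen d G m (List.ofFn s)))) =
      pr (fun w : (Fin (d m) → Bool) × (Fin (d m) → Bool) =>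
        C (vx (vec m (G m (List.ofFn w.1))) (vec m (G m (List.ofFn w.2))))) := by
  rw [← L2_pr_equiv (Fin.appendEquiv (d m) (d m))]
  congr 1
  funext w
  rw [← L2_vec m _ _ (hl _ (by simp)) (hl _ (by simp))]
  congr 2
  unfold L2_gen
  have h : List.ofFn (Fin.appendEquiv (α := Bool) (d m) (d m) w) =
      List.ofFn w.1 ++ List.ofFn w.2 := by
    change List.ofFn (Fin.append w.1 w.2) = _
    exact List.ofFn_fin_append _ _
  rw [h, List.take_left' (by simp), List.drop_left' (by simp)]

theorem t_L2 (h0 : S_L0) (hSAM : S_SAM) (hXOR : S_XOR) (hSHI : S_SHI) (hTHC : S_THC) : S_L2 := by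
  intro ε δ hε0 hε1 hδ0 hδ1 hL
  obtain ⟨d, G, hd, hG, c, m₀, h⟩ := h0 4 ε (by norm_num) hL
  obtain ⟨K, hK⟩ := exists_nat_ge (12 / δ ^ 2 + 1)
  refine ⟨fun m => d m + d m, L2_gen d G, PTime.of_poly (Poly.add hd.toPoly hd.toPoly),
    L2_gen_poly hd hG, 2 * c, max m₀ ((2 * c + 4) * (2 * c + 4) + 1) + (K + 2 * K * (K + 1) + 1) + 2,
    fun m hm => ?_⟩
  have hm0 : m₀ ≤ m := by omega
  have hm1 : (2 * c + 4) * (2 * c + 4) + 1 ≤ m := by omega
  have hm2 : K + 2 * K * (K + 1) + 1 ≤ m := by omega
  have hm3 : 2 ≤ m := by omega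
  obtain ⟨hc, hlt, hlen, htest⟩ := h m hm0
  refine ⟨?_, ?_, ?_, ?_⟩
  · change d m + d m ≤ _
    nlinarith
  · change d m + d m < m
    have := L2_log c m hm1
    nlinarith
  · intro s hs
    have hs' : s.length = d m + d m := hs
    unfold L2_gen
    rw [List.length_map, List.length_zip, hlen _ (by simp [hs']), hlen _ (by simp [hs'])]
    simp
  · intro C hC
    have hC' : Comp0 m m C := by simpa [T0] using hC
    change |pr (fun s : Fin (d m + d m) → Bool => C (vec m (L2_gen d G m (List.ofFn s)))) - pr C| ≤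
      2 * ε ^ 2 + 4 * δ
    rw [L2_pr d G m hlen C]
    set g : (Fin (d m) → Bool) → Fin m → Bool := fun w => vec m (G m (List.ofFn w)) with hg
    set T : ℕ := ⌈4 * ((m : ℝ) + 2) / δ ^ 2⌉₊ with hT
    have hδ2 : 0 < δ ^ 2 := by positivity
    have hT1 : 4 * ((m : ℝ) + 2) ≤ T * δ ^ 2 := by
      have := Nat.le_ceil (4 * ((m : ℝ) + 2) / δ ^ 2)
      rw [← hT, div_le_iff₀ hδ2] at this
      exact this
    have hT0 : 0 < T := by
      rw [hT, Nat.ceil_pos]
      positivity
    have hT2 : T ≤ K * m := by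
      have hm4 : (2 : ℝ) ≤ m := by exact_mod_cast hm3
      have h1 : (T : ℝ) < 4 * ((m : ℝ) + 2) / δ ^ 2 + 1 := Nat.ceil_lt_add_one (by positivity)
      have h2 : 4 * ((m : ℝ) + 2) / δ ^ 2 ≤ 12 / δ ^ 2 * m := by
        rw [div_mul_eq_mul_div, div_le_div_iff_of_pos_right hδ2]
        linarith
      have h3 : (T : ℝ) ≤ K * m := by nlinarith
      exact_mod_cast h3
    obtain ⟨s, hs⟩ := hSAM (Fin (d m) → Bool) (Fin m → Bool) (fun y w => C (vx (g w) y)) m T δ hδ0
      hδ1 (by simp) hT1
    refine hXOR (Fin (d m) → Bool) m g C T s ε δ hT0 hε0 hε1 hδ0.le hs ?_ ?_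
    · intro θ
      have h1 := hTHC m m T θ C (fun i => g (s i)) (by omega) hC'
      suffices hh : T * m + 2 * T * (T + 1) + 1 ≤ m ^ 4 by
        obtain ⟨l, s', hl, hs', hA⟩ := h1
        exact htest (fun y => decide (θ ≤ (Finset.univ.filter fun i =>
          C (vx (g (s i)) y) = true).card)) ⟨l, s', hl, hs'.trans hh, hA⟩
      have h4 : T * m + 2 * T * (T + 1) + 1 ≤ (K + 2 * K * (K + 1) + 1) * m ^ 2 := by
        have h5 : T * m ≤ (K * m) * m := Nat.mul_le_mul_right m hT2
        have h6 : T * (T + 1) ≤ (K * m) * ((K + 1) * m) :=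
          Nat.mul_le_mul hT2 (by rw [Nat.add_mul]; omega)
        have h9 : 1 ≤ m ^ 2 := Nat.one_le_pow _ _ (by omega)
        calc T * m + 2 * T * (T + 1) + 1 = T * m + 2 * (T * (T + 1)) + 1 := by ring
          _ ≤ (K * m) * m + 2 * ((K * m) * ((K + 1) * m)) + m ^ 2 := by omega
          _ = (K + 2 * K * (K + 1) + 1) * m ^ 2 := by ring
      refine h4.trans ?_
      have h7 : (K + 2 * K * (K + 1) + 1) * m ^ 2 ≤ m * m ^ 2 := Nat.mul_le_mul_right _ hm2
      refine h7.trans ?_
      have h8 : m * m ^ 2 = m ^ 3 := by ring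
      rw [h8]
      exact Nat.pow_le_pow_right (by omega) (by norm_num)
    · intro y
      have h1 := (hSHI m m C y hC').1
      obtain ⟨l, s', hl, hs', hA⟩ := h1
      have h2 := htest (fun x => C (vx x y)) ⟨l, s', hl, hs'.trans (Nat.le_self_pow (by norm_num) m), hA⟩
      rw [L2_pr_shift] at h2
      exact h2

end Pool.Agent.H547R7
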