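import Pool.Agent.H670LG.Stm3

set_option autoImplicit false

namespace Pool.Agent.H547R7

open Pool.Agent.H547R6 Pool.Agent.NPC Pool.Agent.H424R2.PPAD

theorem t_L3 (h0 : S_L0) (hORG : S_ORG) : S_L3 := by
  intro B ε hB hG
  obtain ⟨c, hc⟩ := hORG B hB
  obtain ⟨d, G, hd, hG', c', m₀, hm⟩ := h0 2 ε (by norm_num) hG
  refine ⟨d, G, hd, hG', c', max m₀ (max c 1), fun m hm' => ?_⟩
  have e1 : m₀ ≤ m := (le_max_left _ _).trans hm'
  have e2 : c ≤ m := ((le_max_left _ _).trans (le_max_right _ _)).trans hm'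
  have e3 : 1 ≤ m := ((le_max_right _ _).trans (le_max_right _ _)).trans hm'
  obtain ⟨h1, h2, h3, h4⟩ := hm m e1
  refine ⟨h1, h2, h3, fun C hC => h4 C ?_⟩
  obtain ⟨l, s', hl, hs', ha⟩ := hc m m C e3 hC
  refine ⟨l, s', hl, hs'.trans ?_, ha⟩
  calc c * m ≤ m * m := Nat.mul_le_mul_right _ e2
    _ = m ^ 2 := (sq m).symm

end Pool.Agent.H547R7
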