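import Pool.Agent.H670LG.Stm3

set_option autoImplicit false

namespace Pool.Agent.H547R7

open Pool.Agent.H547R6 Pool.Agent.NPC Pool.Agent.H424R2.PPAD

lemma mod_valB_lt (l : List Bool) : valB l < 2 ^ l.length := by
  induction l with
  | nil => simp
  | cons b l ih =>
    rw [valB_cons, List.length_cons, pow_succ]
    split_ifs <;> omega

lemma mod_valB_inj : ∀ l l' : List Bool, l.length = l'.length → valB l = valB l' → l = l' := by
  intro l
  induction l with
  | nil =>
    intro l' h _
    exact (List.length_eq_zero_iff.1 (by simpa using h.symm)).symm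
  | cons b l ih =>
    intro l' h hv
    cases l' with
    | nil => simp at h
    | cons b' l' =>
      rw [valB_cons, valB_cons] at hv
      simp only [List.length_cons, Nat.add_right_cancel_iff] at h
      have h1 : b = b' := by
        cases b <;> cases b' <;> simp at hv ⊢ <;> omega
      subst h1
      rw [ih l' h (by omega)]

lemma mod_card (d : ℕ) (q : ℕ → Bool) :
    (Finset.univ.filter fun s : Fin d → Bool => q (valB (List.ofFn s)) = true).card =
      Nat.count (fun v => q v = true) (2 ^ d) := by
  classical
  have hinj : Function.Injective (fun s : Fin d → Bool => valB (List.ofFn s)) := by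
    intro s s' h
    exact List.ofFn_injective (mod_valB_inj _ _ (by simp) h)
  have himg : Finset.univ.image (fun s : Fin d → Bool => valB (List.ofFn s)) =
      Finset.range (2 ^ d) := by
    apply Finset.eq_of_subset_of_card_le
    · intro v hv
      obtain ⟨s, -, rfl⟩ := Finset.mem_image.1 hv
      rw [Finset.mem_range]
      have := mod_valB_lt (List.ofFn s)
      rwa [List.length_ofFn] at this
    · rw [Finset.card_image_of_injective _ hinj, Finset.card_range]
      simp
  rw [Nat.count_eq_card_filter_range, ← himg, Finset.filter_image,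
    Finset.card_image_of_injective _ hinj]

lemma mod_count_add (P : ℕ → Prop) [DecidablePred P] (L : ℕ) (hP : ∀ v, P (L + v) ↔ P v) (r : ℕ) :
    ∀ k : ℕ, Nat.count P (L * k + r) = k * Nat.count P L + Nat.count P r := by
  intro k
  induction k with
  | zero => simp
  | succ k ih =>
    have h1 : L * (k + 1) + r = L + (L * k + r) := by ring
    rw [h1, Nat.count_add]
    have h2 : Nat.count (fun v => P (L + v)) (L * k + r) = Nat.count P (L * k + r) := by
      rw [Nat.count_eq_card_filter_range, Nat.count_eq_card_filter_range]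
      congr 1
      exact Finset.filter_congr (fun v _ => hP v)
    rw [h2, ih]
    ring

lemma mod_countP {α : Type} (x₀ : α) (p : α → Bool) (D : List α) :
    D.countP p = Nat.count (fun j => p (D.getD j x₀) = true) D.length := by
  induction D with
  | nil => simp
  | cons a l ih =>
    rw [List.countP_cons, List.length_cons, Nat.count_succ', ih]
    simp

theorem t_MOD : S_MOD := by
  classical
  intro α x₀ D p d hD
  set L : ℕ := D.length with hL
  have hL0 : 0 < L := List.length_pos_iff.2 hD
  set q : ℕ → Bool := fun j => p (D.getD j x₀) with hq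
  have h1 : (Finset.univ.filter fun s : Fin d → Bool =>
      p (D.getD (valB (List.ofFn s) % L) x₀) = true).card =
      Nat.count (fun v => q (v % L) = true) (2 ^ d) := mod_card d (fun v => q (v % L))
  have h2 : D.countP p = Nat.count (fun j => q j = true) L := mod_countP x₀ p D
  set k : ℕ := 2 ^ d / L with hk
  set r : ℕ := 2 ^ d % L with hr
  have hkr : 2 ^ d = L * k + r := (Nat.div_add_mod _ _).symm
  have hrL : r < L := Nat.mod_lt _ hL0
  have h3 := mod_count_add (fun v => q (v % L) = true) L (fun v => by simp) r k
  rw [← hkr] at h3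
  have h4 : Nat.count (fun v => q (v % L) = true) L = Nat.count (fun j => q j = true) L := by
    rw [Nat.count_eq_card_filter_range, Nat.count_eq_card_filter_range]
    congr 1
    apply Finset.filter_congr
    intro v hv
    rw [Nat.mod_eq_of_lt (Finset.mem_range.1 hv)]
  rw [h4] at h3
  set b : ℕ := Nat.count (fun v => q (v % L) = true) r with hb
  have hbr : b ≤ r := Nat.count_le _
  set B : ℕ := Nat.count (fun j => q j = true) L with hB
  have hBL : B ≤ L := Nat.count_le _
  unfold pr cp
  rw [h1, h2, h3, ← hL]
  have hcard : (Fintype.card (Fin d → Bool) : ℝ) = 2 ^ d := by simp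
  rw [hcard]
  have hM : (2 : ℝ) ^ d = L * k + r := by exact_mod_cast hkr
  have hM0 : (0 : ℝ) < 2 ^ d := by positivity
  have hLr : (0 : ℝ) < L := by exact_mod_cast hL0
  have hbr' : (b : ℝ) ≤ r := by exact_mod_cast hbr
  have hBL' : (B : ℝ) ≤ L := by exact_mod_cast hBL
  have hrL' : (r : ℝ) ≤ L := by exact_mod_cast hrL.le
  have hb0 : (0 : ℝ) ≤ b := Nat.cast_nonneg _
  have hB0 : (0 : ℝ) ≤ B := Nat.cast_nonneg _
  have hr0 : (0 : ℝ) ≤ r := Nat.cast_nonneg _
  have h5 : (((k * B + b : ℕ) : ℝ)) / 2 ^ d - (B : ℝ) / L = (L * b - r * B) / (2 ^ d * L) := by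
    rw [div_sub_div _ _ hM0.ne' hLr.ne']
    congr 1
    push_cast
    rw [hM]
    ring
  rw [h5, abs_div, abs_of_pos (mul_pos hM0 hLr), div_le_div_iff₀ (mul_pos hM0 hLr) hM0]
  have h6 : |(L : ℝ) * b - r * B| ≤ L * L := by
    rw [abs_le]
    constructor
    · nlinarith
    · nlinarith
  calc |(L : ℝ) * b - r * B| * 2 ^ d ≤ (L * L) * 2 ^ d := by gcongr
    _ = L * (2 ^ d * L) := by ring

end Pool.Agent.H547R7
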