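import Pool.Agent.H547R7.Stm

/-!
# Task ORG: simulation of a finite gate set by AND, OR and NOT gates
-/

set_option autoImplicit false

namespace Pool.Agent.H547R7

open Pool.Agent.H547R6 Pool.Agent.NPC Pool.Agent.H424R2.PPAD

theorem ORG_avail_append {n : ℕ} (l' : List (BF n)) {l : List (BF n)} {f : BF n}
    (h : Avail l f) : Avail (l' ++ l) f := by
  rcases h with h | h
  · exact Or.inl (List.mem_append_right _ h)
  · exact Or.inr h

theorem ORG_avail_cons {n : ℕ} (a : BF n) {l : List (BF n)} {f : BF n}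
    (h : Avail l f) : Avail (a :: l) f := ORG_avail_append [a] h

theorem ORG_avail_head {n : ℕ} (a : BF n) (l : List (BF n)) : Avail (a :: l) a :=
  Or.inl (List.mem_cons_self ..)

/-- the number of gates for a function of `k` variables -/
def ORG_c : ℕ → ℕ
  | 0 => 1
  | k + 1 => 2 * ORG_c k + 3

theorem ORG_shannon (n : ℕ) (hn : 1 ≤ n) : ∀ (k : ℕ) (f : (Fin k → Bool) → Bool) (s : ℕ)
    (l : List (BF n)) (g : Fin k → BF n), AON n s l → (∀ j, Avail l (g j)) →
    ∃ (l' : List (BF n)) (s' : ℕ), s' ≤ s + ORG_c k ∧ AON n s' (l' ++ l) ∧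
      Avail (l' ++ l) (fun x => f fun j => g j x) := by
  intro k
  induction k with
  | zero =>
    intro f s l g hl _
    have hx : Avail l (fun x : Fin n → Bool => x ⟨0, hn⟩) := Or.inr ⟨_, rfl⟩
    have h1 := AON.not s l _ hl hx
    cases hb : f (fun j => Fin.elim0 j) with
    | false =>
      refine ⟨[(fun x => x ⟨0, hn⟩ && !x ⟨0, hn⟩), (fun x => !x ⟨0, hn⟩)], s + 1, le_refl _, ?_, ?_⟩
      · exact AON.and s _ _ _ h1 (ORG_avail_cons _ hx) (ORG_avail_head _ _)
      · have : (fun x : Fin n → Bool => f fun j => g j x) =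
            (fun x => x ⟨0, hn⟩ && !x ⟨0, hn⟩) := by
          funext x
          have e : (fun j => g j x) = (fun j : Fin 0 => Fin.elim0 j) := by
            funext j; exact Fin.elim0 j
          rw [e, hb]
          simp
        rw [this]
        exact ORG_avail_head _ _
    | true =>
      refine ⟨[(fun x => x ⟨0, hn⟩ || !x ⟨0, hn⟩), (fun x => !x ⟨0, hn⟩)], s + 1, le_refl _, ?_, ?_⟩
      · exact AON.or s _ _ _ h1 (ORG_avail_cons _ hx) (ORG_avail_head _ _)
      · have : (fun x : Fin n → Bool => f fun j => g j x) =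
            (fun x => x ⟨0, hn⟩ || !x ⟨0, hn⟩) := by
          funext x
          have e : (fun j => g j x) = (fun j : Fin 0 => Fin.elim0 j) := by
            funext j; exact Fin.elim0 j
          rw [e, hb]
          simp
        rw [this]
        exact ORG_avail_head _ _
  | succ k ih =>
    intro f s l g hl hg
    obtain ⟨l1, s1, hs1, ha1, hv1⟩ := ih (fun v => f (Fin.cons true v)) s l (fun j => g j.succ) hl
      (fun j => hg j.succ)
    obtain ⟨l2, s2, hs2, ha2, hv2⟩ := ih (fun v => f (Fin.cons false v)) s1 (l1 ++ l)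
      (fun j => g j.succ) ha1 (fun j => ORG_avail_append _ (hg j.succ))
    set F1 : BF n := fun x => f (Fin.cons true fun j => g (Fin.succ j) x) with hF1
    set F0 : BF n := fun x => f (Fin.cons false fun j => g (Fin.succ j) x) with hF0
    have hv1' : Avail (l2 ++ (l1 ++ l)) F1 := ORG_avail_append _ hv1
    have hg0 : Avail (l2 ++ (l1 ++ l)) (g 0) := ORG_avail_append _ (ORG_avail_append _ (hg 0))
    have b1 := AON.and s2 _ (g 0) F1 ha2 hg0 hv1'
    have b2 := AON.not (s2 + 1) _ (g 0) b1 (ORG_avail_cons _ hg0)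
    have b3 := AON.and (s2 + 1) _ (fun x => !g 0 x) F0 b2 (ORG_avail_head _ _)
      (ORG_avail_cons _ (ORG_avail_cons _ hv2))
    have b4 := AON.or (s2 + 1 + 1) _ (fun x => g 0 x && F1 x) (fun x => !g 0 x && F0 x)
      b3 (ORG_avail_cons _ (ORG_avail_cons _ (ORG_avail_head _ _))) (ORG_avail_head _ _)
    refine ⟨[(fun x => (g 0 x && F1 x) || (!g 0 x && F0 x)), (fun x => !g 0 x && F0 x),
      (fun x => !g 0 x), (fun x => g 0 x && F1 x)] ++ l2 ++ l1, s2 + 1 + 1 + 1, ?_, ?_, ?_⟩
    rotate_left
    · have e : ∀ (p q r t : BF n), [p, q, r, t] ++ l2 ++ l1 ++ l = p :: q :: r :: t ::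
          (l2 ++ (l1 ++ l)) := by
        intro p q r t
        simp
      rw [e]
      exact b4
    · have e : (fun x : Fin n → Bool => f fun j => g j x) =
          (fun x => (g 0 x && F1 x) || (!g 0 x && F0 x)) := by
        funext x
        have e1 : (fun j => g j x) = Fin.cons (g 0 x) (fun j => g (Fin.succ j) x) := by
          funext j
          refine Fin.cases ?_ (fun i => ?_) j
          · rfl
          · rfl
        rw [e1, hF1, hF0]
        cases g 0 x <;> simp
      rw [e]
      simp only [List.append_assoc]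
      exact ORG_avail_head _ _
    · simp only [ORG_c]
      omega

theorem t_ORG : S_ORG := by
  intro B hB
  classical
  refine ⟨∑ f ∈ hB.toFinset, ORG_c f.1, ?_⟩
  intro n s C hn hC
  set c := ∑ f ∈ hB.toFinset, ORG_c f.1 with hc
  have hle : ∀ (k : ℕ) (f : (Fin k → Bool) → Bool), (⟨k, f⟩ : BFun) ∈ B → ORG_c k ≤ c := by
    intro k f hf
    exact Finset.single_le_sum (f := fun f : BFun => ORG_c f.1) (fun _ _ => Nat.zero_le _)
      (hB.mem_toFinset.2 hf)
  have key : ∀ l : List (BF n), Gates B n l → ∃ (l' : List (BF n)) (s' : ℕ),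
      AON n s' l' ∧ s' ≤ c * l.length ∧ ∀ h, Avail l h → Avail l' h := by
    intro l hl
    induction hl with
    | nil => exact ⟨[], 0, AON.nil, le_refl _, fun _ h => h⟩
    | gate l k f g hf hg _ ih =>
      obtain ⟨l', s', h1, h2, h3⟩ := ih
      obtain ⟨l'', s'', h4, h5, h6⟩ := ORG_shannon n hn k f s' l' g h1 (fun j => h3 _ (hg j))
      refine ⟨l'' ++ l', s'', h5, ?_, ?_⟩
      · have := hle k f hf
        rw [List.length_cons, Nat.mul_add, Nat.mul_one]
        omega
      · intro h hh
        rcases hh with hh | hh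
        · rcases List.mem_cons.1 hh with e | hh
          · rw [e]; exact h6
          · exact ORG_avail_append _ (h3 _ (Or.inl hh))
        · exact Or.inr hh
  obtain ⟨l, hl, hlen, hav⟩ := hC
  obtain ⟨l', s', h1, h2, h3⟩ := key l hl
  exact ⟨l', s', h1, h2.trans (Nat.mul_le_mul_left _ hlen), h3 _ hav⟩

end Pool.Agent.H547R7
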