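import Pool.Agent.H547R7.Stm

/-!
# Sampling: Chernoff's inequality and the union bound
-/

set_option autoImplicit false

namespace Pool.Agent.H547R7

open Pool.Agent.H547R6 Pool.Agent.NPC Pool.Agent.H424R2.PPAD

/-- real indicator -/
private noncomputable def SAM_X {Ω : Type} (g : Ω → Bool) (w : Ω) : ℝ := if g w = true then 1 else 0

private theorem SAM_X_nonneg {Ω : Type} (g : Ω → Bool) (w : Ω) : 0 ≤ SAM_X g w := by
  unfold SAM_X; split_ifs <;> norm_num

private theorem SAM_X_le {Ω : Type} (g : Ω → Bool) (w : Ω) : SAM_X g w ≤ 1 := by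
  unfold SAM_X; split_ifs <;> norm_num

private theorem SAM_X_sq {Ω : Type} (g : Ω → Bool) (w : Ω) : SAM_X g w ^ 2 = SAM_X g w := by
  unfold SAM_X; split_ifs <;> norm_num

private theorem SAM_sum {Ω : Type} [Fintype Ω] (g : Ω → Bool) :
    ∑ w, SAM_X g w = ((Finset.univ.filter fun x => g x = true).card : ℝ) := by
  unfold SAM_X
  rw [Finset.sum_boole]

private theorem SAM_pr {Ω : Type} [Fintype Ω] [Nonempty Ω] (g : Ω → Bool) :
    ∑ w, SAM_X g w = Fintype.card Ω * pr g := by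
  have h : (Fintype.card Ω : ℝ) ≠ 0 := by
    exact_mod_cast Fintype.card_ne_zero
  rw [SAM_sum, pr, mul_div_cancel₀ _ h]

private theorem SAM_pr01 {Ω : Type} [Fintype Ω] [Nonempty Ω] (g : Ω → Bool) :
    0 ≤ pr g ∧ pr g ≤ 1 := by
  have h : (0 : ℝ) < Fintype.card Ω := by
    exact_mod_cast Fintype.card_pos
  refine ⟨by unfold pr; positivity, ?_⟩
  rw [pr, div_le_one h]
  exact_mod_cast Finset.card_le_univ _

/-- the exponential moment -/
private theorem SAM_moment {Ω : Type} [Fintype Ω] [Nonempty Ω] (g : Ω → Bool) (l : ℝ)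
    (hl : |l| ≤ 1) :
    ∑ w, Real.exp (l * (SAM_X g w - pr g)) ≤ Fintype.card Ω * Real.exp (l ^ 2 / 4) := by
  obtain ⟨h0, h1⟩ := SAM_pr01 g
  have hN : (0 : ℝ) < Fintype.card Ω := by
    exact_mod_cast Fintype.card_pos
  have hb : ∀ w, Real.exp (l * (SAM_X g w - pr g)) ≤
      1 + l * (SAM_X g w - pr g) + l ^ 2 * ((1 - 2 * pr g) * SAM_X g w + pr g ^ 2) := by
    intro w
    have ht : |l * (SAM_X g w - pr g)| ≤ 1 := by
      rw [abs_mul]
      have : |SAM_X g w - pr g| ≤ 1 := by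
        rw [abs_le]
        constructor <;> linarith [SAM_X_nonneg g w, SAM_X_le g w]
      calc |l| * |SAM_X g w - pr g| ≤ 1 * 1 := mul_le_mul hl this (abs_nonneg _) zero_le_one
        _ = 1 := one_mul 1
    have := Real.abs_exp_sub_one_sub_id_le ht
    have h2 := (abs_le.1 this).2
    have h3 : (l * (SAM_X g w - pr g)) ^ 2 =
        l ^ 2 * ((1 - 2 * pr g) * SAM_X g w + pr g ^ 2) := by
      have := SAM_X_sq g w
      calc (l * (SAM_X g w - pr g)) ^ 2 =
          l ^ 2 * (SAM_X g w ^ 2 - 2 * pr g * SAM_X g w + pr g ^ 2) := by ring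
        _ = l ^ 2 * ((1 - 2 * pr g) * SAM_X g w + pr g ^ 2) := by rw [this]; ring
    linarith
  have hsum : ∑ w, (1 + l * (SAM_X g w - pr g) +
      l ^ 2 * ((1 - 2 * pr g) * SAM_X g w + pr g ^ 2)) =
      Fintype.card Ω * (1 + l ^ 2 * (pr g * (1 - pr g))) := by
    rw [Finset.sum_add_distrib, Finset.sum_add_distrib, ← Finset.mul_sum, ← Finset.mul_sum,
      Finset.sum_sub_distrib, Finset.sum_add_distrib, ← Finset.mul_sum, SAM_pr]
    simp only [Finset.sum_const, Finset.card_univ, nsmul_eq_mul]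
    ring
  calc ∑ w, Real.exp (l * (SAM_X g w - pr g)) ≤ _ := Finset.sum_le_sum fun w _ => hb w
    _ = Fintype.card Ω * (1 + l ^ 2 * (pr g * (1 - pr g))) := hsum
    _ ≤ Fintype.card Ω * Real.exp (l ^ 2 / 4) := by
        refine mul_le_mul_of_nonneg_left ?_ hN.le
        have h4 : pr g * (1 - pr g) ≤ 1 / 4 := by nlinarith [sq_nonneg (pr g - 1 / 2)]
        have h5 := Real.add_one_le_exp (l ^ 2 / 4)
        nlinarith [sq_nonneg l]

private theorem SAM_moment_pow {Ω : Type} [Fintype Ω] [Nonempty Ω] (g : Ω → Bool) (T : ℕ) (l : ℝ)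
    (hl : |l| ≤ 1) :
    ∑ s : Fin T → Ω, Real.exp (l * ∑ i, (SAM_X g (s i) - pr g)) ≤
      (Fintype.card Ω : ℝ) ^ T * Real.exp (T * (l ^ 2 / 4)) := by
  have h1 : ∀ s : Fin T → Ω, Real.exp (l * ∑ i, (SAM_X g (s i) - pr g)) =
      ∏ i, Real.exp (l * (SAM_X g (s i) - pr g)) := by
    intro s
    rw [← Real.exp_sum, Finset.mul_sum]
  rw [Finset.sum_congr rfl fun s _ => h1 s,
    ← Fintype.sum_pow (fun w => Real.exp (l * (SAM_X g w - pr g))) T]
  calc (∑ w, Real.exp (l * (SAM_X g w - pr g))) ^ T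
      ≤ (Fintype.card Ω * Real.exp (l ^ 2 / 4)) ^ T :=
        pow_le_pow_left₀ (Finset.sum_nonneg fun _ _ => (Real.exp_pos _).le)
          (SAM_moment g l hl) T
    _ = (Fintype.card Ω : ℝ) ^ T * Real.exp (T * (l ^ 2 / 4)) := by
        rw [mul_pow, ← Real.exp_nat_mul]

theorem t_SAM : S_SAM := by
  intro Ω Y _ _ _ h n T δ hδ hδ1 hY hT
  classical
  by_contra hcon
  push Not at hcon
  have hT0 : (0 : ℝ) < T := by
    by_contra hle
    push Not at hle
    have : (T : ℝ) * δ ^ 2 ≤ 0 := mul_nonpos_of_nonpos_of_nonneg hle (sq_nonneg δ)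
    have hn : (0 : ℝ) ≤ n := Nat.cast_nonneg n
    linarith
  have hN : (0 : ℝ) < Fintype.card Ω := by
    exact_mod_cast Fintype.card_pos
  -- lower bound for every sample
  have hlow : ∀ s : Fin T → Ω, Real.exp (T * δ ^ 2) ≤
      ∑ y, (Real.exp (δ * ∑ i, (SAM_X (h y) (s i) - pr (h y))) +
        Real.exp (-δ * ∑ i, (SAM_X (h y) (s i) - pr (h y)))) := by
    intro s
    obtain ⟨y, hy⟩ := hcon s
    have hS : ∑ i, (SAM_X (h y) (s i) - pr (h y)) =
        T * (((Finset.univ.filter fun i => h y (s i) = true).card : ℝ) / T - pr (h y)) := by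
      rw [Finset.sum_sub_distrib, mul_sub, mul_div_cancel₀ _ hT0.ne']
      have : ∑ i, SAM_X (h y) (s i) =
          ((Finset.univ.filter fun i => h y (s i) = true).card : ℝ) := by
        have := SAM_sum (fun i => h y (s i))
        exact this
      rw [this]
      simp
    refine le_trans ?_ (Finset.single_le_sum
      (f := fun y => (Real.exp (δ * ∑ i, (SAM_X (h y) (s i) - pr (h y))) +
        Real.exp (-δ * ∑ i, (SAM_X (h y) (s i) - pr (h y)))))
      (fun y _ => add_nonneg (Real.exp_pos _).le (Real.exp_pos _).le) (Finset.mem_univ y))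
    rcases lt_abs.1 hy with h1 | h1
    · refine le_trans ?_ (le_add_of_nonneg_right (Real.exp_pos _).le)
      rw [Real.exp_le_exp, hS]
      nlinarith [mul_pos hδ hT0]
    · refine le_trans ?_ (le_add_of_nonneg_left (Real.exp_pos _).le)
      rw [Real.exp_le_exp, hS]
      nlinarith [mul_pos hδ hT0]
  have h1 : (Fintype.card Ω : ℝ) ^ T * Real.exp (T * δ ^ 2) ≤
      ∑ s : Fin T → Ω, ∑ y, (Real.exp (δ * ∑ i, (SAM_X (h y) (s i) - pr (h y))) +
        Real.exp (-δ * ∑ i, (SAM_X (h y) (s i) - pr (h y)))) := by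
    have := Finset.card_nsmul_le_sum (Finset.univ : Finset (Fin T → Ω))
      (fun s => ∑ y, (Real.exp (δ * ∑ i, (SAM_X (h y) (s i) - pr (h y))) +
        Real.exp (-δ * ∑ i, (SAM_X (h y) (s i) - pr (h y))))) (Real.exp (T * δ ^ 2))
      (fun s _ => hlow s)
    rw [nsmul_eq_mul, Finset.card_univ, Fintype.card_fun, Fintype.card_fin] at this
    push_cast at this
    exact this
  have hd : |δ| ≤ 1 := by rw [abs_of_pos hδ]; exact hδ1
  have hd' : |-δ| ≤ 1 := by rw [abs_neg]; exact hd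
  have h2 : ∑ s : Fin T → Ω, ∑ y, (Real.exp (δ * ∑ i, (SAM_X (h y) (s i) - pr (h y))) +
        Real.exp (-δ * ∑ i, (SAM_X (h y) (s i) - pr (h y)))) ≤
      (Fintype.card Y : ℝ) * (2 * ((Fintype.card Ω : ℝ) ^ T * Real.exp (T * (δ ^ 2 / 4)))) := by
    rw [Finset.sum_comm]
    have := Finset.sum_le_card_nsmul (Finset.univ : Finset Y)
      (fun y => ∑ s : Fin T → Ω, (Real.exp (δ * ∑ i, (SAM_X (h y) (s i) - pr (h y))) +
        Real.exp (-δ * ∑ i, (SAM_X (h y) (s i) - pr (h y)))))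
      (2 * ((Fintype.card Ω : ℝ) ^ T * Real.exp (T * (δ ^ 2 / 4))))
      (fun y _ => by
        show ∑ s : Fin T → Ω, _ ≤ _
        rw [Finset.sum_add_distrib]
        have e1 := SAM_moment_pow (h y) T δ hd
        have e2 := SAM_moment_pow (h y) T (-δ) hd'
        rw [neg_sq] at e2
        linarith)
    rw [nsmul_eq_mul, Finset.card_univ] at this
    exact this
  have h3 := h1.trans h2
  have hYR : (Fintype.card Y : ℝ) ≤ 2 ^ n := by exact_mod_cast hY
  have hNT : (0 : ℝ) < (Fintype.card Ω : ℝ) ^ T := pow_pos hN T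
  have h4 : Real.exp (T * δ ^ 2) ≤ 2 ^ (n + 1) * Real.exp (T * (δ ^ 2 / 4)) := by
    have h5 : (Fintype.card Ω : ℝ) ^ T * Real.exp (T * δ ^ 2) ≤
        (Fintype.card Ω : ℝ) ^ T * (2 ^ (n + 1) * Real.exp (T * (δ ^ 2 / 4))) := by
      refine h3.trans ?_
      have : (Fintype.card Y : ℝ) * (2 * ((Fintype.card Ω : ℝ) ^ T * Real.exp (T * (δ ^ 2 / 4))))
          ≤ 2 ^ n * (2 * ((Fintype.card Ω : ℝ) ^ T * Real.exp (T * (δ ^ 2 / 4)))) :=
        mul_le_mul_of_nonneg_right hYR (by positivity)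
      refine this.trans (le_of_eq ?_)
      ring
    exact le_of_mul_le_mul_left h5 hNT
  have h6 : Real.exp (T * δ ^ 2) = Real.exp (T * (δ ^ 2 / 4)) * Real.exp (3 / 4 * (T * δ ^ 2)) := by
    rw [← Real.exp_add]
    congr 1
    ring
  rw [h6, mul_comm] at h4
  have h7 : Real.exp (3 / 4 * (T * δ ^ 2)) ≤ 2 ^ (n + 1) :=
    le_of_mul_le_mul_right h4 (Real.exp_pos _)
  have h8 : Real.exp (3 * ((n : ℝ) + 2)) ≤ Real.exp (3 / 4 * (T * δ ^ 2)) :=
    Real.exp_le_exp.2 (by linarith)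
  have h9 : (2 : ℝ) ^ (n + 2) ≤ Real.exp (3 * ((n : ℝ) + 2)) := by
    have h10 : (2 : ℝ) ≤ Real.exp 3 := by
      have := Real.add_one_le_exp (3 : ℝ)
      linarith
    have h11 : Real.exp (3 * ((n : ℝ) + 2)) = Real.exp 3 ^ (n + 2) := by
      rw [← Real.exp_nat_mul]
      congr 1
      push_cast
      ring
    rw [h11]
    exact pow_le_pow_left₀ (by norm_num) h10 _
  have h12 : (2 : ℝ) ^ (n + 1) < 2 ^ (n + 2) :=
    pow_lt_pow_right₀ (by norm_num) (by omega)
  linarith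

end Pool.Agent.H547R7
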