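import Pool.Agent.H670LG.Stm3

/-!
# Task SBP: the bits of the explicit generator are computed in polynomial time
-/

set_option autoImplicit false

namespace Pool.Agent.H547R7

open Pool.Agent.H547R6 Pool.Agent.NPC Pool.Agent.H424R2.PPAD

section

variable {α β : Type} [TEnc α] [TEnc β]

theorem SBP_par {l : α → List β} {f : α → ℕ → Bool} (hl : NPC.Poly l)
    (hf : NPC.Poly (fun p : α × ℕ => f p.1 p.2)) : NPC.Poly (fun a => par (l a).length (f a)) := by
  have h1 : NPC.Poly (fun a => ((List.range (l a).length).filter (f a)).length % 2) :=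
    NPC.Poly.mod (NPC.Poly.length (NPC.Poly.filter (NPC.Poly.range_length hl) hf)) (NPC.Poly.const 2)
  refine (NPC.Poly.decide_eq h1 (NPC.Poly.const 1)).congr fun a => ?_
  unfold par
  rw [List.countP_eq_length_filter]

theorem SBP_conv {l : α → List β} {x y : α → List Bool} (hl : NPC.Poly l) (hx : NPC.Poly x)
    (hy : NPC.Poly y) : NPC.Poly (fun a => conv (l a).length (x a) (y a)) := by
  unfold conv
  refine NPC.Poly.map (F := fun a k => par (l a).length fun i =>
    (x a).getD i false && (y a).getD ((k + (l a).length - i) % (l a).length) false)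
    (NPC.Poly.range_length hl) ?_
  refine SBP_par (l := fun p : α × ℕ => l p.1)
    (f := fun (p : α × ℕ) i => (x p.1).getD i false &&
      (y p.1).getD ((p.2 + (l p.1).length - i) % (l p.1).length) false)
    (hl.comp (NPC.Poly.fst NPC.Poly.id)) ?_
  have e1 : NPC.Poly (fun q : (α × ℕ) × ℕ => q.1.1) := NPC.Poly.fst (NPC.Poly.fst NPC.Poly.id)
  have e2 : NPC.Poly (fun q : (α × ℕ) × ℕ => (l q.1.1).length) := NPC.Poly.length (hl.comp e1)
  have e3 : NPC.Poly (fun q : (α × ℕ) × ℕ => q.1.2) := NPC.Poly.snd (NPC.Poly.fst NPC.Poly.id)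
  have e4 : NPC.Poly (fun q : (α × ℕ) × ℕ => q.2) := NPC.Poly.snd NPC.Poly.id
  refine NPC.Poly.and (NPC.Poly.getD (hx.comp e1) e4 (NPC.Poly.const false))
    (NPC.Poly.getD (hy.comp e1) ?_ (NPC.Poly.const false))
  exact NPC.Poly.mod (NPC.Poly.sub (NPC.Poly.add e3 e2) e4) e2

end

theorem SBP_pw (n : ℕ) (a : List Bool) (i : ℕ) :
    pw n a i = (conv n a)^[i] ((List.range n).map fun k => decide (k = 0)) := by
  induction i with
  | zero => rfl
  | succ i ih => rw [Function.iterate_succ_apply', ← ih]; rfl

theorem SBP_len (n : ℕ) (a : List Bool) (i : ℕ) : (pw n a i).length = n := by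
  cases i with
  | zero => simp [pw]
  | succ i => simp [pw, conv]

theorem t_SBP : S_SBP := by
  unfold S_SBP
  apply PTime.of_poly
  have hu : NPC.Poly (fun p : List Bool × List Bool × List Bool => p.1) := NPC.Poly.fst NPC.Poly.id
  have hw : NPC.Poly (fun p : List Bool × List Bool × List Bool => p.2.1) :=
    NPC.Poly.fst (NPC.Poly.snd NPC.Poly.id)
  have hv : NPC.Poly (fun p : List Bool × List Bool × List Bool => p.2.2) :=
    NPC.Poly.snd (NPC.Poly.snd NPC.Poly.id)
  have hbase : NPC.Poly (fun p : List Bool × List Bool × List Bool =>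
      (List.range p.1.length).map fun k => decide (k = 0)) :=
    NPC.Poly.map (F := fun _ k => decide (k = 0)) (NPC.Poly.range_length hu)
      (NPC.Poly.decide_eq (NPC.Poly.snd NPC.Poly.id) (NPC.Poly.const 0))
  have hF : NPC.Poly (fun q : (List Bool × List Bool × List Bool) × List Bool =>
      conv q.1.1.length q.1.2.1 q.2) :=
    SBP_conv (l := fun q : (List Bool × List Bool × List Bool) × List Bool => q.1.1)
      (hu.comp (NPC.Poly.fst NPC.Poly.id)) (hw.comp (NPC.Poly.fst NPC.Poly.id)) (NPC.Poly.snd NPC.Poly.id)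
  have hpw : NPC.Poly (fun p : List Bool × List Bool × List Bool =>
      pw p.1.length p.2.1 p.2.2.length) := by
    refine (NPC.Poly.iterLen (F := fun (p : List Bool × List Bool × List Bool) s =>
      conv p.1.length p.2.1 s) hv hbase hF
      (Polynomial.C 4 * Polynomial.X + Polynomial.C 1) ?_).congr fun p => ?_
    · intro p k _
      rw [← SBP_pw]
      have h1 := sz_listBool_le (pw p.1.length p.2.1 k)
      rw [SBP_len] at h1
      have h2 := length_lt_sz p.1
      have h3 : sz p.1 ≤ sz p := by
        obtain ⟨u, w, v⟩ := p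
        simp only [sz_pair]
        omega
      simp only [Polynomial.eval_add, Polynomial.eval_mul, Polynomial.eval_C, Polynomial.eval_X]
      omega
    · rw [← SBP_pw]
  unfold sbit
  refine SBP_par (l := fun p : List Bool × List Bool × List Bool => p.1)
    (f := fun (p : List Bool × List Bool × List Bool) j =>
      p.2.1.getD (p.1.length + j) false && (pw p.1.length p.2.1 p.2.2.length).getD j false) hu ?_
  have g1 : NPC.Poly (fun q : (List Bool × List Bool × List Bool) × ℕ => q.1) := NPC.Poly.fst NPC.Poly.id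
  have g2 : NPC.Poly (fun q : (List Bool × List Bool × List Bool) × ℕ => q.2) := NPC.Poly.snd NPC.Poly.id
  exact NPC.Poly.and
    (NPC.Poly.getD (hw.comp g1) (NPC.Poly.add (NPC.Poly.length (hu.comp g1)) g2) (NPC.Poly.const false))
    (NPC.Poly.getD (hpw.comp g1) g2 (NPC.Poly.const false))

end Pool.Agent.H547R7
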