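import Pool.Agent.H670LG.Stm3
import Pool.Agent.H547R7.T_THR

set_option autoImplicit false

namespace Pool.Agent.H547R7

open Pool.Agent.H547R6 Pool.Agent.NPC Pool.Agent.H424R2.PPAD

/-- substitution -/
def THC_sub {n m : ℕ} (v : Fin n → BF m) (f : BF n) : BF m := fun x => f fun i => v i x

theorem THC_avail_sub {n m : ℕ} (v : Fin n → BF m) (l : List (BF n)) (L0 : List (BF m))
    (hv : ∀ i, Avail L0 (v i)) (f : BF n) (hf : Avail l f) :
    Avail (l.map (THC_sub v) ++ L0) (THC_sub v f) := by
  rcases hf with hf | ⟨i, rfl⟩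
  · left
    exact List.mem_append_left _ (List.mem_map_of_mem hf)
  · have : THC_sub v (fun x : Fin n → Bool => x i) = v i := rfl
    rw [this]
    rcases hv i with h | h
    · exact Or.inl (List.mem_append_right _ h)
    · exact Or.inr h

theorem THC_AON_sub {n m s t : ℕ} (v : Fin n → BF m) (l : List (BF n)) (L0 : List (BF m))
    (hL : AON m t L0) (hv : ∀ i, Avail L0 (v i)) (h : AON n s l) :
    AON m (s + t) (l.map (THC_sub v) ++ L0) := by
  induction h with
  | nil => simpa using hL
  | not s l a h ha ih =>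
    exact AON.not (s + t) _ (THC_sub v a) ih (THC_avail_sub v l L0 hv a ha)
  | and s l a b h ha hb ih =>
    have := AON.and (s + t) _ (THC_sub v a) (THC_sub v b) ih (THC_avail_sub v l L0 hv a ha)
      (THC_avail_sub v l L0 hv b hb)
    have e : s + 1 + t = s + t + 1 := by omega
    rw [e]
    exact this
  | or s l a b h ha hb ih =>
    have := AON.or (s + t) _ (THC_sub v a) (THC_sub v b) ih (THC_avail_sub v l L0 hv a ha)
      (THC_avail_sub v l L0 hv b hb)
    have e : s + 1 + t = s + t + 1 := by omega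
    rw [e]
    exact this

theorem THC_Gates_sub {n m t : ℕ} (v : Fin n → BF m) (l : List (BF n)) (L0 : List (BF m))
    (hL : AON m t L0) (hv : ∀ i, Avail L0 (v i)) (h : Gates MB n l) :
    AON m (l.length + t) (l.map (THC_sub v) ++ L0) := by
  induction h with
  | nil => simpa using hL
  | gate l k f g hf hg hl ih =>
    have e : ((fun x => f fun j => g j x) :: l).length + t = l.length + t + 1 := by
      simp only [List.length_cons]; omega
    rw [e]
    rcases hf with hf | hf
    · cases hf
      exact AON.and (l.length + t) _ (THC_sub v (g 0)) (THC_sub v (g 1)) ih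
        (THC_avail_sub v l L0 hv _ (hg 0)) (THC_avail_sub v l L0 hv _ (hg 1))
    · cases hf
      exact AON.or (l.length + t) _ (THC_sub v (g 0)) (THC_sub v (g 1)) ih
        (THC_avail_sub v l L0 hv _ (hg 0)) (THC_avail_sub v l L0 hv _ (hg 1))

theorem THC_neg (n : ℕ) (is : List (Fin n)) :
    AON n 0 (is.map fun i => (fun x : Fin n → Bool => !x i)) := by
  induction is with
  | nil => exact AON.nil
  | cons i is ih => exact AON.not 0 _ (fun x => x i) ih (Or.inr ⟨i, rfl⟩)

theorem THC_append {n s t : ℕ} (l L0 : List (BF n)) (hL : AON n t L0) (h : AON n s l) :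
    AON n (s + t) (l ++ L0) := by
  have := THC_AON_sub (fun i x => x i) l L0 hL (fun i => Or.inr ⟨i, rfl⟩) h
  have e : l.map (THC_sub fun (i : Fin n) (x : Fin n → Bool) => x i) = l := by
    have : (THC_sub fun (i : Fin n) (x : Fin n → Bool) => x i) = id := rfl
    rw [this, List.map_id]
  rw [e] at this
  exact this

theorem t_SHI : S_SHI := by
  intro n q C y hC
  obtain ⟨l, s', hl, hs, hCl⟩ := hC
  have hneg := THC_neg n (List.finRange n)
  have hv : ∀ i, Avail ((List.finRange n).map fun i => (fun x : Fin n → Bool => !x i))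
      (fun x : Fin n → Bool => xor (x i) (y i)) := by
    intro i
    cases hy : y i with
    | false =>
      right
      exact ⟨i, by funext x; simp⟩
    | true =>
      left
      have : (fun x : Fin n → Bool => xor (x i) true) = (fun x : Fin n → Bool => !x i) := by
        funext x; simp
      rw [this]
      exact List.mem_map_of_mem (f := fun i => (fun x : Fin n → Bool => !x i))
        (List.mem_finRange i)
  have key : Comp0 n q (fun x => C (vx x y)) :=
    ⟨_, s' + 0, THC_AON_sub (fun i x => xor (x i) (y i)) l _ hneg hv hl, by omega,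
      THC_avail_sub (fun i x => xor (x i) (y i)) l _ hv C hCl⟩
  refine ⟨key, ?_⟩
  have e : (fun x => C (vx y x)) = (fun x => C (vx x y)) := by
    funext x
    congr 1
    funext i
    simp [vx, Bool.xor_comm]
  rw [e]
  exact key

theorem THC_common {n q : ℕ} : ∀ (T : ℕ) (fs : Fin T → BF n), (∀ i, Comp0 n q (fs i)) →
    ∃ l s', AON n s' l ∧ s' ≤ T * q ∧ ∀ i, Avail l (fs i) := by
  intro T
  induction T with
  | zero => intro fs _; exact ⟨[], 0, AON.nil, by omega, fun i => i.elim0⟩
  | succ T ih =>
    intro fs h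
    obtain ⟨l, s', hl, hs, hA⟩ := ih (fun i => fs i.castSucc) (fun i => h _)
    obtain ⟨l2, s2, hl2, hs2, hA2⟩ := h (Fin.last T)
    refine ⟨l2 ++ l, s2 + s', THC_append l2 l hl hl2, by rw [Nat.succ_mul]; omega, ?_⟩
    intro i
    refine Fin.lastCases ?_ (fun j => ?_) i
    · rcases hA2 with h2 | h2
      · exact Or.inl (List.mem_append_left _ h2)
      · exact Or.inr h2
    · rcases hA j with h2 | h2
      · exact Or.inl (List.mem_append_right _ h2)
      · exact Or.inr h2

theorem THC_const {n : ℕ} (hn : 1 ≤ n) (b : Bool) : Comp0 n 1 (fun _ : Fin n → Bool => b) := by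
  have h1 : AON n 0 [fun x : Fin n → Bool => !x ⟨0, hn⟩] :=
    AON.not 0 [] (fun x => x ⟨0, hn⟩) AON.nil (Or.inr ⟨_, rfl⟩)
  have a1 : Avail [fun x : Fin n → Bool => !x ⟨0, hn⟩] (fun x : Fin n → Bool => x ⟨0, hn⟩) :=
    Or.inr ⟨_, rfl⟩
  have a2 : Avail [fun x : Fin n → Bool => !x ⟨0, hn⟩] (fun x : Fin n → Bool => !x ⟨0, hn⟩) :=
    Or.inl (List.mem_singleton.2 rfl)
  cases b with
  | false =>
    refine ⟨_, 1, AON.and 0 _ _ _ h1 a1 a2, le_refl _, Or.inl ?_⟩
    have : (fun _ : Fin n → Bool => false) =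
        (fun x : Fin n → Bool => x ⟨0, hn⟩ && !x ⟨0, hn⟩) := by
      funext x; simp
    rw [this]
    exact List.mem_cons_self
  | true =>
    refine ⟨_, 1, AON.or 0 _ _ _ h1 a1 a2, le_refl _, Or.inl ?_⟩
    have : (fun _ : Fin n → Bool => true) =
        (fun x : Fin n → Bool => x ⟨0, hn⟩ || !x ⟨0, hn⟩) := by
      funext x; simp
    rw [this]
    exact List.mem_cons_self

theorem t_THC : S_THC := by
  intro n q T θ C ys hn hC
  obtain ⟨L, s', hL, hs, hA⟩ := THC_common T (fun i => fun y => C (vx (ys i) y))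
    (fun i => (t_SHI n q C (ys i) hC).2)
  obtain ⟨l', hl', hlen, hM⟩ := t_THR T T [] (fun i x => x i) Gates.nil
    (fun i => Or.inr (Or.inr ⟨i, rfl⟩)) θ
  rw [List.append_nil] at hl' hM
  rcases hM with ⟨b, hb⟩ | hM
  · have e : (fun y => decide (θ ≤ (Finset.univ.filter fun i => C (vx (ys i) y) = true).card)) =
        (fun _ : Fin n → Bool => b) := by
      funext y
      exact hb (fun i => C (vx (ys i) y))
    rw [e]
    obtain ⟨l, s, h1, h2, h3⟩ := THC_const hn b
    exact ⟨l, s, h1, by omega, h3⟩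
  · exact ⟨_, _, THC_Gates_sub (fun i y => C (vx (ys i) y)) l' L hL hA hl', by omega,
      THC_avail_sub (fun i y => C (vx (ys i) y)) l' L hA _ hM⟩

end Pool.Agent.H547R7
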