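import Pool.Agent.H670LG.Stm3

/-!
# The sum of two independent copies of a generator (task XOR)
-/

set_option autoImplicit false

namespace Pool.Agent.H547R7

lemma XOR.pr_sum {Ω : Type} [Fintype Ω] (p : Ω → Bool) :
    pr p = (∑ x, if p x = true then (1 : ℝ) else 0) / Fintype.card Ω := by
  unfold pr
  rw [Finset.card_filter]
  push_cast
  rfl

lemma XOR.layer (m0 m1 k : ℕ) (h0 : m0 ≤ k) (h1 : k ≤ m1) :
    (k : ℝ) = m0 + ∑ θ ∈ Finset.Ioc m0 m1, if decide (θ ≤ k) = true then (1 : ℝ) else 0 := by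
  have h2 : (Finset.Ioc m0 m1).filter (fun θ => decide (θ ≤ k) = true) = Finset.Ioc m0 k := by
    ext θ
    simp only [Finset.mem_filter, Finset.mem_Ioc, decide_eq_true_eq]
    omega
  have h3 : (∑ θ ∈ Finset.Ioc m0 m1, if decide (θ ≤ k) = true then (1 : ℝ) else 0) =
      ((Finset.Ioc m0 k).card : ℝ) := by
    rw [← h2, Finset.card_filter]
    push_cast
    rfl
  rw [h3, Nat.card_Ioc, Nat.cast_sub h0]
  ring

lemma XOR.mean_layer {Ω : Type} [Fintype Ω] [Nonempty Ω] (f : Ω → ℕ) (m0 m1 : ℕ)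
    (h0 : ∀ x, m0 ≤ f x) (h1 : ∀ x, f x ≤ m1) :
    (∑ x, (f x : ℝ)) / Fintype.card Ω =
      m0 + ∑ θ ∈ Finset.Ioc m0 m1, pr (fun x => decide (θ ≤ f x)) := by
  have hc : (Fintype.card Ω : ℝ) ≠ 0 := by
    have := Fintype.card_pos (α := Ω)
    positivity
  have e1 : ∑ x, (f x : ℝ) = ∑ x, ((m0 : ℝ) +
      ∑ θ ∈ Finset.Ioc m0 m1, if decide (θ ≤ f x) = true then (1 : ℝ) else 0) :=
    Finset.sum_congr rfl fun x _ => XOR.layer m0 m1 (f x) (h0 x) (h1 x)
  rw [e1, Finset.sum_add_distrib, Finset.sum_comm]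
  have e2 : ∀ θ, pr (fun x => decide (θ ≤ f x)) =
      (∑ x, if decide (θ ≤ f x) = true then (1 : ℝ) else 0) / Fintype.card Ω := fun θ => XOR.pr_sum _
  simp only [e2]
  rw [add_div]
  congr 1
  · rw [Finset.sum_const, Finset.card_univ, nsmul_eq_mul]
    field_simp
  · rw [Finset.sum_div]

lemma XOR.abs_mean_le {Ω : Type} [Fintype Ω] [Nonempty Ω] (f g : Ω → ℝ) (δ : ℝ)
    (h : ∀ x, |f x - g x| ≤ δ) :
    |(∑ x, f x) / Fintype.card Ω - (∑ x, g x) / Fintype.card Ω| ≤ δ := by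
  have hc : (0 : ℝ) < Fintype.card Ω := by
    have := Fintype.card_pos (α := Ω)
    positivity
  rw [← sub_div, ← Finset.sum_sub_distrib, abs_div, abs_of_pos hc, div_le_iff₀ hc]
  calc |∑ x, (f x - g x)| ≤ ∑ x, |f x - g x| := Finset.abs_sum_le_sum_abs _ _
    _ ≤ ∑ _x : Ω, δ := Finset.sum_le_sum fun x _ => h x
    _ = δ * Fintype.card Ω := by
      rw [Finset.sum_const, Finset.card_univ, nsmul_eq_mul, mul_comm]

lemma XOR.vx_vx {n : ℕ} (x y : Fin n → Bool) : vx x (vx x y) = y := by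
  funext i
  simp only [vx]
  cases x i <;> cases y i <;> rfl

theorem t_XOR : S_XOR := by
  intro Ω _ _ n G C T s ε δ hT hε hε1 hδ h1 h2 h3
  set N : (Fin n → Bool) → ℕ := fun y =>
    (Finset.univ.filter fun i => C (vx (G (s i)) y) = true).card with hN
  set F : (Fin n → Bool) → ℝ := fun y => pr (fun w => C (vx (G w) y)) with hF
  have hTr : (0 : ℝ) < T := by exact_mod_cast hT
  have h1' : ∀ y, |(N y : ℝ) / T - F y| ≤ δ := h1
  have h3' : ∀ y, |F y - pr C| ≤ ε := h3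
  have h2' : ∀ θ : ℕ, |pr (fun w => decide (θ ≤ N (G w))) - pr (fun y => decide (θ ≤ N y))| ≤ ε :=
    h2
  obtain ⟨y0, -, hy0⟩ := Finset.exists_min_image (Finset.univ : Finset (Fin n → Bool)) N
    Finset.univ_nonempty
  obtain ⟨y1, -, hy1⟩ := Finset.exists_max_image (Finset.univ : Finset (Fin n → Bool)) N
    Finset.univ_nonempty
  have hm0 : ∀ y, N y0 ≤ N y := fun y => hy0 y (Finset.mem_univ _)
  have hm1 : ∀ y, N y ≤ N y1 := fun y => hy1 y (Finset.mem_univ _)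
  have hcΩ : (Fintype.card Ω : ℝ) ≠ 0 := by
    have := Fintype.card_pos (α := Ω)
    positivity
  -- the mean over `w`
  have ew : (∑ w, (N (G w) : ℝ)) / Fintype.card Ω =
      N y0 + ∑ θ ∈ Finset.Ioc (N y0) (N y1), pr (fun w => decide (θ ≤ N (G w))) :=
    XOR.mean_layer (fun w => N (G w)) _ _ (fun w => hm0 _) (fun w => hm1 _)
  have ey : (∑ y, (N y : ℝ)) / Fintype.card (Fin n → Bool) =
      N y0 + ∑ θ ∈ Finset.Ioc (N y0) (N y1), pr (fun y => decide (θ ≤ N y)) :=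
    XOR.mean_layer N _ _ hm0 hm1
  have hdiff : |(∑ w, (N (G w) : ℝ)) / Fintype.card Ω -
      (∑ y, (N y : ℝ)) / Fintype.card (Fin n → Bool)| ≤ ((N y1 : ℝ) - N y0) * ε := by
    rw [ew, ey, add_sub_add_left_eq_sub, ← Finset.sum_sub_distrib]
    calc |∑ θ ∈ Finset.Ioc (N y0) (N y1), (pr (fun w => decide (θ ≤ N (G w))) -
          pr (fun y => decide (θ ≤ N y)))|
        ≤ ∑ θ ∈ Finset.Ioc (N y0) (N y1), |pr (fun w => decide (θ ≤ N (G w))) -
          pr (fun y => decide (θ ≤ N y))| := Finset.abs_sum_le_sum_abs _ _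
      _ ≤ ∑ _θ ∈ Finset.Ioc (N y0) (N y1), ε := Finset.sum_le_sum fun θ _ => h2' θ
      _ = ((N y1 : ℝ) - N y0) * ε := by
        rw [Finset.sum_const, Nat.card_Ioc, nsmul_eq_mul, Nat.cast_sub (hm0 y1)]
  have hrange : (N y1 : ℝ) - N y0 ≤ T * (2 * ε + 2 * δ) := by
    have a1 := (abs_le.1 (h1' y1)).2
    have a0 := (abs_le.1 (h1' y0)).1
    have b1 := (abs_le.1 (h3' y1)).2
    have b0 := (abs_le.1 (h3' y0)).1
    have c1 : (N y1 : ℝ) / T ≤ pr C + ε + δ := by linarith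
    have c0 : pr C - ε - δ ≤ (N y0 : ℝ) / T := by linarith
    rw [div_le_iff₀ hTr] at c1
    rw [le_div_iff₀ hTr] at c0
    nlinarith
  -- the mean of `F`
  have eF : (∑ y, F y) / Fintype.card (Fin n → Bool) = pr C := by
    have e1 : ∑ y, F y = ∑ y, (if C y = true then (1 : ℝ) else 0) := by
      have e2 : ∀ y, F y = (∑ w, if C (vx (G w) y) = true then (1 : ℝ) else 0) /
        Fintype.card Ω := fun y => XOR.pr_sum _
      simp only [e2]
      rw [← Finset.sum_div, Finset.sum_comm]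
      have e3 : ∀ w : Ω, (∑ y, if C (vx (G w) y) = true then (1 : ℝ) else 0) =
          ∑ y, (if C y = true then (1 : ℝ) else 0) := by
        intro w
        exact Fintype.sum_equiv
          ⟨vx (G w), vx (G w), XOR.vx_vx (G w), XOR.vx_vx (G w)⟩ _ _ (fun y => rfl)
      simp only [e3]
      rw [Finset.sum_const, Finset.card_univ, nsmul_eq_mul]
      field_simp
    rw [e1, XOR.pr_sum]
  have eG : pr (fun w : Ω × Ω => C (vx (G w.1) (G w.2))) =
      (∑ w, F (G w)) / Fintype.card Ω := by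
    rw [XOR.pr_sum, Fintype.card_prod, Fintype.sum_prod_type, Finset.sum_comm]
    have e2 : ∀ y, F y = (∑ w, if C (vx (G w) y) = true then (1 : ℝ) else 0) /
        Fintype.card Ω := fun y => XOR.pr_sum _
    simp only [e2]
    rw [← Finset.sum_div, div_div]
    push_cast
    rfl
  have d1 := XOR.abs_mean_le (fun w => (N (G w) : ℝ) / T) (fun w => F (G w)) δ (fun w => h1' _)
  have d2 := XOR.abs_mean_le (fun y => (N y : ℝ) / T) F δ h1'
  rw [eF] at d2
  rw [eG]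
  have r1 : (∑ w, (N (G w) : ℝ) / T) / Fintype.card Ω =
      ((∑ w, (N (G w) : ℝ)) / Fintype.card Ω) / T := by
    rw [← Finset.sum_div]; ring
  have r2 : (∑ y, (N y : ℝ) / T) / Fintype.card (Fin n → Bool) =
      ((∑ y, (N y : ℝ)) / Fintype.card (Fin n → Bool)) / T := by
    rw [← Finset.sum_div]; ring
  rw [r1] at d1
  rw [r2] at d2
  set A := (∑ w, (N (G w) : ℝ)) / Fintype.card Ω with hA
  set B := (∑ y, (N y : ℝ)) / Fintype.card (Fin n → Bool) with hB
  have hAB : |A / T - B / T| ≤ (2 * ε + 2 * δ) * ε := by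
    rw [← sub_div, abs_div, abs_of_pos hTr, div_le_iff₀ hTr]
    calc |A - B| ≤ ((N y1 : ℝ) - N y0) * ε := hdiff
      _ ≤ (T * (2 * ε + 2 * δ)) * ε := mul_le_mul_of_nonneg_right hrange hε
      _ = (2 * ε + 2 * δ) * ε * T := by ring
  rw [abs_le] at d1 d2 hAB ⊢
  have hεδ : ε * δ ≤ δ := by nlinarith
  constructor <;> nlinarith [d1.1, d1.2, d2.1, d2.2, hAB.1, hAB.2]


end Pool.Agent.H547R7
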